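import Pool.Agent.CT.Triv

set_option autoImplicit false

namespace Pool.Agent.CT

open Finset Function
open scoped Classical

variable {Pr : Finset ℕ} {B D E E' : Finset (ℤ → ℤ)} {β γ δ ε e : ℤ → ℤ} {p q r i j : ℕ}
variable {g h : Equiv.Perm ℤ}

/-- permutations of `ℤ` act on finite sets of functions by post-composition -/
noncomputable def act (g : Equiv.Perm ℤ) (E : Finset (ℤ → ℤ)) : Finset (ℤ → ℤ) :=
  E.image (fun e => g ∘ e)

lemma mem_act : e ∈ act g E ↔ ∃ f ∈ E, g ∘ f = e := by simp [act]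

lemma comp_inj (g : Equiv.Perm ℤ) : Injective (fun e : ℤ → ℤ => g ∘ e) := by
  intro a b h
  funext x
  exact g.injective (congrFun h x)

lemma comp_mem_act : g ∘ e ∈ act g E ↔ e ∈ E := by
  rw [mem_act]
  constructor
  · rintro ⟨f, hf, h⟩
    have : f = e := comp_inj g h
    rwa [this] at hf
  · intro h; exact ⟨e, h, rfl⟩

lemma act_one : act 1 E = E := by
  ext e; rw [mem_act]; simp

lemma act_mul : act (g * h) E = act g (act h E) := by
  ext e
  simp only [mem_act]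
  constructor
  · rintro ⟨f, hf, rfl⟩
    exact ⟨h ∘ f, ⟨f, hf, rfl⟩, rfl⟩
  · rintro ⟨_, ⟨f, hf, rfl⟩, rfl⟩
    exact ⟨f, hf, rfl⟩

lemma act_inv_act : act g⁻¹ (act g E) = E := by rw [← act_mul, inv_mul_cancel, act_one]

lemma act_act_inv : act g (act g⁻¹ E) = E := by rw [← act_mul, mul_inv_cancel, act_one]

lemma card_act : (act g E).card = E.card := card_image_of_injective _ (comp_inj g)

lemma good_act (hB : Good B) : Good (act g B) := by
  apply Good.mk'
  · intro z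
    obtain ⟨β, hβ, x, hx⟩ := hB.ex (g⁻¹ z)
    exact ⟨g ∘ β, comp_mem_act.2 hβ, x, by simp [hx]⟩
  · intro β hβ γ hγ x y hxy
    obtain ⟨β', hβ', rfl⟩ := mem_act.1 hβ
    obtain ⟨γ', hγ', rfl⟩ := mem_act.1 hγ
    have := hB.eq hβ' hγ' (g.injective hxy)
    exact ⟨by rw [this.1], this.2⟩

lemma kids_act : kids (g ∘ β) p = act g (kids β p) := by
  ext e
  rw [mem_kids, mem_act]
  constructor
  · rintro ⟨j, hj, rfl⟩
    exact ⟨ch β p j, ch_mem_kids hj, rfl⟩
  · rintro ⟨f, hf, rfl⟩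
    obtain ⟨j, hj, rfl⟩ := mem_kids.1 hf
    exact ⟨j, hj, rfl⟩

lemma split_act : act g (split B β p) = split (act g B) (g ∘ β) p := by
  ext e
  rw [mem_split, kids_act]
  constructor
  · intro h
    obtain ⟨f, hf, rfl⟩ := mem_act.1 h
    rcases mem_split.1 hf with ⟨h1, h2⟩ | h1
    · exact Or.inl ⟨fun h => h1 (comp_inj g h), comp_mem_act.2 h2⟩
    · exact Or.inr (comp_mem_act.2 h1)
  · rintro (⟨h1, h2⟩ | h1)
    · obtain ⟨f, hf, rfl⟩ := mem_act.1 h2
      exact comp_mem_act.2 (mem_split.2 (Or.inl ⟨fun h => h1 (by rw [h]), hf⟩))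
    · obtain ⟨f, hf, rfl⟩ := mem_act.1 h1
      exact comp_mem_act.2 (mem_split.2 (Or.inr hf))

lemma ne_act (h : NE Pr β E) : NE Pr (g ∘ β) (act g E) := h.image g

lemma range_comp_subset_iff : Set.range (g ∘ e) ⊆ Set.range (g ∘ β) ↔
    Set.range e ⊆ Set.range β := by
  rw [Set.range_comp, Set.range_comp]
  exact Set.image_subset_image_iff g.injective

lemma part_act : part (act g E) (g ∘ β) = act g (part E β) := by
  ext e
  rw [mem_part]
  constructor
  · rintro ⟨h1, h2⟩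
    obtain ⟨f, hf, rfl⟩ := mem_act.1 h1
    exact comp_mem_act.2 (mem_part.2 ⟨hf, range_comp_subset_iff.1 h2⟩)
  · intro h
    obtain ⟨f, hf, rfl⟩ := mem_act.1 h
    obtain ⟨h1, h2⟩ := mem_part.1 hf
    exact ⟨comp_mem_act.2 h1, range_comp_subset_iff.2 h2⟩

lemma exp_act (h : Exp Pr B E) : Exp Pr (act g B) (act g E) := by
  constructor
  · intro β hβ
    obtain ⟨β', hβ', rfl⟩ := mem_act.1 hβ
    rw [part_act]
    exact ne_act (h.1 β' hβ')
  · intro e he
    obtain ⟨f, hf, rfl⟩ := mem_act.1 he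
    obtain ⟨β, hβ, h1⟩ := h.2 f hf
    exact ⟨g ∘ β, comp_mem_act.2 hβ, range_comp_subset_iff.2 h1⟩

/-- natural expansions of `{β}` -/
lemma exp_singleton : Exp Pr {β} E ↔ NE Pr β E := by
  constructor
  · intro h
    have h1 : part E β = E := by
      ext e
      rw [mem_part]
      refine ⟨fun h => h.1, fun he => ⟨he, ?_⟩⟩
      obtain ⟨γ, hγ, h2⟩ := h.2 e he
      rw [mem_singleton] at hγ
      rwa [hγ] at h2
    have := h.1 β (by simp)
    rwa [h1] at this
  · intro h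
    constructor
    · intro γ hγ
      rw [mem_singleton] at hγ
      subst hγ
      have h1 : part E γ = E := by
        ext e
        rw [mem_part]
        exact ⟨fun h => h.1, fun he => ⟨he, h.range_subset e he⟩⟩
      rw [h1]; exact h
    · intro e he
      exact ⟨β, by simp, h.range_subset e he⟩

/-- realisation of bijections between good sets by permutations of `ℤ` -/
lemma exists_real (hB : Good B) (hD : Good D) (σ : B ≃ D) :
    ∃ g : Equiv.Perm ℤ, ∀ b : B, g ∘ (b : ℤ → ℤ) = (σ b : ℤ → ℤ) := by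
  have hbij : ∀ {B : Finset (ℤ → ℤ)}, Good B →
      Bijective (fun t : B × ℤ => (t.1 : ℤ → ℤ) t.2) := by
    intro B hB
    constructor
    · rintro ⟨⟨β, hβ⟩, x⟩ ⟨⟨γ, hγ⟩, y⟩ h
      obtain ⟨rfl, h2⟩ := hB.eq hβ hγ h
      simp only at h2
      rw [h2]
    · intro z
      obtain ⟨β, hβ, x, hx⟩ := hB.ex z
      exact ⟨(⟨β, hβ⟩, x), hx⟩
  let e1 := Equiv.ofBijective _ (hbij hB)
  let e2 := Equiv.ofBijective _ (hbij hD)
  refine ⟨e1.symm.trans ((σ.prodCongr (Equiv.refl ℤ)).trans e2), fun b => ?_⟩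
  funext x
  have h1 : e1.symm ((b : ℤ → ℤ) x) = (b, x) := by
    rw [Equiv.symm_apply_eq]; rfl
  simp only [comp_apply, Equiv.trans_apply, h1]
  rfl

lemma exists_real' (hB : Good B) (hD : Good D) (hc : B.card = D.card) (hβ : β ∈ B) (hγ : γ ∈ D) :
    ∃ g : Equiv.Perm ℤ, act g B = D ∧ g ∘ β = γ := by
  have hcard : Fintype.card B = Fintype.card D := by simpa using hc
  let σ0 : B ≃ D := Fintype.equivOfCardEq hcard
  let σ : B ≃ D := σ0.trans (Equiv.swap (σ0 ⟨β, hβ⟩) ⟨γ, hγ⟩)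
  have hσ : σ ⟨β, hβ⟩ = ⟨γ, hγ⟩ := by simp [σ]
  obtain ⟨g, hg⟩ := exists_real hB hD σ
  refine ⟨g, ?_, by rw [hg ⟨β, hβ⟩, hσ]⟩
  apply eq_of_subset_of_card_le
  · intro e he
    obtain ⟨f, hf, rfl⟩ := mem_act.1 he
    rw [hg ⟨f, hf⟩]
    exact (σ ⟨f, hf⟩).2
  · rw [card_act, hc]

end Pool.Agent.CT
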