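import Pool.Agent.CT.Merge

set_option autoImplicit false

namespace Pool.Agent.CT

open Finset Function
open scoped Classical

variable {Pr : Finset ℕ} {B D E E' : Finset (ℤ → ℤ)} {β γ δ ε e : ℤ → ℤ} {p q r i j : ℕ}

/-! ### the grid -/

/-- split `β` by `p` and then the first `i` children by `q` -/
noncomputable def gs (B : Finset (ℤ → ℤ)) (β : ℤ → ℤ) (p q : ℕ) : ℕ → Finset (ℤ → ℤ)
  | 0 => split B β p
  | i + 1 => split (gs B β p q i) (ch β p i) q

lemma mem_gs (hB : Good B) (hβ : β ∈ B) (hp : 1 < p) : ∀ i, i ≤ p → ∀ e,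
    (e ∈ gs B β p q i ↔ (e ≠ β ∧ e ∈ B) ∨ (∃ j, i ≤ j ∧ j < p ∧ e = ch β p j) ∨
      (∃ j < i, e ∈ kids (ch β p j) q)) := by
  intro i
  induction i with
  | zero =>
    intro _ e
    simp only [gs, mem_split]
    constructor
    · rintro (h | h)
      · exact Or.inl h
      · obtain ⟨j, hj, rfl⟩ := mem_kids.1 h
        exact Or.inr (Or.inl ⟨j, Nat.zero_le _, hj, rfl⟩)
    · rintro (h | ⟨j, -, hj, rfl⟩ | ⟨j, hj, -⟩)
      · exact Or.inl h
      · exact Or.inr (ch_mem_kids hj)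
      · omega
  | succ i ih =>
    intro hi e
    have hinj := hB.inj hβ
    simp only [gs, mem_split]
    rw [ih (by omega) e]
    constructor
    · rintro (⟨h1, h2 | ⟨j, h2, h3, rfl⟩ | ⟨j, h2, h3⟩⟩ | h1)
      · exact Or.inl h2
      · refine Or.inr (Or.inl ⟨j, ?_, h3, rfl⟩)
        rcases Nat.eq_or_lt_of_le h2 with h4 | h4
        · subst h4; exact absurd rfl h1
        · exact h4
      · exact Or.inr (Or.inr ⟨j, by omega, h3⟩)
      · exact Or.inr (Or.inr ⟨i, by omega, h1⟩)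
    · rintro (h2 | ⟨j, h2, h3, rfl⟩ | ⟨j, h2, h3⟩)
      · refine Or.inl ⟨?_, Or.inl h2⟩
        rintro rfl
        exact Finset.disjoint_left.1 (kids_disj hB hβ hp) h2.2 (ch_mem_kids (by omega))
      · refine Or.inl ⟨?_, Or.inr (Or.inl ⟨j, by omega, h3, rfl⟩)⟩
        intro h
        have := (ch_ne hinj h3 (by omega) (congrFun h 0)).1
        omega
      · rcases Nat.lt_or_ge j i with h4 | h4
        · refine Or.inl ⟨?_, Or.inr (Or.inr ⟨j, h4, h3⟩)⟩
          rintro rfl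
          obtain ⟨k, hk, hk2⟩ := mem_kids.1 h3
          have := (ch_ne hinj (by omega) (by omega) (congrFun hk2 0)).1
          omega
        · have : j = i := by omega
          subst this
          exact Or.inr h3

lemma ch_mem_gs (hB : Good B) (hβ : β ∈ B) (hp : 1 < p) (hi : i < p) :
    ch β p i ∈ gs B β p q i :=
  (mem_gs hB hβ hp i hi.le _).2 (Or.inr (Or.inl ⟨i, le_rfl, hi, rfl⟩))

lemma bas_gs (hPr : ∀ p ∈ Pr, p.Prime) (hB : Bas Pr B) (hβ : β ∈ B) (hp : p ∈ Pr) (hq : q ∈ Pr) :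
    ∀ i, i ≤ p → Bas Pr (gs B β p q i) := by
  intro i
  induction i with
  | zero => intro _; exact hB.split hPr hβ hp
  | succ i ih =>
    intro hi
    exact (ih (by omega)).split hPr (ch_mem_gs hB.1 hβ (hPr p hp).one_lt (by omega)) hq

lemma good_gs (hB : Good B) (hβ : β ∈ B) (hp : 1 < p) (hq : 1 < q) :
    ∀ i, i ≤ p → Good (gs B β p q i) := by
  intro i
  induction i with
  | zero => intro _; exact good_split hB hβ (by omega)
  | succ i ih =>
    intro hi
    exact good_split (ih (by omega)) (ch_mem_gs hB hβ hp (by omega)) (by omega)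

lemma card_gs_succ (hB : Good B) (hβ : β ∈ B) (hp : 1 < p) (hq : 1 < q) (hi : i < p) :
    (gs B β p q (i + 1)).card + 1 = (gs B β p q i).card + q :=
  card_split (good_gs hB hβ hp hq i hi.le) (ch_mem_gs hB hβ hp hi) hq

lemma card_gs_mono (hB : Good B) (hβ : β ∈ B) (hp : 1 < p) (hq : 1 < q) :
    ∀ j, i ≤ j → j ≤ p → (gs B β p q i).card ≤ (gs B β p q j).card := by
  intro j hij
  induction j, hij using Nat.le_induction with
  | base => intro _; exact le_rfl
  | succ k hk ih =>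
    intro h
    have := card_gs_succ (q := q) hB hβ hp hq (i := k) (by omega)
    have := ih (by omega)
    omega

lemma card_gs_le (hB : Good B) (hβ : β ∈ B) (hp : 1 < p) (hq : 1 < q) (hi : i ≤ p) :
    (gs B β p q i).card ≤ (gs B β p q p).card := card_gs_mono hB hβ hp hq p hi le_rfl

lemma gs_end (hB : Good B) (hβ : β ∈ B) (hp : 1 < p) : gs B β p q p = split B β (p * q) := by
  ext e
  rw [mem_gs hB hβ hp p le_rfl, mem_split]
  constructor
  · rintro (h | ⟨j, h1, h2, -⟩ | ⟨j, h1, h2⟩)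
    · exact Or.inl h
    · omega
    · obtain ⟨i, hi, rfl⟩ := mem_kids.1 h2
      rw [ch_ch_eq' h1]
      refine Or.inr (ch_mem_kids ?_)
      calc j + p * i < p + p * i := by omega
        _ = p * (i + 1) := by ring
        _ ≤ p * q := Nat.mul_le_mul_left _ hi
  · rintro (h | h)
    · exact Or.inl h
    · obtain ⟨k, hk, rfl⟩ := mem_kids.1 h
      refine Or.inr (Or.inr ⟨k % p, Nat.mod_lt _ (by omega), ?_⟩)
      rw [← ch_ch_eq]
      exact ch_mem_kids (by rw [Nat.div_lt_iff_lt_mul (by omega), mul_comm]; exact hk)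

lemma mrg_gs (hB : Good B) (hPr : ∀ p ∈ Pr, 1 < p) (hβ : β ∈ B) (hp : 1 < p) (hq : 1 < q)
    (hm : IsM Pr B δ r) (hn : β ∉ kids δ r) : ∀ i, i ≤ p →
    IsM Pr (gs B β p q i) δ r ∧ gs (mrg B δ r) β p q i = mrg (gs B β p q i) δ r := by
  intro i
  induction i with
  | zero =>
    intro _
    exact ⟨hm.split_of hn, split_mrg_comm hB hPr hm hβ hn hp⟩
  | succ i ih =>
    intro hi
    obtain ⟨h1, h2⟩ := ih (by omega)
    have h3 : ch β p i ∉ kids δ r := fun h =>
      Finset.disjoint_left.1 (kids_disj hB hβ hp) (hm.sub h) (ch_mem_kids (by omega))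
    refine ⟨h1.split_of h3, ?_⟩
    simp only [gs]
    rw [h2]
    exact split_mrg_comm (good_gs hB hβ hp hq i (by omega)) hPr h1
      (ch_mem_gs hB hβ hp (by omega)) h3 hq

variable {H : Type} [Group H]

/-- product of `f` along the grid path -/
noncomputable def gp (f : Finset (ℤ → ℤ) → Finset (ℤ → ℤ) → H) (B : Finset (ℤ → ℤ))
    (β : ℤ → ℤ) (p q : ℕ) : ℕ → H
  | 0 => f B (split B β p)
  | i + 1 => gp f B β p q i * f (gs B β p q i) (gs B β p q (i + 1))

/-- cocycle conditions for expansions of size at most `N` -/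
structure CC (Pr : Finset ℕ) (N : ℕ) (f : Finset (ℤ → ℤ) → Finset (ℤ → ℤ) → H) : Prop where
  sq : ∀ (B : Finset (ℤ → ℤ)) (β γ : ℤ → ℤ) (p q : ℕ), Bas Pr B → β ∈ B → γ ∈ B → β ≠ γ →
    p ∈ Pr → q ∈ Pr → (split (split B β p) γ q).card ≤ N →
    f B (split B β p) * f (split B β p) (split (split B β p) γ q) =
      f B (split B γ q) * f (split B γ q) (split (split B β p) γ q)
  grid : ∀ (B : Finset (ℤ → ℤ)) (β : ℤ → ℤ) (p q : ℕ), Bas Pr B → β ∈ B → p ∈ Pr → q ∈ Pr →
    p ≠ q → (split B β (p * q)).card ≤ N → gp f B β p q p = gp f B β q p q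

/-- abstract coboundary lemma -/
lemma abstract_cob {V : Type} (P : V → Prop) (dis : V → V → Prop)
    (hsymm : ∀ x y, dis x y → dis y x) (a : V → V → H)
    (ha : ∀ x y z, P x → P y → P z → dis x y → dis y z → dis x z → a x y * a y z = a x z)
    (hinv : ∀ x y, P x → P y → dis x y → a y x = (a x y)⁻¹)
    (hfar : ∀ x y z w, P x → P y → P z → P w →
      ∃ c, P c ∧ dis x c ∧ dis y c ∧ dis z c ∧ dis w c) :
    ∃ g : V → H, ∀ x y, P x → P y → dis x y → a x y = g x * (g y)⁻¹ := by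
  by_cases hne : ∃ m, P m
  · obtain ⟨m, hm⟩ := hne
    have h1 : ∀ x, P x → ∃ c, P c ∧ dis x c ∧ dis m c := by
      intro x hx
      obtain ⟨c, h1, h2, h3, -⟩ := hfar x m m m hx hm hm hm
      exact ⟨c, h1, h2, h3⟩
    choose! c hc1 hc2 hc3 using h1
    have key : ∀ x d, P x → P d → dis x d → dis m d →
        a x (c x) * a (c x) m = a x d * a d m := by
      intro x d hx hd h1 h2
      obtain ⟨e, h3, h4, h5, h6, h7⟩ := hfar x m (c x) d hx hm (hc1 x hx) hd
      have e1 := ha x (c x) e hx (hc1 x hx) h3 (hc2 x hx) h6 h4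
      have e2 := ha (c x) e m (hc1 x hx) h3 hm h6 (hsymm _ _ h5) (hsymm _ _ (hc3 x hx))
      have e3 := ha x d e hx hd h3 h1 h7 h4
      have e4 := ha d e m hd h3 hm h7 (hsymm _ _ h5) (hsymm _ _ h2)
      have s1 : a x (c x) * a (c x) m = a x e * a e m := by
        rw [← e1, ← e2, mul_assoc]
      have s2 : a x d * a d m = a x e * a e m := by
        rw [← e3, ← e4, mul_assoc]
      rw [s1, s2]
    refine ⟨fun x => a x (c x) * a (c x) m, ?_⟩
    intro x y hx hy hxy
    obtain ⟨d, h1, h2, h3, h4, -⟩ := hfar x y m m hx hy hm hm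
    simp only
    rw [key x d hx h1 h2 h4, key y d hy h1 h3 h4]
    have e1 := ha x d y hx h1 hy h2 (hsymm _ _ h3) hxy
    have i1 := hinv y d hy h1 h3
    rw [← e1, i1]
    group
  · refine ⟨fun _ => 1, fun x y hx => absurd ⟨x, hx⟩ hne⟩

lemma CC.sq_mrg (hPr : ∀ p ∈ Pr, 1 < p) {N : ℕ} {f : Finset (ℤ → ℤ) → Finset (ℤ → ℤ) → H}
    (hf : CC Pr N f) (hE : Bas Pr E) (hc : E.card ≤ N) (m1 : IsM Pr E β p) (m2 : IsM Pr E γ q)
    (hd : Disjoint (kids β p) (kids γ q)) :
    f (mrg (mrg E β p) γ q) (mrg E β p) * f (mrg E β p) E =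
      f (mrg (mrg E β p) γ q) (mrg E γ q) * f (mrg E γ q) E := by
  have m3 : IsM Pr (mrg E β p) γ q := m2.mrg_of_disj hd
  have m4 : IsM Pr (mrg E γ q) β p := m1.mrg_of_disj hd.symm
  have b1 := m1.bas hE hPr
  have b3 := m3.bas b1 hPr
  have b2 := m2.bas hE hPr
  have s1 : split (mrg (mrg E β p) γ q) γ q = mrg E β p := m3.split_mrg b1.1 hPr
  have s2 : split (mrg (mrg E β p) γ q) β p = mrg E γ q := by
    rw [mrg_comm hE.1 hPr m1 m2]; exact m4.split_mrg b2.1 hPr
  have s3 : split (mrg E β p) β p = E := m1.split_mrg hE.1 hPr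
  have hne : γ ≠ β := by
    rintro rfl
    have : γ ∈ mrg (mrg E γ p) γ q := IsM.mem _ _ _
    have h1 := m3.not_mem b1.1 hPr
    exact h1 (IsM.mem _ _ _)
  have hβ : β ∈ mrg (mrg E β p) γ q := by
    rw [mrg_comm hE.1 hPr m1 m2]; exact IsM.mem _ _ _
  have := hf.sq (mrg (mrg E β p) γ q) γ β q p b3 (IsM.mem _ _ _) hβ hne m2.hp m1.hp
    (by rw [s1, s3]; exact hc)
  rw [s1, s2, s3] at this
  exact this

end Pool.Agent.CT
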