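import Mathlib

set_option autoImplicit false

/-!
Combinatorics of bases: finite sets of functions `ℤ → ℤ` which partition `ℤ`
(generalised residue classes), and their natural expansions.
Used for the finite presentability of the groups `CT_P(ℤ)` (MP_02e21a_al).
-/

namespace Pool.Agent.CT

open Finset Function
open scoped Classical

/-- the `j`-th child of the cell `β` (restriction of `β` to the residue class `j mod p`) -/
def ch (β : ℤ → ℤ) (p j : ℕ) : ℤ → ℤ := fun x => β (j + p * x)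

/-- all children of `β` -/
noncomputable def kids (β : ℤ → ℤ) (p : ℕ) : Finset (ℤ → ℤ) := (range p).image (ch β p)

/-- replace `β` by its `p` children -/
noncomputable def split (B : Finset (ℤ → ℤ)) (β : ℤ → ℤ) (p : ℕ) : Finset (ℤ → ℤ) :=
  B.erase β ∪ kids β p

/-- `B` is a partition of `ℤ` into injectively parametrised pieces -/
def Good (B : Finset (ℤ → ℤ)) : Prop := ∀ z : ℤ, ∃! q : (ℤ → ℤ) × ℤ, q.1 ∈ B ∧ q.1 q.2 = z

/-- natural expansions of a cell -/
inductive NE (Pr : Finset ℕ) : (ℤ → ℤ) → Finset (ℤ → ℤ) → Prop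
  | leaf (β : ℤ → ℤ) : NE Pr β {β}
  | node (β : ℤ → ℤ) (p : ℕ) (hp : p ∈ Pr) (T : ℕ → Finset (ℤ → ℤ))
      (h : ∀ j, j < p → NE Pr (ch β p j) (T j)) : NE Pr β ((range p).biUnion T)

/-- the elements of `E` inside the cell `β` -/
noncomputable def part (E : Finset (ℤ → ℤ)) (β : ℤ → ℤ) : Finset (ℤ → ℤ) :=
  E.filter (fun e => Set.range e ⊆ Set.range β)

/-- `E` is a natural expansion of `B` -/
def Exp (Pr : Finset ℕ) (B E : Finset (ℤ → ℤ)) : Prop :=
  (∀ β ∈ B, NE Pr β (part E β)) ∧ ∀ e ∈ E, ∃ β ∈ B, Set.range e ⊆ Set.range β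

/-- bases: good sets having a common natural expansion with `{id}` -/
def Bas (Pr : Finset ℕ) (B : Finset (ℤ → ℤ)) : Prop :=
  Good B ∧ ∃ E, Exp Pr B E ∧ Exp Pr {id} E

variable {Pr : Finset ℕ} {B E E' : Finset (ℤ → ℤ)} {β γ e : ℤ → ℤ} {p q i j : ℕ}

lemma mem_kids : e ∈ kids β p ↔ ∃ j < p, ch β p j = e := by
  simp [kids]

lemma ch_mem_kids (h : j < p) : ch β p j ∈ kids β p := mem_kids.2 ⟨j, h, rfl⟩

lemma mem_split : e ∈ split B β p ↔ (e ≠ β ∧ e ∈ B) ∨ e ∈ kids β p := by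
  simp [split]

lemma mem_part : e ∈ part E β ↔ e ∈ E ∧ Set.range e ⊆ Set.range β := by
  simp [part]

lemma Good.eq (h : Good B) (hβ : β ∈ B) (hγ : γ ∈ B) {x y : ℤ} (e : β x = γ y) :
    β = γ ∧ x = y := by
  have := (h (γ y)).unique (y₁ := (β, x)) (y₂ := (γ, y)) ⟨hβ, e⟩ ⟨hγ, rfl⟩
  simpa using this

lemma Good.inj (h : Good B) (hβ : β ∈ B) : Injective β := fun _ _ e => (h.eq hβ hβ e).2

lemma Good.ex (h : Good B) (z : ℤ) : ∃ β ∈ B, ∃ x, β x = z := by
  obtain ⟨⟨β, x⟩, ⟨h1, h2⟩, -⟩ := h z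
  exact ⟨β, h1, x, h2⟩

lemma Good.mk' (h1 : ∀ z, ∃ β ∈ B, ∃ x, β x = z)
    (h2 : ∀ β ∈ B, ∀ γ ∈ B, ∀ x y : ℤ, β x = γ y → β = γ ∧ x = y) : Good B := by
  intro z
  obtain ⟨β, hβ, x, hx⟩ := h1 z
  refine ⟨(β, x), ⟨hβ, hx⟩, ?_⟩
  rintro ⟨γ, y⟩ ⟨hγ, hy⟩
  have := h2 γ hγ β hβ y x (by rw [hx]; exact hy)
  simp [this.1, this.2]

lemma ch_ch : ch (ch β p j) q i = fun x => β (j + p * (i + q * x)) := rfl

lemma ch_inj (hp : 0 < p) (hβ : Injective β) : Injective (ch β p j) := by
  intro x y h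
  have := hβ h
  have hp' : (p : ℤ) ≠ 0 := by exact_mod_cast hp.ne'
  have h2 : (p : ℤ) * x = p * y := by linarith
  exact mul_left_cancel₀ hp' h2

lemma residue_unique (hi : i < p) (hj : j < p) {x y : ℤ} (h : (i : ℤ) + p * x = j + p * y) :
    i = j ∧ x = y := by
  have hp : (0 : ℤ) < p := by exact_mod_cast (lt_of_le_of_lt (Nat.zero_le _) hi)
  have h1 : ((i : ℤ) + p * x) % p = i := by
    rw [Int.add_mul_emod_self_left]; exact Int.emod_eq_of_lt (by positivity) (by exact_mod_cast hi)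
  have h2 : ((j : ℤ) + p * y) % p = j := by
    rw [Int.add_mul_emod_self_left]; exact Int.emod_eq_of_lt (by positivity) (by exact_mod_cast hj)
  have h3 : (i : ℤ) = j := by rw [← h1, ← h2, h]
  refine ⟨by exact_mod_cast h3, ?_⟩
  rw [h3] at h
  have : (p : ℤ) * x = p * y := by linarith
  exact mul_left_cancel₀ hp.ne' this

lemma ch_ne (hβ : Injective β) (hi : i < p) (hj : j < p) {x y : ℤ}
    (h : ch β p i x = ch β p j y) : i = j ∧ x = y :=
  residue_unique hi hj (hβ h)

lemma range_ch_subset : Set.range (ch β p j) ⊆ Set.range β := by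
  rintro _ ⟨x, rfl⟩
  exact ⟨j + p * x, rfl⟩

lemma exists_ch (hp : 0 < p) (x : ℤ) : ∃ j < p, ∃ y, ch β p j y = β x := by
  have hp' : (0 : ℤ) < p := by exact_mod_cast hp
  refine ⟨(x % p).toNat, ?_, x / p, ?_⟩
  · have := Int.emod_lt_of_pos x hp'
    have h2 := Int.emod_nonneg x hp'.ne'
    omega
  · have h2 := Int.emod_nonneg x hp'.ne'
    have : (((x % p).toNat : ℕ) : ℤ) = x % p := Int.toNat_of_nonneg h2
    simp only [ch, this]
    rw [Int.emod_add_mul_ediv]

lemma ch_ne_self (hp : 1 < p) (hβ : Injective β) : ch β p j ≠ β := by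
  intro h
  have h0 := hβ (congrFun h 0)
  have h1 := hβ (congrFun h 1)
  have : (p : ℤ) = 1 := by linarith
  have : p = 1 := by exact_mod_cast this
  omega

lemma self_not_mem_kids (hp : 1 < p) (hβ : Injective β) : β ∉ kids β p := by
  intro h
  obtain ⟨j, -, h⟩ := mem_kids.1 h
  exact ch_ne_self hp hβ h

lemma card_kids (hβ : Injective β) : (kids β p).card = p := by
  rw [kids, card_image_of_injOn, card_range]
  intro i hi j hj h
  simp only [coe_range, Set.mem_Iio] at hi hj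
  exact (ch_ne hβ hi hj (congrFun h 0)).1

/-- children of `β ∈ B` are not in `B` -/
lemma kids_disj (h : Good B) (hβ : β ∈ B) (hp : 1 < p) : Disjoint B (kids β p) := by
  rw [Finset.disjoint_left]
  intro e he hk
  obtain ⟨j, hj, rfl⟩ := mem_kids.1 hk
  have := (h.eq he hβ (x := 0) (y := j) (by simp [ch])).1
  exact ch_ne_self hp (h.inj hβ) this

lemma card_split (h : Good B) (hβ : β ∈ B) (hp : 1 < p) :
    (split B β p).card + 1 = B.card + p := by
  rw [split, card_union_of_disjoint, card_kids (h.inj hβ), card_erase_of_mem hβ]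
  · have : 0 < B.card := card_pos.2 ⟨β, hβ⟩
    omega
  · exact (kids_disj h hβ hp).mono_left (erase_subset _ _)

lemma good_split (h : Good B) (hβ : β ∈ B) (hp : 0 < p) : Good (split B β p) := by
  have hinj := h.inj hβ
  apply Good.mk'
  · intro z
    obtain ⟨γ, hγ, x, hx⟩ := h.ex z
    by_cases hc : γ = β
    · subst hc
      obtain ⟨j, hj, y, hy⟩ := exists_ch (β := γ) hp x
      exact ⟨_, mem_split.2 (Or.inr (ch_mem_kids hj)), y, by rw [hy, hx]⟩
    · exact ⟨γ, mem_split.2 (Or.inl ⟨hc, hγ⟩), x, hx⟩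
  · intro e he f hf x y hxy
    rcases mem_split.1 he with ⟨he1, he2⟩ | he
    · rcases mem_split.1 hf with ⟨hf1, hf2⟩ | hf
      · exact h.eq he2 hf2 hxy
      · obtain ⟨j, hj, rfl⟩ := mem_kids.1 hf
        exact absurd (h.eq he2 hβ hxy).1 he1
    · obtain ⟨i, hi, rfl⟩ := mem_kids.1 he
      rcases mem_split.1 hf with ⟨hf1, hf2⟩ | hf
      · exact absurd (h.eq hβ hf2 hxy).1.symm hf1
      · obtain ⟨j, hj, rfl⟩ := mem_kids.1 hf
        have := ch_ne hinj hi hj hxy
        rw [this.1]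
        exact ⟨rfl, this.2⟩

lemma good_id : Good {id} := by
  apply Good.mk'
  · intro z; exact ⟨id, by simp, z, rfl⟩
  · intro β hβ γ hγ x y h
    simp only [mem_singleton] at hβ hγ
    subst hβ; subst hγ
    exact ⟨rfl, h⟩

/-! ### natural expansions -/

/-- every element of a natural expansion of `β` is `β` composed with an affine map -/
lemma NE.affine (h : NE Pr β E) : ∀ e ∈ E, ∃ r m : ℤ, ∀ x, e x = β (r + m * x) := by
  induction h with
  | leaf β => intro e he; simp only [mem_singleton] at he; subst he; exact ⟨0, 1, by simp⟩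
  | node β p hp T h ih =>
    intro e he
    simp only [mem_biUnion, mem_range] at he
    obtain ⟨j, hj, he⟩ := he
    obtain ⟨r, m, hrm⟩ := ih j hj e he
    refine ⟨j + p * r, p * m, fun x => ?_⟩
    rw [hrm]; simp only [ch]; congr 1; ring

lemma NE.range_subset (h : NE Pr β E) : ∀ e ∈ E, Set.range e ⊆ Set.range β := by
  intro e he
  obtain ⟨r, m, hrm⟩ := h.affine e he
  rintro _ ⟨x, rfl⟩
  exact ⟨_, (hrm x).symm⟩

lemma NE.nonempty (hPr : ∀ p ∈ Pr, 1 < p) (h : NE Pr β E) : E.Nonempty := by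
  induction h with
  | leaf β => simp
  | node β p hp T h ih =>
    have h1 := hPr p hp
    obtain ⟨e, he⟩ := ih 0 (by omega)
    exact ⟨e, by simp only [mem_biUnion, mem_range]; exact ⟨0, by omega, he⟩⟩

/-- the elements of a natural expansion cover `β` disjointly -/
lemma NE.cover (hPr : ∀ p ∈ Pr, 1 < p) (h : NE Pr β E) : ∀ x, ∃ e ∈ E, ∃ y, e y = β x := by
  induction h with
  | leaf β => intro x; exact ⟨β, by simp, x, rfl⟩
  | node β p hp T h ih =>
    intro x
    have h1 := hPr p hp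
    obtain ⟨j, hj, y, hy⟩ := exists_ch (β := β) (p := p) (by omega) x
    obtain ⟨e, he, w, hw⟩ := ih j hj y
    exact ⟨e, by simp only [mem_biUnion, mem_range]; exact ⟨j, hj, he⟩, w, by rw [hw, hy]⟩

lemma NE.disj (hPr : ∀ p ∈ Pr, 1 < p) (h : NE Pr β E) (hβ : Injective β) :
    ∀ e ∈ E, ∀ f ∈ E, ∀ x y : ℤ, e x = f y → e = f ∧ x = y := by
  induction h with
  | leaf β =>
    intro e he f hf x y hxy
    simp only [mem_singleton] at he hf
    subst he; subst hf
    exact ⟨rfl, hβ hxy⟩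
  | node β p hp T h ih =>
    intro e he f hf x y hxy
    have h1 := hPr p hp
    simp only [mem_biUnion, mem_range] at he hf
    obtain ⟨i, hi, he⟩ := he
    obtain ⟨j, hj, hf⟩ := hf
    obtain ⟨u, hu⟩ := (h i hi).range_subset e he ⟨x, rfl⟩
    obtain ⟨v, hv⟩ := (h j hj).range_subset f hf ⟨y, rfl⟩
    have := (ch_ne hβ hi hj (hu.trans (hxy.trans hv.symm))).1
    subst this
    exact ih i hi (ch_inj (by omega) hβ) e he f hf x y hxy

lemma NE.trans (h : NE Pr β E) : ∀ S : (ℤ → ℤ) → Finset (ℤ → ℤ), (∀ e ∈ E, NE Pr e (S e)) →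
    NE Pr β (E.biUnion S) := by
  induction h with
  | leaf β => intro S hS; simpa using hS β (by simp)
  | node β p hp T h ih =>
    intro S hS
    rw [biUnion_biUnion]
    refine NE.node β p hp _ (fun j hj => ih j hj S (fun e he => hS e ?_))
    simp only [mem_biUnion, mem_range]
    exact ⟨j, hj, he⟩

lemma NE.kids (hp : p ∈ Pr) : NE Pr β (kids β p) := by
  have := NE.node β p hp (fun j => {ch β p j}) (fun j _ => NE.leaf _)
  rwa [biUnion_singleton] at this

/-- post-composition -/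
lemma NE.image (h : NE Pr β E) (g : ℤ → ℤ) : NE Pr (g ∘ β) (E.image (g ∘ ·)) := by
  induction h with
  | leaf β => simpa using NE.leaf (g ∘ β)
  | node β p hp T h ih =>
    rw [biUnion_image]
    exact NE.node (g ∘ β) p hp _ (fun j hj => ih j hj)

end Pool.Agent.CT
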