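import Pool.Agent.CT.Defs

set_option autoImplicit false

namespace Pool.Agent.CT

open Finset Function
open scoped Classical

variable {Pr : Finset ℕ} {B E E' : Finset (ℤ → ℤ)} {β γ e : ℤ → ℤ} {p q i j : ℕ}

lemma part_child (hβ : Injective β) {T : ℕ → Finset (ℤ → ℤ)}
    (hT : ∀ j < p, NE Pr (ch β p j) (T j)) (hE : part E β = (range p).biUnion T) (hj : j < p) :
    part E (ch β p j) = T j := by
  ext e
  rw [mem_part]
  constructor
  · rintro ⟨he, hr⟩
    have h1 : e ∈ part E β := mem_part.2 ⟨he, hr.trans range_ch_subset⟩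
    rw [hE] at h1
    simp only [mem_biUnion, mem_range] at h1
    obtain ⟨i, hi, hei⟩ := h1
    obtain ⟨y, hy⟩ := (hT i hi).range_subset e hei ⟨0, rfl⟩
    obtain ⟨z, hz⟩ := hr ⟨0, rfl⟩
    have := (ch_ne hβ hi hj (hy.trans hz.symm)).1
    subst this; exact hei
  · intro he
    have h1 : e ∈ part E β := by
      rw [hE]; simp only [mem_biUnion, mem_range]; exact ⟨j, hj, he⟩
    exact ⟨(mem_part.1 h1).1, (hT j hj).range_subset e he⟩

lemma part_self (h : Good B) (hβ : β ∈ B) : part B β = {β} := by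
  ext e
  rw [mem_part, mem_singleton]
  constructor
  · rintro ⟨he, hr⟩
    obtain ⟨y, hy⟩ := hr ⟨0, rfl⟩
    exact (h.eq hβ he hy).1.symm
  · rintro rfl
    exact ⟨hβ, subset_rfl⟩

lemma Exp.refl (h : Good B) : Exp Pr B B :=
  ⟨fun β hβ => by rw [part_self h hβ]; exact NE.leaf β, fun e he => ⟨e, he, subset_rfl⟩⟩

lemma Exp.good (hPr : ∀ p ∈ Pr, 1 < p) (hB : Good B) (h : Exp Pr B E) : Good E := by
  apply Good.mk'
  · intro z
    obtain ⟨β, hβ, x, hx⟩ := hB.ex z
    obtain ⟨e, he, y, hy⟩ := (h.1 β hβ).cover hPr x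
    exact ⟨e, (mem_part.1 he).1, y, by rw [hy, hx]⟩
  · intro e he f hf x y hxy
    obtain ⟨β, hβ, h1⟩ := h.2 e he
    obtain ⟨γ, hγ, h2⟩ := h.2 f hf
    obtain ⟨u, hu⟩ := h1 ⟨x, rfl⟩
    obtain ⟨v, hv⟩ := h2 ⟨y, rfl⟩
    have := (hB.eq hβ hγ (hu.trans (hxy.trans hv.symm))).1
    subst this
    exact (h.1 β hβ).disj hPr (hB.inj hβ) e (mem_part.2 ⟨he, h1⟩) f (mem_part.2 ⟨hf, h2⟩) x y hxy

/-- if `e ∈ E` meets the range of `β ∈ B` then it is contained in it -/
lemma Exp.mem_part_of (hB : Good B) (h : Exp Pr B E) (hβ : β ∈ B) (he : e ∈ E) {x y : ℤ}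
    (hxy : e x = β y) : e ∈ part E β := by
  obtain ⟨γ, hγ, h1⟩ := h.2 e he
  obtain ⟨u, hu⟩ := h1 ⟨x, rfl⟩
  have := (hB.eq hγ hβ (hu.trans hxy)).1
  subst this
  exact mem_part.2 ⟨he, h1⟩

lemma Exp.trans (hB : Good B) (h1 : Exp Pr B E) (h2 : Exp Pr E E') : Exp Pr B E' := by
  constructor
  · intro β hβ
    have h3 : part E' β = (part E β).biUnion (part E') := by
      ext e
      simp only [mem_biUnion]
      constructor
      · intro he
        obtain ⟨he1, he2⟩ := mem_part.1 he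
        obtain ⟨f, hf, hf1⟩ := h2.2 e he1
        refine ⟨f, ?_, mem_part.2 ⟨he1, hf1⟩⟩
        obtain ⟨u, hu⟩ := hf1 ⟨0, rfl⟩
        obtain ⟨v, hv⟩ := he2 ⟨0, rfl⟩
        exact h1.mem_part_of hB hβ hf (hu.trans hv.symm)
      · rintro ⟨f, hf, hef⟩
        obtain ⟨hf1, hf2⟩ := mem_part.1 hf
        obtain ⟨he1, he2⟩ := mem_part.1 hef
        exact mem_part.2 ⟨he1, he2.trans hf2⟩
    rw [h3]
    exact (h1.1 β hβ).trans _ (fun e he => h2.1 e (mem_part.1 he).1)
  · intro e he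
    obtain ⟨f, hf, h3⟩ := h2.2 e he
    obtain ⟨β, hβ, h4⟩ := h1.2 f hf
    exact ⟨β, hβ, h3.trans h4⟩

lemma part_split_self (hB : Good B) (hβ : β ∈ B) : part (split B β p) β = kids β p := by
  ext e
  rw [mem_part, mem_split]
  constructor
  · rintro ⟨h1 | h1, h2⟩
    · obtain ⟨u, hu⟩ := h2 ⟨0, rfl⟩
      exact absurd (hB.eq hβ h1.2 hu).1.symm h1.1
    · exact h1
  · intro h
    refine ⟨Or.inr h, ?_⟩
    obtain ⟨j, -, rfl⟩ := mem_kids.1 h
    exact range_ch_subset

lemma part_split_ne (hB : Good B) (hβ : β ∈ B) (hγ : γ ∈ B) (hne : γ ≠ β) :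
    part (split B β p) γ = {γ} := by
  ext e
  rw [mem_part, mem_split, mem_singleton]
  constructor
  · rintro ⟨h1 | h1, h2⟩
    · obtain ⟨u, hu⟩ := h2 ⟨0, rfl⟩
      exact (hB.eq hγ h1.2 hu).1.symm
    · obtain ⟨j, -, rfl⟩ := mem_kids.1 h1
      obtain ⟨u, hu⟩ := h2 ⟨0, rfl⟩
      exact absurd (hB.eq hγ hβ hu).1 hne
  · rintro rfl
    exact ⟨Or.inl ⟨hne, hγ⟩, subset_rfl⟩

lemma Exp.split (hB : Good B) (hβ : β ∈ B) (hp : p ∈ Pr) : Exp Pr B (split B β p) := by
  constructor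
  · intro γ hγ
    by_cases h : γ = β
    · subst h; rw [part_split_self hB hβ]; exact NE.kids hp
    · rw [part_split_ne hB hβ hγ h]; exact NE.leaf γ
  · intro e he
    rcases mem_split.1 he with h | h
    · exact ⟨e, h.2, subset_rfl⟩
    · obtain ⟨j, -, rfl⟩ := mem_kids.1 h
      exact ⟨β, hβ, range_ch_subset⟩

lemma Exp.card_le (hPr : ∀ p ∈ Pr, 1 < p) (hB : Good B) (h : Exp Pr B E) : B.card ≤ E.card := by
  have h1 : ∀ β ∈ B, ∃ e, e ∈ part E β := fun β hβ => (h.1 β hβ).nonempty hPr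
  choose! c hc using h1
  apply card_le_card_of_injOn c
  · intro β hβ; exact (mem_part.1 (hc β hβ)).1
  · intro β hβ γ hγ hcc
    obtain ⟨u, hu⟩ := (mem_part.1 (hc β hβ)).2 ⟨0, rfl⟩
    obtain ⟨v, hv⟩ := (mem_part.1 (hc γ hγ)).2 ⟨0, rfl⟩
    exact (hB.eq hβ hγ (hu.trans ((by rw [hcc] : c β 0 = c γ 0).trans hv.symm))).1

lemma Exp.of_kids (hB : Good B) (hβ : β ∈ B) (h : Exp Pr B E) {T : ℕ → Finset (ℤ → ℤ)}
    (hT : ∀ j < p, NE Pr (ch β p j) (T j)) (hE : part E β = (range p).biUnion T) :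
    Exp Pr (Pool.Agent.CT.split B β p) E := by
  constructor
  · intro γ hγ
    rcases mem_split.1 hγ with h1 | h1
    · exact h.1 γ h1.2
    · obtain ⟨j, hj, rfl⟩ := mem_kids.1 h1
      rw [part_child (hB.inj hβ) hT hE hj]
      exact hT j hj
  · intro e he
    obtain ⟨γ, hγ, h1⟩ := h.2 e he
    by_cases h2 : γ = β
    · subst h2
      have h3 : e ∈ part E γ := mem_part.2 ⟨he, h1⟩
      rw [hE] at h3
      simp only [mem_biUnion, mem_range] at h3
      obtain ⟨j, hj, h3⟩ := h3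
      exact ⟨_, mem_split.2 (Or.inr (ch_mem_kids hj)), (hT j hj).range_subset e h3⟩
    · exact ⟨γ, mem_split.2 (Or.inl ⟨h2, hγ⟩), h1⟩

lemma Exp.first_step (hB : Good B) (h : Exp Pr B E) (hne : B ≠ E) :
    ∃ β ∈ B, ∃ p ∈ Pr, Exp Pr (Pool.Agent.CT.split B β p) E := by
  have h1 : ∃ β ∈ B, part E β ≠ {β} := by
    by_contra hcon
    push Not at hcon
    apply hne
    ext e
    constructor
    · intro he
      have : e ∈ part E e := by rw [hcon e he]; simp
      exact (mem_part.1 this).1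
    · intro he
      obtain ⟨β, hβ, h1⟩ := h.2 e he
      have : e ∈ part E β := mem_part.2 ⟨he, h1⟩
      rw [hcon β hβ, mem_singleton] at this
      rwa [this]
  obtain ⟨β, hβ, h2⟩ := h1
  generalize hP : part E β = P at h2
  have h3 := h.1 β hβ
  rw [hP] at h3
  cases h3 with
  | leaf => exact absurd rfl h2
  | node _ p hp T hT => exact ⟨β, hβ, p, hp, h.of_kids hB hβ hT hP⟩

/-- `e` is, relative to `β`, a class whose modulus is divisible by `q` -/
def Dv (β : ℤ → ℤ) (q : ℕ) (e : ℤ → ℤ) : Prop := ∃ r k : ℤ, ∀ x, e x = β (r + q * k * x)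

lemma Dv.of_ch (hPr : ∀ p ∈ Pr, p.Prime) (hp : p ∈ Pr) (hq : q ∈ Pr) (hne : p ≠ q)
    (hβ : Injective β) (h : Dv β q e) {r' m' : ℤ} (h' : ∀ x, e x = ch β p j (r' + m' * x)) :
    Dv (ch β p j) q e := by
  obtain ⟨r, k, hk⟩ := h
  have h0 : ∀ x, (j : ℤ) + p * (r' + m' * x) = r + q * k * x := fun x =>
    hβ (by rw [← hk, h']; rfl)
  have h1 : (p : ℤ) * m' = q * k := by
    have a := h0 0
    have b := h0 1
    linarith
  have h2 : (q : ℤ) ∣ m' := by
    have hco : IsCoprime (q : ℤ) (p : ℤ) :=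
      Nat.isCoprime_iff_coprime.2 ((Nat.coprime_primes (hPr q hq) (hPr p hp)).2 hne.symm)
    exact hco.dvd_of_dvd_mul_left (Dvd.intro k h1.symm)
  obtain ⟨k', hk'⟩ := h2
  exact ⟨r', k', fun x => by rw [h', hk']⟩

lemma NE.reroot (hPr : ∀ p ∈ Pr, p.Prime) (hq : q ∈ Pr) (h : NE Pr β E) :
    Injective β → (∀ e ∈ E, Dv β q e) →
    ∃ T : ℕ → Finset (ℤ → ℤ), E = (range q).biUnion T ∧ ∀ i < q, NE Pr (ch β q i) (T i) := by
  induction h with
  | leaf β =>
    intro hβ hD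
    exfalso
    obtain ⟨r, k, hk⟩ := hD β (by simp)
    have a := hβ (hk 0)
    have b := hβ (hk 1)
    have h1 : (q : ℤ) * k = 1 := by linarith
    have h2 : (q : ℤ) ∣ 1 := Dvd.intro k h1
    have h3 : q ∣ 1 := by exact_mod_cast h2
    exact (hPr q hq).one_lt.ne' (Nat.dvd_one.1 h3)
  | node β p hp T h ih =>
    intro hβ hD
    by_cases hpq : p = q
    · subst hpq; exact ⟨T, rfl, h⟩
    have hp0 : 0 < p := (hPr p hp).pos
    have hq0 : 0 < q := (hPr q hq).pos
    have key : ∀ j < p, ∃ U : ℕ → Finset (ℤ → ℤ), T j = (range q).biUnion U ∧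
        ∀ i < q, NE Pr (ch (ch β p j) q i) (U i) := by
      intro j hj
      apply ih j hj (ch_inj hp0 hβ)
      intro e he
      obtain ⟨r', m', h'⟩ := (h j hj).affine e he
      refine (hD e ?_).of_ch hPr hp hq hpq hβ h'
      simp only [mem_biUnion, mem_range]; exact ⟨j, hj, he⟩
    choose! U hU1 hU2 using key
    refine ⟨fun i' => (range p).biUnion (fun j' => U ((i' + q * j') % p) ((i' + q * j') / p)),
      ?_, ?_⟩
    · ext e
      simp only [mem_biUnion, mem_range]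
      constructor
      · rintro ⟨j, hj, he⟩
        rw [hU1 j hj] at he
        simp only [mem_biUnion, mem_range] at he
        obtain ⟨i, hi, he⟩ := he
        have hk : j + p * i < p * q := by
          calc j + p * i < p + p * i := by omega
            _ = p * (i + 1) := by ring
            _ ≤ p * q := Nat.mul_le_mul_left _ hi
        refine ⟨(j + p * i) % q, Nat.mod_lt _ hq0, (j + p * i) / q, ?_, ?_⟩
        · rw [Nat.div_lt_iff_lt_mul hq0]; exact hk
        · rw [Nat.mod_add_div]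
          have e1 : (j + p * i) % p = j := by
            rw [Nat.add_mul_mod_self_left, Nat.mod_eq_of_lt hj]
          have e2 : (j + p * i) / p = i := by
            rw [Nat.add_mul_div_left _ _ hp0, Nat.div_eq_of_lt hj, zero_add]
          rw [e1, e2]; exact he
      · rintro ⟨i', hi', j', hj', he⟩
        have hk : i' + q * j' < q * p := by
          calc i' + q * j' < q + q * j' := by omega
            _ = q * (j' + 1) := by ring
            _ ≤ q * p := Nat.mul_le_mul_left _ hj'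
        have h1 : (i' + q * j') % p < p := Nat.mod_lt _ hp0
        refine ⟨_, h1, ?_⟩
        rw [hU1 _ h1]
        simp only [mem_biUnion, mem_range]
        refine ⟨_, ?_, he⟩
        rw [Nat.div_lt_iff_lt_mul hp0]; exact hk
    · intro i' hi'
      apply NE.node _ p hp
      intro j' hj'
      have hk : i' + q * j' < q * p := by
        calc i' + q * j' < q + q * j' := by omega
          _ = q * (j' + 1) := by ring
          _ ≤ q * p := Nat.mul_le_mul_left _ hj'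
      have h1 : (i' + q * j') % p < p := Nat.mod_lt _ hp0
      have h2 : (i' + q * j') / p < q := by rw [Nat.div_lt_iff_lt_mul hp0]; exact hk
      have h3 := hU2 _ h1 _ h2
      have h4 : ch (ch β p ((i' + q * j') % p)) q ((i' + q * j') / p) = ch (ch β q i') p j' := by
        funext x
        simp only [ch]
        congr 1
        have : ((i' + q * j' : ℕ) : ℤ) = (((i' + q * j') % p : ℕ) : ℤ) + p * (((i' + q * j') / p : ℕ) : ℤ) := by
          exact_mod_cast (Nat.mod_add_div _ _).symm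
        push_cast at this ⊢
        linear_combination -this
      rw [h4] at h3
      exact h3

/-- split every element of `E` by `p` -/
noncomputable def unif (E : Finset (ℤ → ℤ)) (p : ℕ) : Finset (ℤ → ℤ) := E.biUnion (kids · p)

lemma part_unif (hE : Good E) (he : e ∈ E) : part (unif E p) e = kids e p := by
  ext f
  rw [mem_part]
  simp only [unif, mem_biUnion]
  constructor
  · rintro ⟨⟨g, hg, hf⟩, h2⟩
    obtain ⟨j, hj, rfl⟩ := mem_kids.1 hf
    obtain ⟨u, hu⟩ := h2 ⟨0, rfl⟩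
    have := (hE.eq he hg hu).1
    subst this; exact hf
  · intro hf
    refine ⟨⟨e, he, hf⟩, ?_⟩
    obtain ⟨j, hj, rfl⟩ := mem_kids.1 hf
    exact range_ch_subset

lemma exp_unif (hE : Good E) (hp : p ∈ Pr) : Exp Pr E (unif E p) := by
  constructor
  · intro e he
    rw [part_unif hE he]; exact NE.kids hp
  · intro f hf
    simp only [unif, mem_biUnion] at hf
    obtain ⟨e, he, hf⟩ := hf
    obtain ⟨j, hj, rfl⟩ := mem_kids.1 hf
    exact ⟨e, he, range_ch_subset⟩

lemma exp_split_unif (hPr : ∀ p ∈ Pr, p.Prime) (hB : Good B) (h : Exp Pr B E) (hβ : β ∈ B)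
    (hp : p ∈ Pr) : Exp Pr (split B β p) (unif E p) := by
  have hPr' : ∀ p ∈ Pr, 1 < p := fun p hp => (hPr p hp).one_lt
  have hE := h.good hPr' hB
  have h1 : Exp Pr B (unif E p) := h.trans hB (exp_unif hE hp)
  obtain ⟨T, hT1, hT2⟩ := (h1.1 β hβ).reroot hPr hp (hB.inj hβ) (by
    intro e' he'
    obtain ⟨he1, he2⟩ := mem_part.1 he'
    simp only [unif, mem_biUnion] at he1
    obtain ⟨e, he, he1⟩ := he1
    obtain ⟨j, hj, rfl⟩ := mem_kids.1 he1
    obtain ⟨u, hu⟩ := he2 ⟨0, rfl⟩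
    have h3 : e ∈ part E β := h.mem_part_of hB hβ he hu.symm
    obtain ⟨r, m, hrm⟩ := (h.1 β hβ).affine e h3
    refine ⟨r + m * j, m, fun x => ?_⟩
    simp only [ch]
    rw [hrm]; congr 1; ring)
  exact h1.of_kids hB hβ hT2 hT1

/-- confluence: two natural expansions of the same good set have a common natural expansion -/
lemma Exp.confl (hPr : ∀ p ∈ Pr, p.Prime) : ∀ (n : ℕ) {B E E' : Finset (ℤ → ℤ)}, Good B →
    Exp Pr B E → Exp Pr B E' → E'.card ≤ B.card + n → ∃ E'', Exp Pr E E'' ∧ Exp Pr E' E'' := by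
  have hPr' : ∀ p ∈ Pr, 1 < p := fun p hp => (hPr p hp).one_lt
  intro n
  induction n with
  | zero =>
    intro B E E' hB h1 h2 hn
    by_cases hc : B = E'
    · subst hc
      exact ⟨E, Exp.refl (h1.good hPr' hB), h1⟩
    · obtain ⟨β, hβ, p, hp, h3⟩ := h2.first_step hB hc
      have h4 := h3.card_le hPr' (good_split hB hβ (hPr p hp).pos)
      have h5 := card_split hB hβ (hPr' p hp)
      have := hPr' p hp
      omega
  | succ n ih =>
    intro B E E' hB h1 h2 hn
    by_cases hc : B = E'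
    · subst hc
      exact ⟨E, Exp.refl (h1.good hPr' hB), h1⟩
    · obtain ⟨β, hβ, p, hp, h3⟩ := h2.first_step hB hc
      have h5 := card_split hB hβ (hPr' p hp)
      have h6 := hPr' p hp
      obtain ⟨E'', h7, h8⟩ := ih (good_split hB hβ (hPr p hp).pos)
        (exp_split_unif hPr hB h1 hβ hp) h3 (by omega)
      exact ⟨E'', (exp_unif (h1.good hPr' hB) hp).trans (h1.good hPr' hB) h7, h8⟩

lemma Exp.confluence (hPr : ∀ p ∈ Pr, p.Prime) (hB : Good B) (h1 : Exp Pr B E)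
    (h2 : Exp Pr B E') : ∃ E'', Exp Pr E E'' ∧ Exp Pr E' E'' :=
  Exp.confl hPr E'.card hB h1 h2 (by omega)

lemma join_ne (hB : Good B) (hβ : β ∈ B) (hγ : γ ∈ B) (hne : β ≠ γ)
    (h1 : Exp Pr (split B β p) E) (h2 : Exp Pr (split B γ q) E) :
    Exp Pr (split (split B β p) γ q) E := by
  constructor
  · intro δ hδ
    rcases mem_split.1 hδ with ⟨h3, h4⟩ | h3
    · exact h1.1 δ h4
    · exact h2.1 δ (mem_split.2 (Or.inr h3))
  · intro e he
    obtain ⟨δ, hδ, h3⟩ := h1.2 e he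
    by_cases hc : δ = γ
    · subst hc
      obtain ⟨ε, hε, h4⟩ := h2.2 e he
      rcases mem_split.1 hε with ⟨h5, h6⟩ | h5
      · exfalso
        obtain ⟨u, hu⟩ := h3 ⟨0, rfl⟩
        obtain ⟨v, hv⟩ := h4 ⟨0, rfl⟩
        exact h5 (hB.eq hγ h6 (hu.trans hv.symm)).1.symm
      · exact ⟨ε, mem_split.2 (Or.inr h5), h4⟩
    · exact ⟨δ, mem_split.2 (Or.inl ⟨hc, hδ⟩), h3⟩

lemma ch_ch_eq (k : ℕ) : ch (ch β p (k % p)) q (k / p) = ch β (p * q) k := by
  funext x
  simp only [ch]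
  congr 1
  have : ((k : ℕ) : ℤ) = ((k % p : ℕ) : ℤ) + p * ((k / p : ℕ) : ℤ) := by
    exact_mod_cast (Nat.mod_add_div _ _).symm
  push_cast at this ⊢
  linear_combination -this

lemma ch_ch_eq' (hj : j < p) : ch (ch β p j) q i = ch β (p * q) (j + p * i) := by
  funext x
  simp only [ch]
  congr 1
  push_cast
  ring

lemma join_grid (hPr : ∀ p ∈ Pr, p.Prime) (hp : p ∈ Pr) (hq : q ∈ Pr) (hB : Good B) (hβ : β ∈ B)
    (hne : p ≠ q) (h1 : Exp Pr (split B β p) E) (h2 : Exp Pr (split B β q) E) :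
    Exp Pr (split B β (p * q)) E := by
  have hPr' : ∀ p ∈ Pr, 1 < p := fun p hp => (hPr p hp).one_lt
  have hp0 : 0 < p := (hPr p hp).pos
  have hq0 : 0 < q := (hPr q hq).pos
  have hinj := hB.inj hβ
  have key : ∀ j < p, ∃ T : ℕ → Finset (ℤ → ℤ), part E (ch β p j) = (range q).biUnion T ∧
      ∀ i < q, NE Pr (ch (ch β p j) q i) (T i) := by
    intro j hj
    have h3 := h1.1 (ch β p j) (mem_split.2 (Or.inr (ch_mem_kids hj)))
    apply h3.reroot hPr hq (ch_inj hp0 hinj)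
    intro e he
    obtain ⟨he1, he2⟩ := mem_part.1 he
    obtain ⟨r', m', h'⟩ := h3.affine e he
    obtain ⟨ε, hε, h4⟩ := h2.2 e he1
    have h5 : Dv β q e := by
      rcases mem_split.1 hε with ⟨h5, h6⟩ | h5
      · exfalso
        obtain ⟨u, hu⟩ := he2 ⟨0, rfl⟩
        obtain ⟨v, hv⟩ := h4 ⟨0, rfl⟩
        exact h5 (hB.eq hβ h6 (hu.trans hv.symm)).1.symm
      · obtain ⟨i, hi, rfl⟩ := mem_kids.1 h5
        obtain ⟨r, m, hrm⟩ := (h2.1 _ hε).affine e (mem_part.2 ⟨he1, h4⟩)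
        refine ⟨i + q * r, m, fun x => ?_⟩
        rw [hrm]; simp only [ch]; congr 1; ring
    exact h5.of_ch hPr hp hq hne hinj h'
  choose! T hT1 hT2 using key
  constructor
  · intro δ hδ
    rcases mem_split.1 hδ with ⟨h3, h4⟩ | h3
    · exact h1.1 δ (mem_split.2 (Or.inl ⟨h3, h4⟩))
    · obtain ⟨k, hk, rfl⟩ := mem_kids.1 h3
      rw [← ch_ch_eq]
      have hj : k % p < p := Nat.mod_lt _ hp0
      have hi : k / p < q := by rw [Nat.div_lt_iff_lt_mul hp0, mul_comm]; exact hk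
      rw [part_child (ch_inj hp0 hinj) (hT2 _ hj) (hT1 _ hj) hi]
      exact hT2 _ hj _ hi
  · intro e he
    obtain ⟨δ, hδ, h3⟩ := h1.2 e he
    rcases mem_split.1 hδ with ⟨h4, h5⟩ | h4
    · exact ⟨δ, mem_split.2 (Or.inl ⟨h4, h5⟩), h3⟩
    · obtain ⟨j, hj, rfl⟩ := mem_kids.1 h4
      have h5 : e ∈ part E (ch β p j) := mem_part.2 ⟨he, h3⟩
      rw [hT1 j hj] at h5
      simp only [mem_biUnion, mem_range] at h5
      obtain ⟨i, hi, h5⟩ := h5
      refine ⟨ch (ch β p j) q i, ?_, (hT2 j hj i hi).range_subset e h5⟩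
      rw [ch_ch_eq' hj]
      refine mem_split.2 (Or.inr (ch_mem_kids ?_))
      calc j + p * i < p + p * i := by omega
        _ = p * (i + 1) := by ring
        _ ≤ p * q := Nat.mul_le_mul_left _ hi

end Pool.Agent.CT
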