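import Pool.Agent.CT.Cocycle

set_option autoImplicit false

namespace Pool.Agent.CT

open Finset Function
open scoped Classical

variable {Pr : Finset ℕ} {B D E E' : Finset (ℤ → ℤ)} {β γ δ ε e : ℤ → ℤ} {p q r i j : ℕ}
variable {H : Type} [Group H]

lemma far4 (hD : Good D) (h2 : 2 ∈ Pr) {M : ℕ} (hM : ∀ p ∈ Pr, p ≤ M) (hc : 4 * M + 2 ≤ D.card)
    {b1 b2 b3 b4 : ℤ → ℤ} {p1 p2 p3 p4 : ℕ} (m1 : IsM Pr D b1 p1) (m2 : IsM Pr D b2 p2)
    (m3 : IsM Pr D b3 p3) (m4 : IsM Pr D b4 p4) :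
    ∃ c, IsM Pr D c 2 ∧ Disjoint (kids b1 p1) (kids c 2) ∧ Disjoint (kids b2 p2) (kids c 2) ∧
      Disjoint (kids b3 p3) (kids c 2) ∧ Disjoint (kids b4 p4) (kids c 2) := by
  have hcard : ((kids b1 p1 ∪ kids b2 p2) ∪ (kids b3 p3 ∪ kids b4 p4)).card ≤ 4 * M := by
    have a1 := card_union_le (kids b1 p1 ∪ kids b2 p2) (kids b3 p3 ∪ kids b4 p4)
    have a2 := card_union_le (kids b1 p1) (kids b2 p2)
    have a3 := card_union_le (kids b3 p3) (kids b4 p4)
    have c1 := card_kids (p := p1) m1.inj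
    have c2 := card_kids (p := p2) m2.inj
    have c3 := card_kids (p := p3) m3.inj
    have c4 := card_kids (p := p4) m4.inj
    have d1 := hM _ m1.hp
    have d2 := hM _ m2.hp
    have d3 := hM _ m3.hp
    have d4 := hM _ m4.hp
    omega
  obtain ⟨c, hc1, hc2⟩ := exists_merge_disj hD h2
    ((kids b1 p1 ∪ kids b2 p2) ∪ (kids b3 p3 ∪ kids b4 p4)) (by omega)
  rw [disjoint_union_left, disjoint_union_left, disjoint_union_left] at hc2
  exact ⟨c, hc1, hc2.1.1, hc2.1.2, hc2.2.1, hc2.2.2⟩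

lemma exists_gauge (hPr : ∀ p ∈ Pr, p.Prime) (h2 : 2 ∈ Pr) {M N : ℕ} (hM : ∀ p ∈ Pr, p ≤ M)
    (hN : 4 * M + 2 ≤ N) {f : Finset (ℤ → ℤ) → Finset (ℤ → ℤ) → H} (hf : CC Pr N f)
    (hD : Bas Pr D) (hc : D.card = N + 1) :
    ∃ g : (ℤ → ℤ) × ℕ → H, ∀ β p γ q, IsM Pr D β p → IsM Pr D γ q →
      Disjoint (kids β p) (kids γ q) →
      (f (mrg (mrg D β p) γ q) (mrg D β p))⁻¹ * f (mrg (mrg D β p) γ q) (mrg D γ q) =
        g (β, p) * (g (γ, q))⁻¹ := by
  have hPr' : ∀ p ∈ Pr, 1 < p := fun p hp => (hPr p hp).one_lt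
  have ha : ∀ x y z : (ℤ → ℤ) × ℕ, IsM Pr D x.1 x.2 → IsM Pr D y.1 y.2 → IsM Pr D z.1 z.2 →
      Disjoint (kids x.1 x.2) (kids y.1 y.2) → Disjoint (kids y.1 y.2) (kids z.1 z.2) →
      Disjoint (kids x.1 x.2) (kids z.1 z.2) →
      ((f (mrg (mrg D x.1 x.2) y.1 y.2) (mrg D x.1 x.2))⁻¹ *
        f (mrg (mrg D x.1 x.2) y.1 y.2) (mrg D y.1 y.2)) *
      ((f (mrg (mrg D y.1 y.2) z.1 z.2) (mrg D y.1 y.2))⁻¹ *
        f (mrg (mrg D y.1 y.2) z.1 z.2) (mrg D z.1 z.2)) =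
      (f (mrg (mrg D x.1 x.2) z.1 z.2) (mrg D x.1 x.2))⁻¹ *
        f (mrg (mrg D x.1 x.2) z.1 z.2) (mrg D z.1 z.2) := by
    rintro ⟨b1, p1⟩ ⟨b2, p2⟩ ⟨b3, p3⟩ m1 m2 m3 d12 d23 d13
    simp only at m1 m2 m3 d12 d23 d13 ⊢
    have c1 := m1.card hD.1 hPr'
    have c2 := m2.card hD.1 hPr'
    have c3 := m3.card hD.1 hPr'
    have q1 := hPr' _ m1.hp
    have q2 := hPr' _ m2.hp
    have q3 := hPr' _ m3.hp
    have B1 := m1.bas hD hPr'
    have B2 := m2.bas hD hPr'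
    have B3 := m3.bas hD hPr'
    -- squares with tops `D1`, `D2`, `D3`
    have s1 := hf.sq_mrg hPr' B1 (by omega) (m2.mrg_of_disj d12) (m3.mrg_of_disj d13) d23
    have s2 := hf.sq_mrg hPr' B2 (by omega) (m1.mrg_of_disj d12.symm) (m3.mrg_of_disj d23) d13
    have s3 := hf.sq_mrg hPr' B3 (by omega) (m1.mrg_of_disj d13.symm)
      (m2.mrg_of_disj d23.symm) d12
    have e12 := mrg_comm hD.1 hPr' m1 m2
    have e13 := mrg_comm hD.1 hPr' m1 m3
    have e23 := mrg_comm hD.1 hPr' m2 m3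
    have e1_23 := mrg_comm B1.1 hPr' (m2.mrg_of_disj d12) (m3.mrg_of_disj d13)
    rw [← e12] at s2
    rw [← e13] at s3
    rw [← e23] at s3
    rw [← e1_23] at s3
    -- s1 : f D123 D12 * f D12 D1 = f D123 D13 * f D13 D1
    -- s2 : f D123 D12 * f D12 D2 = f D123 D23 * f D23 D2
    -- s3 : f D123 D13 * f D13 D3 = f D123 D23 * f D23 D3
    generalize f (mrg (mrg (mrg D b1 p1) b2 p2) b3 p3) (mrg (mrg D b1 p1) b2 p2) = x12 at *
    generalize f (mrg (mrg (mrg D b1 p1) b2 p2) b3 p3) (mrg (mrg D b1 p1) b3 p3) = x13 at *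
    generalize f (mrg (mrg (mrg D b1 p1) b2 p2) b3 p3) (mrg (mrg D b2 p2) b3 p3) = x23 at *
    generalize f (mrg (mrg D b1 p1) b2 p2) (mrg D b1 p1) = y1 at *
    generalize f (mrg (mrg D b1 p1) b2 p2) (mrg D b2 p2) = y2 at *
    generalize f (mrg (mrg D b1 p1) b3 p3) (mrg D b1 p1) = z1 at *
    generalize f (mrg (mrg D b1 p1) b3 p3) (mrg D b3 p3) = z3 at *
    generalize f (mrg (mrg D b2 p2) b3 p3) (mrg D b2 p2) = w2 at *
    generalize f (mrg (mrg D b2 p2) b3 p3) (mrg D b3 p3) = w3 at *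
    have t1 : y1 = x12⁻¹ * (x13 * z1) := by rw [← s1]; group
    have t2 : y2 = x12⁻¹ * (x23 * w2) := by rw [← s2]; group
    have t3 : z3 = x13⁻¹ * (x23 * w3) := by rw [← s3]; group
    rw [t1, t2, t3]
    group
  obtain ⟨g, hg⟩ := abstract_cob (H := H) (V := (ℤ → ℤ) × ℕ) (fun m => IsM Pr D m.1 m.2)
    (fun m m' => Disjoint (kids m.1 m.2) (kids m'.1 m'.2)) (fun _ _ h => h.symm)
    (fun m m' => (f (mrg (mrg D m.1 m.2) m'.1 m'.2) (mrg D m.1 m.2))⁻¹ *
      f (mrg (mrg D m.1 m.2) m'.1 m'.2) (mrg D m'.1 m'.2)) ha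
    (by
      rintro ⟨b1, p1⟩ ⟨b2, p2⟩ m1 m2 d12
      simp only at m1 m2 d12 ⊢
      rw [mrg_comm hD.1 hPr' m2 m1]
      group)
    (by
      rintro ⟨b1, p1⟩ ⟨b2, p2⟩ ⟨b3, p3⟩ ⟨b4, p4⟩ m1 m2 m3 m4
      obtain ⟨c, h1, h2, h3, h4, h5⟩ := far4 hD.1 h2 hM (by omega) m1 m2 m3 m4
      exact ⟨(c, 2), h1, h2, h3, h4, h5⟩)
  exact ⟨g, fun β p γ q h1 h2 h3 => hg (β, p) (γ, q) h1 h2 h3⟩

theorem extend (hPr : ∀ p ∈ Pr, p.Prime) (h2 : 2 ∈ Pr) {M N : ℕ} (hM : ∀ p ∈ Pr, p ≤ M)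
    (hN : M * M + 4 * M + 2 ≤ N) {f : Finset (ℤ → ℤ) → Finset (ℤ → ℤ) → H} (hf : CC Pr N f) :
    ∃ f' : Finset (ℤ → ℤ) → Finset (ℤ → ℤ) → H, CC Pr (N + 1) f' ∧
      ∀ B D, D.card ≤ N → f' B D = f B D := by
  have hPr' : ∀ p ∈ Pr, 1 < p := fun p hp => (hPr p hp).one_lt
  have key : ∀ D : Finset (ℤ → ℤ), Bas Pr D → D.card = N + 1 →
    ∃ g : (ℤ → ℤ) × ℕ → H, ∀ β p γ q, IsM Pr D β p → IsM Pr D γ q →
      Disjoint (kids β p) (kids γ q) →
      (f (mrg (mrg D β p) γ q) (mrg D β p))⁻¹ * f (mrg (mrg D β p) γ q) (mrg D γ q) =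
        g (β, p) * (g (γ, q))⁻¹ :=
    fun D hD hc => exists_gauge hPr h2 hM (by omega) hf hD hc
  choose! g hg using key
  obtain ⟨mo, hmo⟩ : ∃ mo : Finset (ℤ → ℤ) → Finset (ℤ → ℤ) → (ℤ → ℤ) × ℕ,
      ∀ B D, (∃ m : (ℤ → ℤ) × ℕ, IsM Pr D m.1 m.2 ∧ mrg D m.1 m.2 = B) →
        IsM Pr D (mo B D).1 (mo B D).2 ∧ mrg D (mo B D).1 (mo B D).2 = B := by
    refine ⟨fun B D => if h : ∃ m : (ℤ → ℤ) × ℕ, IsM Pr D m.1 m.2 ∧ mrg D m.1 m.2 = B then
      Classical.choose h else (id, 0), fun B D h => ?_⟩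
    simp only [dif_pos h]
    exact Classical.choose_spec h
  have hlow : ∀ B D : Finset (ℤ → ℤ), D.card ≤ N →
      (if D.card = N + 1 then g D (mo B D) else f B D) = f B D := by
    intro B D h
    rw [if_neg (by omega)]
  have htop : ∀ (D : Finset (ℤ → ℤ)) (β : ℤ → ℤ) (p : ℕ), Good D → D.card = N + 1 →
      IsM Pr D β p →
      (if D.card = N + 1 then g D (mo (mrg D β p) D) else f (mrg D β p) D) = g D (β, p) := by
    intro D β p hD hc hm
    rw [if_pos hc]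
    have h := hmo (mrg D β p) D ⟨(β, p), hm, rfl⟩
    have h3 := IsM.unique hD hPr' h.1 hm h.2
    congr 1
    exact Prod.ext h3.1 h3.2
  obtain ⟨f', hf'⟩ : ∃ f' : Finset (ℤ → ℤ) → Finset (ℤ → ℤ) → H,
      f' = fun B D => if D.card = N + 1 then g D (mo B D) else f B D := ⟨_, rfl⟩
  have hlow' : ∀ B D : Finset (ℤ → ℤ), D.card ≤ N → f' B D = f B D := by
    rw [hf']; exact hlow
  have htop' : ∀ (D : Finset (ℤ → ℤ)) (β : ℤ → ℤ) (p : ℕ), Good D → D.card = N + 1 →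
      IsM Pr D β p → f' (mrg D β p) D = g D (β, p) := by
    rw [hf']; exact htop
  clear hf' hlow htop
  have hsq : ∀ (B : Finset (ℤ → ℤ)) (β γ : ℤ → ℤ) (p q : ℕ), Bas Pr B → β ∈ B → γ ∈ B → β ≠ γ →
    p ∈ Pr → q ∈ Pr → (split (split B β p) γ q).card ≤ N + 1 →
    f' B (split B β p) * f' (split B β p) (split (split B β p) γ q) =
      f' B (split B γ q) * f' (split B γ q) (split (split B β p) γ q) := by
    intro B β γ p q hB hβ hγ hne hp hq hc
    have hγ' : γ ∈ split B β p := mem_split.2 (Or.inl ⟨hne.symm, hγ⟩)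
    have hβ' : β ∈ split B γ q := mem_split.2 (Or.inl ⟨hne, hβ⟩)
    have hB1 := hB.split hPr hβ hp
    have hB2 := hB.split hPr hγ hq
    have hB3 := hB1.split hPr hγ' hq
    have hcomm := split_comm hB.1 hβ hγ hne (hPr' p hp) (hPr' q hq)
    have c1 := card_split hB1.1 hγ' (hPr' q hq)
    have c2 := card_split hB2.1 hβ' (hPr' p hp)
    rw [← hcomm] at c2
    have l1 := hPr' p hp
    have l2 := hPr' q hq
    rw [hlow' B (split B β p) (by omega), hlow' B (split B γ q) (by omega)]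
    rcases Nat.lt_or_ge N (split (split B β p) γ q).card with h | h
    · have hcard : (split (split B β p) γ q).card = N + 1 := by omega
      set D := split (split B β p) γ q with hD
      have m2 : IsM Pr D γ q := IsM.of_split hB1.1 hγ' hq
      have m1 : IsM Pr D β p := by rw [hcomm]; exact IsM.of_split hB2.1 hβ' hp
      have e2 : mrg D γ q = split B β p := mrg_split hB1.1 hγ' l2
      have e1 : mrg D β p = split B γ q := by rw [hcomm]; exact mrg_split hB2.1 hβ' l1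
      have e12 : mrg (mrg D β p) γ q = B := by rw [e1]; exact mrg_split hB.1 hγ l2
      have hd : Disjoint (kids β p) (kids γ q) := by
        rw [Finset.disjoint_left]
        intro e he1 he2
        exact Finset.disjoint_left.1 (kids_disj hB1.1 hγ' l2) (mem_split.2 (Or.inr he1)) he2
      have t1 := htop' D β p hB3.1 hcard m1
      have t2 := htop' D γ q hB3.1 hcard m2
      rw [e1] at t1
      rw [e2] at t2
      rw [t1, t2]
      have := hg D hB3 hcard β p γ q m1 m2 hd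
      rw [e12, e1, e2] at this
      have h3 : f B (split B β p) = f B (split B γ q) * (g D (β, p) * (g D (γ, q))⁻¹) := by
        rw [← this]; group
      rw [h3]; group
    · rw [hlow' _ _ h, hlow' _ _ h]
      exact hf.sq B β γ p q hB hβ hγ hne hp hq h
  refine ⟨f', ⟨hsq, ?_⟩, hlow'⟩
  intro B β p q hB hβ hp hq hne hc
  have l1 := hPr' p hp
  have l2 := hPr' q hq
  have end1 := gs_end (q := q) hB.1 hβ l1
  have end2 := gs_end (q := p) hB.1 hβ l2
  rw [mul_comm q p] at end2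
  -- low case
  have hgp_low : ∀ (B' : Finset (ℤ → ℤ)) (p q : ℕ), 1 < p → 1 < q → Good B' → β ∈ B' →
      (gs B' β p q p).card ≤ N → ∀ i, i ≤ p → gp f' B' β p q i = gp f B' β p q i := by
    intro B' p q l1 l2 hB' hβ' hcard i
    induction i with
    | zero =>
      intro _
      have := card_gs_le (q := q) hB' hβ' l1 l2 (Nat.zero_le p)
      exact hlow' _ _ (le_trans this hcard)
    | succ i ih =>
      intro hi
      have := card_gs_le (q := q) hB' hβ' l1 l2 hi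
      simp only [gp]
      rw [ih (by omega), hlow' _ _ (le_trans this hcard)]
  rcases Nat.lt_or_ge N (split B β (p * q)).card with h | h
  · -- top case
    have hcard : (split B β (p * q)).card = N + 1 := by omega
    set D := split B β (p * q) with hDdef
    have hDB : Bas Pr D := by rw [← end1]; exact bas_gs hPr hB hβ hp hq p le_rfl
    obtain ⟨δ, hδ, hδ2⟩ := exists_merge_disj hDB.1 h2 (kids β (p * q)) (by
      rw [card_kids (hB.1.inj hβ), hcard]
      have := Nat.mul_le_mul (hM p hp) (hM q hq)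
      omega)
    have hsub : ∀ e ∈ kids δ 2, e ≠ β ∧ e ∈ B := by
      intro e he
      have h3 := hδ.sub he
      rcases mem_split.1 h3 with h4 | h4
      · exact h4
      · exact absurd he (Finset.disjoint_left.1 hδ2 h4)
    have hδB : IsM Pr B δ 2 := ⟨hδ.hp, hδ.inj, fun e he => (hsub e he).2⟩
    have hβk : β ∉ kids δ 2 := fun h => (hsub β h).1 rfl
    have hB' : Bas Pr (mrg B δ 2) := hδB.bas hB hPr'
    have hβ' : β ∈ mrg B δ 2 := mem_mrg.2 (Or.inr ⟨hβ, hβk⟩)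
    -- the prism
    have hsquare : ∀ (E : Finset (ℤ → ℤ)) (ε : ℤ → ℤ) (r : ℕ), Bas Pr E → IsM Pr E δ 2 → ε ∈ E →
        ε ∉ kids δ 2 → r ∈ Pr → (split E ε r).card ≤ N + 1 →
        f' (mrg E δ 2) E * f' E (split E ε r) =
          f' (mrg E δ 2) (mrg (split E ε r) δ 2) * f' (mrg (split E ε r) δ 2) (split E ε r) := by
      intro E ε r hE hm hε hεk hr hcE
      have hne' : δ ≠ ε := by
        rintro rfl
        exact hm.not_mem hE.1 hPr' hε
      have := hsq (mrg E δ 2) δ ε 2 r (hm.bas hE hPr') (IsM.mem _ _ _)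
        (mem_mrg.2 (Or.inr ⟨hε, hεk⟩)) hne' h2 hr (by rw [hm.split_mrg hE.1 hPr']; exact hcE)
      rw [hm.split_mrg hE.1 hPr', split_mrg_comm hE.1 hPr' hm hε hεk (hPr' r hr)] at this
      exact this
    have prism : ∀ (p q : ℕ), p ∈ Pr → q ∈ Pr → (gs B β p q p).card ≤ N + 1 → ∀ i, i ≤ p →
        f' (mrg B δ 2) B * gp f' B β p q i =
          gp f' (mrg B δ 2) β p q i * f' (mrg (gs B β p q i) δ 2) (gs B β p q i) := by
      intro p q hp hq hcp i
      have l1 := hPr' p hp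
      have l2 := hPr' q hq
      induction i with
      | zero =>
        intro _
        simp only [gp, gs]
        have hcc := card_gs_le (q := q) hB.1 hβ l1 l2 (Nat.zero_le p)
        rw [hsquare B β p hB hδB hβ hβk hp (le_trans hcc hcp),
          split_mrg_comm hB.1 hPr' hδB hβ hβk l1]
      | succ i ih =>
        intro hi
        have hcc := card_gs_le (q := q) hB.1 hβ l1 l2 hi
        obtain ⟨m3, m4⟩ := mrg_gs (q := q) hB.1 hPr' hβ l1 l2 hδB hβk i (by omega)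
        obtain ⟨m5, m6⟩ := mrg_gs (q := q) hB.1 hPr' hβ l1 l2 hδB hβk (i + 1) hi
        have hk : ch β p i ∉ kids δ 2 := fun h =>
          Finset.disjoint_left.1 (kids_disj hB.1 hβ l1) (hδB.sub h) (ch_mem_kids (by omega))
        simp only [gp]
        rw [← mul_assoc, ih (by omega), mul_assoc, m4, m6, mul_assoc]
        congr 1
        exact hsquare (gs B β p q i) (ch β p i) q
          (bas_gs hPr hB hβ hp hq i (by omega)) m3 (ch_mem_gs hB.1 hβ l1 (by omega)) hk hq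
          (le_trans hcc hcp)
    have P1 := prism p q hp hq (by rw [end1]; exact hc) p le_rfl
    have P2 := prism q p hq hp (by rw [end2]; exact hc) q le_rfl
    rw [end1] at P1
    rw [end2] at P2
    -- the merged grid
    have endm1 := gs_end (q := q) hB'.1 hβ' l1
    have endm2 := gs_end (q := p) hB'.1 hβ' l2
    rw [mul_comm q p] at endm2
    have hmcard : (split (mrg B δ 2) β (p * q)).card ≤ N := by
      have := (mrg_gs (q := q) hB.1 hPr' hβ l1 l2 hδB hβk p le_rfl).2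
      rw [← endm1, this, end1]
      have h4 := hδ.card hDB.1 hPr'
      omega
    have hgr := hf.grid (mrg B δ 2) β p q hB' hβ' hp hq hne hmcard
    rw [← hgp_low (mrg B δ 2) p q l1 l2 hB'.1 hβ' (by rw [endm1]; exact hmcard) p le_rfl,
      ← hgp_low (mrg B δ 2) q p l2 l1 hB'.1 hβ' (by rw [endm2]; exact hmcard) q le_rfl] at hgr
    rw [hgr, ← P2] at P1
    exact mul_left_cancel P1
  · rw [hgp_low B p q l1 l2 hB.1 hβ (by rw [end1]; exact h) p le_rfl,
      hgp_low B q p l2 l1 hB.1 hβ (by rw [end2]; exact h) q le_rfl]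
    exact hf.grid B β p q hB hβ hp hq hne h

end Pool.Agent.CT
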