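import Mathlib

set_option autoImplicit false

/-!
A group acting on a set `X` with a fundamental domain `U` such that `X` is connected and
simply connected through the translates of `U` (every cocycle on translates is a coboundary),
and such that only finitely many translates of `U` meet `U`, is finitely presented.
-/

namespace Pool.Agent.CT

open scoped Classical

section

variable {G : Type} [Group G] {X : Type} [MulAction G X] (U : Set X)

/-- the elements `g` with `gU ∩ U ≠ ∅` -/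
def SS (U : Set X) : Set G := {g : G | ∃ u ∈ U, g⁻¹ • u ∈ U}

/-- relators `s_g s_h s_{gh}⁻¹` for `U ∩ gU ∩ ghU ≠ ∅` -/
def rels (U : Set X) : Set (FreeGroup (SS (G := G) U)) :=
  {w | ∃ g h k : SS (G := G) U, (g : G) * h = k ∧ (∃ u ∈ U, (g : G)⁻¹ • u ∈ U ∧ (k : G)⁻¹ • u ∈ U) ∧
    w = FreeGroup.of g * FreeGroup.of h * (FreeGroup.of k)⁻¹}

/-- the group defined by the triangle relations -/
abbrev Gam (G : Type) [Group G] {X : Type} [MulAction G X] (U : Set X) : Type :=
  PresentedGroup (rels (G := G) U)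

/-- generator `s_g` (junk value `1` outside of `SS U`) -/
noncomputable def sg (U : Set X) (g : G) : Gam G U :=
  if h : g ∈ SS (G := G) U then PresentedGroup.of ⟨g, h⟩ else 1

lemma sg_mul {g h : G} {x : X} (hx : x ∈ U) (hg : g⁻¹ • x ∈ U) (hgh : (g * h)⁻¹ • x ∈ U) :
    sg U g * sg U h = sg U (g * h) := by
  have m1 : g ∈ SS (G := G) U := ⟨x, hx, hg⟩
  have m2 : h ∈ SS (G := G) U := ⟨g⁻¹ • x, hg, by rw [← mul_smul, ← mul_inv_rev]; exact hgh⟩
  have m3 : g * h ∈ SS (G := G) U := ⟨x, hx, hgh⟩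
  simp only [sg, dif_pos m1, dif_pos m2, dif_pos m3]
  have hr : FreeGroup.of (⟨g, m1⟩ : SS (G := G) U) * FreeGroup.of ⟨h, m2⟩ *
      (FreeGroup.of ⟨g * h, m3⟩)⁻¹ ∈ rels (G := G) U :=
    ⟨⟨g, m1⟩, ⟨h, m2⟩, ⟨g * h, m3⟩, rfl, ⟨x, hx, hg, hgh⟩, rfl⟩
  have := PresentedGroup.one_of_mem hr
  rw [map_mul, map_mul, map_inv] at this
  exact mul_inv_eq_one.1 this

/-- general form: `a`, `b`, `c` with a common point `x ∈ aU ∩ bU ∩ cU` -/
lemma sg_tri {a b c : G} {x : X} (ha : a⁻¹ • x ∈ U) (hb : b⁻¹ • x ∈ U) (hc : c⁻¹ • x ∈ U) :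
    sg U (a⁻¹ * b) * sg U (b⁻¹ * c) = sg U (a⁻¹ * c) := by
  have := sg_mul U (g := a⁻¹ * b) (h := b⁻¹ * c) (x := a⁻¹ • x) ha
    (by rw [← mul_smul]; simpa using hb) (by rw [← mul_smul]; simpa [mul_assoc] using hc)
  rw [this]; congr 1; group

lemma sg_one {x : X} (hx : x ∈ U) : sg U (1 : G) = 1 := by
  have := sg_mul U (g := (1 : G)) (h := 1) (x := x) hx (by simpa using hx) (by simpa using hx)
  rw [mul_one] at this
  exact mul_eq_left.1 this

end

theorem finPres_of_action {G : Type} [Group G] {X : Type} [MulAction G X] (U : Set X) (u0 : X)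
    (hu0 : u0 ∈ U)
    (hcov : ∀ x : X, ∃ g : G, g⁻¹ • x ∈ U)
    (hconn : ∀ x y : X, Relation.ReflTransGen (fun a b => ∃ g : G, g⁻¹ • a ∈ U ∧ g⁻¹ • b ∈ U) x y)
    (hfin : {g : G | ∃ u ∈ U, g⁻¹ • u ∈ U}.Finite)
    (huniv : ∀ (H : Type) [Group H] (f : X → X → H),
      (∀ (g : G) (x y z : X), g⁻¹ • x ∈ U → g⁻¹ • y ∈ U → g⁻¹ • z ∈ U →
        f x y * f y z = f x z) →
      ∃ F : X → H, ∀ (g : G) (x y : X), g⁻¹ • x ∈ U → g⁻¹ • y ∈ U → f x y = (F x)⁻¹ * F y) :
    ∃ (n : ℕ) (φ : FreeGroup (Fin n) →* G), Function.Surjective φ ∧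
      ∃ R : Finset (FreeGroup (Fin n)),
        φ.ker = Subgroup.normalClosure (R : Set (FreeGroup (Fin n))) := by
  -- the projection
  let π0 : FreeGroup (SS (G := G) U) →* G := FreeGroup.lift (fun g => (g : G))
  have hπ0 : ∀ w ∈ rels (G := G) U, π0 w = 1 := by
    rintro w ⟨g, h, k, h1, -, rfl⟩
    simp only [π0, map_mul, map_inv, FreeGroup.lift_apply_of]
    rw [h1]; simp
  let π : Gam G U →* G := PresentedGroup.toGroup (f := fun g : SS (G := G) U => (g : G)) hπ0
  have hπ : ∀ g ∈ SS (G := G) U, π (sg U g) = g := by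
    intro g hg
    simp only [sg, dif_pos hg, π]
    exact PresentedGroup.toGroup.of hπ0
  have hSmem : ∀ {a b : G} {x : X}, a⁻¹ • x ∈ U → b⁻¹ • x ∈ U → a⁻¹ * b ∈ SS (G := G) U := by
    intro a b x ha hb
    exact ⟨a⁻¹ • x, ha, by rw [← mul_smul]; simpa using hb⟩
  -- choice of `h_x`
  have hh : ∃ h : X → G, (∀ x, (h x)⁻¹ • x ∈ U) ∧ ∀ x ∈ U, h x = 1 := by
    refine ⟨fun x => if x ∈ U then 1 else Classical.choose (hcov x), ?_, ?_⟩
    · intro x
      by_cases hx : x ∈ U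
      · simp [hx]
      · simp only [hx, if_false]; exact Classical.choose_spec (hcov x)
    · intro x hx; simp [hx]
  obtain ⟨h, hh1, hh2⟩ := hh
  -- the cocycle
  let f : X → X → Gam G U := fun x y =>
    if hc : ∃ g : G, g⁻¹ • x ∈ U ∧ g⁻¹ • y ∈ U then
      sg U ((h x)⁻¹ * Classical.choose hc) * sg U ((Classical.choose hc)⁻¹ * h y) else 1
  have hf : ∀ (g : G) (x y : X), g⁻¹ • x ∈ U → g⁻¹ • y ∈ U →
      f x y = sg U ((h x)⁻¹ * g) * sg U (g⁻¹ * h y) := by
    intro g x y hx hy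
    have hc : ∃ g : G, g⁻¹ • x ∈ U ∧ g⁻¹ • y ∈ U := ⟨g, hx, hy⟩
    simp only [f, dif_pos hc]
    obtain ⟨h1, h3⟩ := Classical.choose_spec hc
    rw [← sg_tri U (hh1 x) hx h1, mul_assoc, sg_tri U hy h3 (hh1 y)]
  have hinv : ∀ {a b : G} {x : X}, a⁻¹ • x ∈ U → b⁻¹ • x ∈ U →
      sg U (a⁻¹ * b) * sg U (b⁻¹ * a) = 1 := by
    intro a b x ha hb
    rw [sg_tri U ha hb ha, inv_mul_cancel]
    exact sg_one U hu0
  obtain ⟨F0, hF0⟩ := huniv (Gam G U) f (by
    intro g x y z hx hy hz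
    rw [hf g x y hx hy, hf g y z hy hz, hf g x z hx hz]
    have := hinv hy (hh1 y)
    calc sg U ((h x)⁻¹ * g) * sg U (g⁻¹ * h y) * (sg U ((h y)⁻¹ * g) * sg U (g⁻¹ * h z))
        = sg U ((h x)⁻¹ * g) * (sg U (g⁻¹ * h y) * sg U ((h y)⁻¹ * g)) * sg U (g⁻¹ * h z) := by
          group
      _ = _ := by rw [this, mul_one])
  -- normalise
  obtain ⟨F, hF, hF1⟩ : ∃ F : X → Gam G U, (∀ (g : G) (x y : X), g⁻¹ • x ∈ U → g⁻¹ • y ∈ U →
      f x y = (F x)⁻¹ * F y) ∧ F u0 = 1 := by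
    refine ⟨fun x => (F0 u0)⁻¹ * F0 x, fun g x y hx hy => ?_, by simp⟩
    rw [hF0 g x y hx hy]; group
  have hFU : ∀ x ∈ U, F x = 1 := by
    intro x hx
    have h1 := hF 1 u0 x (by simpa using hu0) (by simpa using hx)
    rw [hf 1 u0 x (by simpa using hu0) (by simpa using hx), hF1, hh2 u0 hu0, hh2 x hx] at h1
    simp only [inv_one, mul_one, one_mul, sg_one U hu0] at h1
    exact h1.symm
  -- `Φ`
  let Φ : G → X → Gam G U := fun g x => F (g • x) * sg U ((h (g • x))⁻¹ * (g * h x)) * (F x)⁻¹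
  have hgh : ∀ (g : G) (x : X), (g * h x)⁻¹ • (g • x) ∈ U := by
    intro g x
    rw [mul_inv_rev, mul_smul, inv_smul_smul]; exact hh1 x
  have hΦ1 : ∀ (g k : G) (x y : X), k⁻¹ • x ∈ U → k⁻¹ • y ∈ U → Φ g x = Φ g y := by
    intro g k x y hx hy
    have hgx : (g * k)⁻¹ • (g • x) ∈ U := by
      rw [mul_inv_rev, mul_smul, inv_smul_smul]; exact hx
    have hgy : (g * k)⁻¹ • (g • y) ∈ U := by
      rw [mul_inv_rev, mul_smul, inv_smul_smul]; exact hy
    have e1 := hF (g * k) (g • x) (g • y) hgx hgy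
    rw [hf (g * k) (g • x) (g • y) hgx hgy] at e1
    have e2 := hF k x y hx hy
    rw [hf k x y hx hy] at e2
    have t1 : sg U ((g * k)⁻¹ * h (g • y)) * sg U ((h (g • y))⁻¹ * (g * h y)) =
        sg U ((g * k)⁻¹ * (g * h y)) := sg_tri U hgy (hh1 _) (hgh g y)
    have t2 : (g * k)⁻¹ * (g * h y) = k⁻¹ * h y := by group
    have t3 : sg U ((h (g • x))⁻¹ * (g * k)) * sg U ((g * k)⁻¹ * (g * h x)) =
        sg U ((h (g • x))⁻¹ * (g * h x)) := sg_tri U (hh1 _) hgx (hgh g x)
    have t4 : (g * k)⁻¹ * (g * h x) = k⁻¹ * h x := by group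
    rw [t2] at t1
    rw [t4] at t3
    have i1 : sg U (k⁻¹ * h x) * sg U ((h x)⁻¹ * k) = 1 := hinv hx (hh1 x)
    have F1 : F (g • y) = F (g • x) * (sg U ((h (g • x))⁻¹ * (g * k)) *
        sg U ((g * k)⁻¹ * h (g • y))) := by rw [e1]; group
    have F2 : F y = F x * (sg U ((h x)⁻¹ * k) * sg U (k⁻¹ * h y)) := by rw [e2]; group
    simp only [Φ]
    rw [F1, F2, ← t3]
    have i2 : sg U (k⁻¹ * h x) = (sg U ((h x)⁻¹ * k))⁻¹ := eq_inv_of_mul_eq_one_left i1
    rw [i2]
    have t1' : sg U ((h (g • y))⁻¹ * (g * h y)) = (sg U ((g * k)⁻¹ * h (g • y)))⁻¹ *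
        sg U (k⁻¹ * h y) := by rw [← t1]; group
    rw [t1']
    group
  have hΦ : ∀ (g : G) (x y : X), Φ g x = Φ g y := by
    intro g x y
    induction hconn x y with
    | refl => rfl
    | tail _ hbc ih =>
      obtain ⟨k, hk1, hk2⟩ := hbc
      rw [ih]; exact hΦ1 g k _ _ hk1 hk2
  have hmul : ∀ (g g' : G), Φ (g * g') u0 = Φ g u0 * Φ g' u0 := by
    intro g g'
    rw [hΦ g u0 (g' • u0)]
    simp only [Φ]
    rw [mul_smul]
    have t1 : sg U ((h (g • g' • u0))⁻¹ * (g * h (g' • u0))) *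
        sg U ((g * h (g' • u0))⁻¹ * (g * g' * h u0)) =
        sg U ((h (g • g' • u0))⁻¹ * (g * g' * h u0)) := by
      apply sg_tri U (hh1 _) (hgh g _)
      have := hgh (g * g') u0
      rwa [mul_smul] at this
    have t2 : (g * h (g' • u0))⁻¹ * (g * g' * h u0) = (h (g' • u0))⁻¹ * (g' * h u0) := by group
    rw [t2] at t1
    rw [← t1, hF1]; group
  let θ : G →* Gam G U :=
    { toFun := fun g => Φ g u0
      map_one' := by
        have := hmul 1 1
        rw [mul_one] at this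
        exact (mul_eq_left.1 this.symm)
      map_mul' := hmul }
  have hθ : ∀ g ∈ SS (G := G) U, θ g = sg U g := by
    rintro g ⟨u, hu, hgu⟩
    change Φ g u0 = _
    rw [hΦ g u0 (g⁻¹ • u)]
    simp only [Φ]
    rw [smul_inv_smul, hFU u hu, hFU _ hgu, hh2 u hu, hh2 _ hgu]
    simp
  have hθπ : ∀ w, θ (π w) = w := by
    have : (θ.comp π) = MonoidHom.id _ := by
      apply PresentedGroup.ext
      intro g
      simp only [MonoidHom.comp_apply, MonoidHom.id_apply]
      have h1 : sg U (g : G) = PresentedGroup.of g := by simp [sg]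
      have h3 := hπ g g.2
      rw [h1] at h3
      rw [h3, hθ g g.2, h1]
    intro w
    exact DFunLike.congr_fun this w
  have hπinj : Function.Injective π := Function.LeftInverse.injective hθπ
  have hπsurj : Function.Surjective π := by
    intro g
    have key : ∀ y, Relation.ReflTransGen (fun a b => ∃ g : G, g⁻¹ • a ∈ U ∧ g⁻¹ • b ∈ U) u0 y →
        ∀ k : G, k⁻¹ • y ∈ U → k ∈ π.range := by
      intro y hy
      induction hy with
      | refl =>
        intro k hk
        exact ⟨sg U k, hπ k ⟨u0, hu0, hk⟩⟩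
      | tail _ hbc ih =>
        intro k hk
        obtain ⟨k', h1, h3⟩ := hbc
        have h4 := ih k' h1
        have h5 : k'⁻¹ * k ∈ π.range := ⟨sg U (k'⁻¹ * k), hπ _ (hSmem h3 hk)⟩
        have := mul_mem h4 h5
        simpa using this
    exact key (g • u0) (hconn _ _) g (by simpa using hu0)
  -- transfer to `Fin n`
  have : Finite (SS (G := G) U) := hfin.to_subtype
  have : Fintype (SS (G := G) U) := Fintype.ofFinite _
  let eqv : SS (G := G) U ≃ Fin (Fintype.card (SS (G := G) U)) := Fintype.equivFin _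
  let E : FreeGroup (SS (G := G) U) ≃* FreeGroup (Fin (Fintype.card (SS (G := G) U))) :=
    FreeGroup.freeGroupCongr eqv
  have hrfin : (rels (G := G) U).Finite := by
    apply Set.Finite.subset (Set.finite_range (fun t : SS (G := G) U × SS (G := G) U ×
      SS (G := G) U => FreeGroup.of t.1 * FreeGroup.of t.2.1 * (FreeGroup.of t.2.2)⁻¹))
    rintro w ⟨g, h, k, -, -, rfl⟩
    exact ⟨(g, h, k), rfl⟩
  refine ⟨Fintype.card (SS (G := G) U), π0.comp E.symm.toMonoidHom, ?_, ?_⟩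
  · have : Function.Surjective π0 := by
      intro g
      obtain ⟨w, hw⟩ := hπsurj g
      obtain ⟨v, rfl⟩ := QuotientGroup.mk_surjective w
      exact ⟨v, hw⟩
    exact this.comp E.symm.surjective
  · refine ⟨(hrfin.image E).toFinset, ?_⟩
    have hker : π0.ker = Subgroup.normalClosure (rels (G := G) U) := by
      apply le_antisymm
      · intro w hw
        have h1 : π (PresentedGroup.mk (rels (G := G) U) w) = 1 := hw
        have h3 : PresentedGroup.mk (rels (G := G) U) w = 1 := hπinj (h1.trans (map_one π).symm)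
        exact (QuotientGroup.eq_one_iff w).1 h3
      · exact Subgroup.normalClosure_le_normal (fun w hw => hπ0 w hw)
    rw [Set.Finite.coe_toFinset]
    have h1 : (π0.comp E.symm.toMonoidHom).ker = π0.ker.map E.toMonoidHom := by
      ext w
      rw [MonoidHom.mem_ker, Subgroup.mem_map]
      constructor
      · intro hw
        exact ⟨E.symm w, hw, by simp⟩
      · rintro ⟨v, hv, rfl⟩
        simpa using hv
    rw [h1, hker]
    exact Subgroup.map_normalClosure _ E.toMonoidHom E.surjective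

end Pool.Agent.CT
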