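import Pool.Agent.CT.Gen
import Pool.Agent.CT.Present

set_option autoImplicit false

namespace Pool.Agent.CT

open Finset Function
open scoped Classical

variable {P Pr : Finset ℕ} {B D E E' : Finset (ℤ → ℤ)} {β γ δ ε e : ℤ → ℤ} {p q r i j : ℕ}
variable {g h : Equiv.Perm ℤ}

lemma Good.nonempty (hB : Good B) : ∃ β, β ∈ B := by
  obtain ⟨β, hβ, -⟩ := hB.ex 0
  exact ⟨β, hβ⟩

lemma bas_act (hPr : ∀ p ∈ Pr, p.Prime) (hg : Bas Pr (act g {id})) (hB : Bas Pr B) :
    Bas Pr (act g B) := by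
  have hPr' : ∀ p ∈ Pr, 1 < p := fun p hp => (hPr p hp).one_lt
  obtain ⟨hG, E, h1, h2⟩ := hB
  obtain ⟨hGg, E1, h3, h4⟩ := hg
  obtain ⟨E2, h5, h6⟩ := (exp_act (g := g) h2).confluence hPr hGg h3
  exact ⟨good_act hG, E2, (exp_act h1).trans (good_act hG) h5, h4.trans good_id h6⟩

lemma bas_inv (hg : Bas Pr (act g {id})) : Bas Pr (act g⁻¹ {id}) := by
  obtain ⟨hGg, E1, h3, h4⟩ := hg
  refine ⟨good_act good_id, act g⁻¹ E1, exp_act h4, ?_⟩
  have := exp_act (g := g⁻¹) h3
  rwa [act_inv_act] at this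

lemma prime_insert (hP : ∀ p ∈ P, p.Prime) : ∀ p ∈ insert 2 P, p.Prime := by
  intro p hp
  rcases mem_insert.1 hp with rfl | h
  · exact Nat.prime_two
  · exact hP p h

lemma bas_of_closure (hP : ∀ p ∈ P, p.Prime) (hg : g ∈ Subgroup.closure (gens P)) :
    Bas (insert 2 P) (act g {id}) := by
  have hPr := prime_insert hP
  induction hg using Subgroup.closure_induction with
  | mem τ hτ =>
    obtain ⟨E, h1, h2⟩ := gens_nat hP hτ
    have h3 := exp_act (g := τ) (exp_singleton.2 h1)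
    rw [h2] at h3
    exact ⟨good_act good_id, E, h3, exp_singleton.2 h1⟩
  | one => rw [act_one]; exact bas_id
  | mul a b _ _ ha hb => rw [act_mul]; exact bas_act hPr ha hb
  | inv a _ ha => exact bas_inv ha

lemma closure_of_bas (hP : ∀ p ∈ P, p.Prime) (hg : Bas (insert 2 P) (act g {id})) :
    g ∈ Subgroup.closure (gens P) := by
  obtain ⟨hGg, E, h1, h2⟩ := hg
  have h3 := exp_act (g := g⁻¹) h1
  rw [act_inv_act] at h3
  exact mem_closure_of_nat hP g (exp_singleton.1 h3) (by rw [act_act_inv]; exact exp_singleton.1 h2)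

/-- transitivity on bases of given size -/
lemma transitive_bas (hP : ∀ p ∈ P, p.Prime) (hB : Bas (insert 2 P) B) (hD : Bas (insert 2 P) D)
    (hc : B.card = D.card) : ∃ g ∈ Subgroup.closure (gens P), act g B = D := by
  have hPr := prime_insert hP
  obtain ⟨β, hβ⟩ := hB.1.nonempty
  obtain ⟨γ, hγ⟩ := hD.1.nonempty
  obtain ⟨g, h1, -⟩ := exists_real' hB.1 hD.1 hc hβ hγ
  refine ⟨g, closure_of_bas hP ?_, h1⟩
  obtain ⟨hG, E, h2, h3⟩ := hB
  obtain ⟨hG', E', h4, h5⟩ := hD
  have h6 := exp_act (g := g) h2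
  rw [h1] at h6
  obtain ⟨E'', h7, h8⟩ := h6.confluence hPr hG' h4
  exact ⟨good_act good_id, E'', (exp_act h3).trans (good_act good_id) h7, h5.trans good_id h8⟩

lemma exists_nat_card (hPr : ∀ p ∈ Pr, p.Prime) (h2 : 2 ∈ Pr) : ∀ n : ℕ,
    ∃ E, NE Pr id E ∧ E.card = n + 1 := by
  intro n
  induction n with
  | zero => exact ⟨{id}, NE.leaf id, by simp⟩
  | succ n ih =>
    obtain ⟨E, h1, h3⟩ := ih
    obtain ⟨β, hβ⟩ := (h1.good hPr).nonempty
    have := card_split (h1.good hPr) hβ (p := 2) (by omega)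
    exact ⟨_, h1.split hPr hβ h2, by omega⟩

lemma finite_exp (hPr : ∀ p ∈ Pr, 1 < p) : ∀ (n : ℕ) (B : Finset (ℤ → ℤ)), Good B →
    {E : Finset (ℤ → ℤ) | Exp Pr B E ∧ E.card ≤ B.card + n}.Finite := by
  intro n
  induction n with
  | zero =>
    intro B hB
    apply (Set.finite_singleton B).subset
    rintro E ⟨h1, h2⟩
    rw [Set.mem_singleton_iff]
    by_contra hne
    obtain ⟨β, hβ, p, hp, h3⟩ := h1.first_step hB (fun h => hne h.symm)
    have l1 := hPr p hp
    have := card_split hB hβ l1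
    have := h3.card_le hPr (good_split hB hβ (by omega))
    omega
  | succ n ih =>
    intro B hB
    have hfin : (⋃ t ∈ B ×ˢ Pr.attach, {E : Finset (ℤ → ℤ) | t.1 ∈ B ∧
        Exp Pr (split B t.1 t.2) E ∧ E.card ≤ (split B t.1 t.2).card + n}).Finite := by
      apply Set.Finite.biUnion (Finset.finite_toSet _)
      rintro ⟨β, ⟨p, hp⟩⟩ ht
      simp only [Finset.coe_product, Set.mem_prod, Finset.mem_coe] at ht
      apply (ih (split B β p) (good_split hB ht.1 (by have := hPr p hp; omega))).subset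
      rintro E ⟨-, h1, h2⟩
      exact ⟨h1, h2⟩
    apply ((Set.finite_singleton B).union hfin).subset
    rintro E ⟨h1, h2⟩
    by_cases hne : B = E
    · exact Or.inl hne.symm
    · obtain ⟨β, hβ, p, hp, h3⟩ := h1.first_step hB hne
      have l1 := hPr p hp
      have := card_split hB hβ l1
      refine Or.inr ?_
      simp only [Set.mem_iUnion]
      refine ⟨(β, ⟨p, hp⟩), by simp [hβ], hβ, h3, ?_⟩
      simp only
      omega

lemma finite_real (hB : Good B) (D : Finset (ℤ → ℤ)) : {g : Equiv.Perm ℤ | act g B = D}.Finite := by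
  have hfin : (Set.univ.pi (fun _ : B => (D : Set (ℤ → ℤ)))).Finite :=
    Set.Finite.pi (fun _ => Finset.finite_toSet D)
  apply Set.Finite.of_finite_image (f := fun (g : Equiv.Perm ℤ) (b : B) => g ∘ (b : ℤ → ℤ))
  · apply hfin.subset
    rintro _ ⟨g, hg, rfl⟩
    intro b _
    have hg' : act g B = D := hg
    simp only [Finset.mem_coe]
    rw [← hg']
    exact comp_mem_act.2 b.2
  · intro g hg h hh heq
    ext z
    obtain ⟨β, hβ, x, rfl⟩ := hB.ex z
    exact congrFun (congrFun heq ⟨β, hβ⟩) x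

theorem main (P : Finset ℕ) (hP : ∀ p ∈ P, p.Prime) :
    ∃ (n : ℕ) (φ : FreeGroup (Fin n) →* ↥(Subgroup.closure (gens P))), Surjective φ ∧
      ∃ R : Finset (FreeGroup (Fin n)),
        φ.ker = Subgroup.normalClosure (R : Set (FreeGroup (Fin n))) := by
  have hPr := prime_insert hP
  obtain ⟨Pr, hPrdef⟩ : ∃ Pr, Pr = insert 2 P := ⟨_, rfl⟩
  rw [← hPrdef] at hPr
  have hPr' : ∀ p ∈ Pr, 1 < p := fun p hp => (hPr p hp).one_lt
  have h2 : 2 ∈ Pr := by rw [hPrdef]; exact mem_insert_self _ _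
  obtain ⟨M, hM⟩ : ∃ M, ∀ p ∈ Pr, p ≤ M := ⟨Pr.sup id, fun p hp => Finset.le_sup (f := id) hp⟩
  obtain ⟨N, hN⟩ : ∃ N, M * M + 4 * M + 2 = N := ⟨_, rfl⟩
  have htr : ∀ B D : Finset (ℤ → ℤ), Bas Pr B → Bas Pr D → B.card = D.card →
      ∃ g ∈ Subgroup.closure (gens P), act g B = D := by
    rw [hPrdef]
    exact fun B D hB hD hc => transitive_bas hP hB hD hc
  let X : Type := {B : Finset (ℤ → ℤ) // Bas Pr B ∧ B.card ≤ N}
  let G : Type := ↥(Subgroup.closure (gens P))
  have hbact : ∀ (g : G) (B : Finset (ℤ → ℤ)), Bas Pr B → Bas Pr (act g.1 B) := by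
    intro g B hB
    apply bas_act hPr _ hB
    rw [hPrdef]; exact bas_of_closure hP g.2
  let inst : MulAction G X :=
    { smul := fun g x => ⟨act g.1 x.1, hbact g x.1 x.2.1, by rw [card_act]; exact x.2.2⟩
      one_smul := fun x => Subtype.ext act_one
      mul_smul := fun g h x => Subtype.ext act_mul }
  have hsm : ∀ (g : G) (x : X), (g • x).1 = act g.1 x.1 := fun g x => rfl
  let U : Set X := {x | NE Pr id x.1}
  have hU : ∀ x : X, x ∈ U ↔ NE Pr id x.1 := fun x => Iff.rfl
  have hN1 : 1 ≤ N := by omega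
  let u0 : X := ⟨{id}, bas_id, by simpa using hN1⟩
  have hu0 : u0 ∈ U := NE.leaf id
  -- every base is a translate of a natural expansion
  have hcov : ∀ x : X, ∃ g : G, g⁻¹ • x ∈ U := by
    intro x
    obtain ⟨β, hβ⟩ := x.2.1.1.nonempty
    have hc : 0 < x.1.card := card_pos.2 ⟨β, hβ⟩
    obtain ⟨E, h1, h3⟩ := exists_nat_card hPr h2 (x.1.card - 1)
    have hE : Bas Pr E :=
      ⟨h1.good hPr, E, Exp.refl (h1.good hPr), exp_singleton.2 h1⟩
    obtain ⟨g, hg, h4⟩ := htr E x.1 hE x.2.1 (by omega)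
    refine ⟨⟨g, hg⟩, ?_⟩
    rw [hU, hsm]
    have : act (g⁻¹) x.1 = E := by rw [← h4, act_inv_act]
    change NE Pr id (act (g⁻¹) x.1)
    rw [this]; exact h1
  -- natural expansions stay in the same translate
  have hexpU : ∀ (g : G) (x y : X), g⁻¹ • x ∈ U → Exp Pr x.1 y.1 → g⁻¹ • y ∈ U := by
    intro g x y hx hxy
    rw [hU, hsm] at hx ⊢
    exact exp_singleton.1 ((exp_singleton.2 hx).trans good_id (exp_act hxy))
  have hcommon : ∀ (x y : X), Exp Pr x.1 y.1 → ∃ g : G, g⁻¹ • x ∈ U ∧ g⁻¹ • y ∈ U := by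
    intro x y hxy
    obtain ⟨g, hg⟩ := hcov x
    exact ⟨g, hg, hexpU g x y hg hxy⟩
  apply finPres_of_action (G := G) (X := X) U u0 hu0 hcov
  · -- connectedness
    have hsymm : ∀ {a b : X}, (∃ g : G, g⁻¹ • a ∈ U ∧ g⁻¹ • b ∈ U) →
        ∃ g : G, g⁻¹ • b ∈ U ∧ g⁻¹ • a ∈ U := by
      rintro a b ⟨g, h1, h3⟩; exact ⟨g, h3, h1⟩
    have hsymm' : ∀ {a b : X}, Relation.ReflTransGen
        (fun a b : X => ∃ g : G, g⁻¹ • a ∈ U ∧ g⁻¹ • b ∈ U) a b → Relation.ReflTransGen
        (fun a b : X => ∃ g : G, g⁻¹ • a ∈ U ∧ g⁻¹ • b ∈ U) b a := by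
      intro a b h
      induction h with
      | refl => exact Relation.ReflTransGen.refl
      | tail _ hbc ih => exact Relation.ReflTransGen.head (hsymm hbc) ih
    have h0 : ∀ x : X, Relation.ReflTransGen
        (fun a b : X => ∃ g : G, g⁻¹ • a ∈ U ∧ g⁻¹ • b ∈ U) u0 x := by
      have hLC : LC Pr N (fun B => ∃ hB : Bas Pr B ∧ B.card ≤ N, Relation.ReflTransGen
          (fun a b : X => ∃ g : G, g⁻¹ • a ∈ U ∧ g⁻¹ • b ∈ U) u0 ⟨B, hB⟩) := by
        intro B β p hB hβ hp hc
        have l1 := hPr' p hp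
        have c1 := card_split hB.1 hβ l1
        have hB1 : Bas Pr B ∧ B.card ≤ N := ⟨hB, by omega⟩
        have hB2 : Bas Pr (split B β p) ∧ (split B β p).card ≤ N := ⟨hB.split hPr hβ hp, hc⟩
        have hR := hcommon ⟨B, hB1⟩ ⟨split B β p, hB2⟩ (Exp.split hB.1 hβ hp)
        constructor
        · rintro ⟨_, h3⟩
          exact ⟨hB2, h3.tail hR⟩
        · rintro ⟨_, h3⟩
          exact ⟨hB1, h3.tail (hsymm hR)⟩
      intro x
      have := (hLC.const hPr h2 hM (by omega) x.2.1 x.2.2).2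
        ⟨⟨bas_id, by simpa using hN1⟩, Relation.ReflTransGen.refl⟩
      obtain ⟨_, h3⟩ := this
      exact h3
    intro x y
    exact (hsymm' (h0 x)).trans (h0 y)
  · -- finiteness
    have hUfin : U.Finite := by
      apply Set.Finite.of_finite_image (f := Subtype.val) _ Subtype.val_injective.injOn
      apply (finite_exp hPr' N {id} good_id).subset
      rintro _ ⟨x, hx, rfl⟩
      exact ⟨exp_singleton.2 hx, by have := x.2.2; omega⟩
    have hfin : (⋃ t ∈ U ×ˢ U, {g : Equiv.Perm ℤ | act g t.1.1 = t.2.1}).Finite := by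
      apply Set.Finite.biUnion (hUfin.prod hUfin)
      rintro ⟨x, y⟩ -
      exact finite_real x.2.1.1 y.1
    apply Set.Finite.of_finite_image (f := Subtype.val) _ Subtype.val_injective.injOn
    apply hfin.subset
    rintro _ ⟨g, ⟨u, hu, hgu⟩, rfl⟩
    simp only [Set.mem_iUnion]
    refine ⟨(g⁻¹ • u, u), ⟨hgu, hu⟩, ?_⟩
    change act g.1 (act (g.1)⁻¹ u.1) = u.1
    exact act_act_inv
  · -- every cocycle is a coboundary
    intro H _ f hf
    obtain ⟨f', hf'⟩ : ∃ f' : Finset (ℤ → ℤ) → Finset (ℤ → ℤ) → H, ∀ x y : X,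
        f' x.1 y.1 = f x y := by
      refine ⟨fun B D => if h : (Bas Pr B ∧ B.card ≤ N) ∧ (Bas Pr D ∧ D.card ≤ N) then
        f ⟨B, h.1⟩ ⟨D, h.2⟩ else 1, fun x y => ?_⟩
      exact dif_pos (show (Bas Pr x.1 ∧ x.1.card ≤ N) ∧ (Bas Pr y.1 ∧ y.1.card ≤ N) from
        ⟨x.2, y.2⟩)
    have hco : ∀ B D₁ D₂ : Finset (ℤ → ℤ), Bas Pr B → B.card ≤ N → Bas Pr D₁ → D₁.card ≤ N →
        Bas Pr D₂ → D₂.card ≤ N → Exp Pr B D₁ → Exp Pr B D₂ →
        f' B D₁ * f' D₁ D₂ = f' B D₂ := by
      intro B D₁ D₂ a1 a2 b1 b2 c1 c2 e1 e2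
      obtain ⟨g, hg⟩ := hcov ⟨B, a1, a2⟩
      have h1 := hf g ⟨B, a1, a2⟩ ⟨D₁, b1, b2⟩ ⟨D₂, c1, c2⟩ hg (hexpU g _ _ hg e1)
        (hexpU g _ _ hg e2)
      rw [← hf', ← hf', ← hf'] at h1
      exact h1
    have hCC : CC Pr N f' := by
      constructor
      · intro B β γ p q hB hβ hγ hne hp hq hc
        have l1 := hPr' p hp
        have l2 := hPr' q hq
        have hγ' : γ ∈ split B β p := mem_split.2 (Or.inl ⟨hne.symm, hγ⟩)
        have hβ' : β ∈ split B γ q := mem_split.2 (Or.inl ⟨hne, hβ⟩)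
        have hB1 := hB.split hPr hβ hp
        have hB2 := hB.split hPr hγ hq
        have hB3 := hB1.split hPr hγ' hq
        have hcomm := split_comm hB.1 hβ hγ hne l1 l2
        have c0 := card_split hB.1 hβ l1
        have c0' := card_split hB.1 hγ l2
        have c1 := card_split hB1.1 hγ' l2
        have c2 := card_split hB2.1 hβ' l1
        rw [← hcomm] at c2
        have e1 : Exp Pr B (split B β p) := Exp.split hB.1 hβ hp
        have e2 : Exp Pr B (split B γ q) := Exp.split hB.1 hγ hq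
        have e3 : Exp Pr B (split (split B β p) γ q) := e1.trans hB.1 (Exp.split hB1.1 hγ' hq)
        rw [hco B _ _ hB (by omega) hB1 (by omega) hB3 hc e1 e3,
          hco B _ _ hB (by omega) hB2 (by omega) hB3 hc e2 e3]
      · have key : ∀ (B : Finset (ℤ → ℤ)) (β : ℤ → ℤ) (p q : ℕ), Bas Pr B → β ∈ B → p ∈ Pr →
            q ∈ Pr → (gs B β p q p).card ≤ N → ∀ i, i ≤ p → Exp Pr B (gs B β p q i) ∧
              gp f' B β p q i = f' B (gs B β p q i) := by
          intro B β p q hB hβ hp hq hc i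
          have l1 := hPr' p hp
          have l2 := hPr' q hq
          induction i with
          | zero => intro _; exact ⟨Exp.split hB.1 hβ hp, rfl⟩
          | succ i ih =>
            intro hi
            obtain ⟨h3, h4⟩ := ih (by omega)
            have b1 := bas_gs hPr hB hβ hp hq i (by omega)
            have b2 := bas_gs hPr hB hβ hp hq (i + 1) hi
            have k1 := card_gs_le (q := q) hB.1 hβ l1 l2 (show i ≤ p by omega)
            have k2 := card_gs_le (q := q) hB.1 hβ l1 l2 hi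
            have hm := ch_mem_gs (q := q) hB.1 hβ l1 (show i < p by omega)
            have e1 : Exp Pr B (gs B β p q (i + 1)) := h3.trans hB.1 (Exp.split b1.1 hm hq)
            refine ⟨e1, ?_⟩
            simp only [gp]
            rw [h4]
            have kB := h3.card_le hPr' hB.1
            exact hco B _ _ hB (by omega) b1 (by omega) b2 (by omega) h3 e1
        intro B β p q hB hβ hp hq hne hc
        have l1 := hPr' p hp
        have l2 := hPr' q hq
        have end1 := gs_end (q := q) hB.1 hβ l1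
        have end2 := gs_end (q := p) hB.1 hβ l2
        rw [mul_comm q p] at end2
        rw [(key B β p q hB hβ hp hq (by rw [end1]; exact hc) p le_rfl).2,
          (key B β q p hB hβ hq hp (by rw [end2]; exact hc) q le_rfl).2, end1, end2]
    obtain ⟨F, hF⟩ := trivialise hPr h2 hM (by omega) hCC
    have hpath : ∀ (n : ℕ) (B E : Finset (ℤ → ℤ)), Bas Pr B → Bas Pr E → E.card ≤ N →
        Exp Pr B E → E.card ≤ B.card + n → f' B E = (F B)⁻¹ * F E := by
      intro n
      induction n with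
      | zero =>
        intro B E hB hE hc h3 h4
        by_cases hne : B = E
        · subst hne
          have := hco B B B hB hc hB hc hB hc h3 h3
          rw [inv_mul_cancel]
          exact mul_eq_left.1 this
        · obtain ⟨β, hβ, p, hp, h5⟩ := h3.first_step hB.1 hne
          have l1 := hPr' p hp
          have := card_split hB.1 hβ l1
          have := h5.card_le hPr' (good_split hB.1 hβ (by omega))
          omega
      | succ n ih =>
        intro B E hB hE hc h3 h4
        by_cases hne : B = E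
        · subst hne
          have := hco B B B hB hc hB hc hB hc h3 h3
          rw [inv_mul_cancel]
          exact mul_eq_left.1 this
        · obtain ⟨β, hβ, p, hp, h5⟩ := h3.first_step hB.1 hne
          have l1 := hPr' p hp
          have c1 := card_split hB.1 hβ l1
          have c2 := h5.card_le hPr' (good_split hB.1 hβ (by omega))
          have hB1 := hB.split hPr hβ hp
          rw [← hco B (split B β p) E hB (by omega) hB1 (by omega) hE hc
            (Exp.split hB.1 hβ hp) h3, hF B β p hB hβ hp (by omega),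
            ih (split B β p) E hB1 hE hc h5 (by omega)]
          group
    refine ⟨fun x => F x.1, fun g x y hx hy => ?_⟩
    -- the root of the translate
    have hroot : ∀ z : X, g⁻¹ • z ∈ U → Exp Pr (g • u0).1 z.1 := by
      intro z hz
      rw [hU, hsm] at hz
      have h1 := exp_act (g := g.1) (exp_singleton.2 hz)
      have h3 : act g.1 (act (g⁻¹ : G).1 z.1) = z.1 := act_act_inv
      rw [h3] at h1
      exact h1
    have hgu : g⁻¹ • (g • u0) ∈ U := by rw [inv_smul_smul]; exact hu0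
    have h1 := hf g (g • u0) x y hgu hx hy
    have h3 := hpath N (g • u0).1 x.1 (g • u0).2.1 x.2.1 x.2.2 (hroot x hx)
      (by have := x.2.2; omega)
    have h4 := hpath N (g • u0).1 y.1 (g • u0).2.1 y.2.1 y.2.2 (hroot y hy)
      (by have := y.2.2; omega)
    rw [hf'] at h3 h4
    rw [h3, h4] at h1
    have h5 : f x y = ((F (g • u0).1)⁻¹ * F x.1)⁻¹ * ((F (g • u0).1)⁻¹ * F y.1) := by
      rw [← h1]; group
    rw [h5]; group

end Pool.Agent.CT
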