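import Pool.Agent.CT.Act

set_option autoImplicit false

/-! The class transpositions and natural expansions of `{id}`. -/

namespace Pool.Agent.CT

open Finset Function
open scoped Classical

/-- the generating set of `CT_P(ℤ)` (verbatim from the frozen statement) -/
def gens (P : Finset ℕ) : Set (Equiv.Perm ℤ) :=
  {σ : Equiv.Perm ℤ | ∃ r₁ m₁ r₂ m₂ : ℤ,
          0 < m₁ ∧ 0 < m₂ ∧ 0 ≤ r₁ ∧ r₁ < m₁ ∧ 0 ≤ r₂ ∧ r₂ < m₂ ∧
          (∀ k : ℤ, ¬ (k % m₁ = r₁ ∧ k % m₂ = r₂)) ∧
          (∀ p ∈ Nat.primeFactors m₁.natAbs, p = 2 ∨ p ∈ P) ∧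
          (∀ p ∈ Nat.primeFactors m₂.natAbs, p = 2 ∨ p ∈ P) ∧
          ∀ k : ℤ, σ k =
            if k % m₁ = r₁ then (m₂ * k + m₁ * r₂ - m₂ * r₁) / m₁
            else if k % m₂ = r₂ then (m₁ * k + m₂ * r₁ - m₁ * r₂) / m₂
            else k}

variable {P Pr : Finset ℕ} {B D E E' : Finset (ℤ → ℤ)} {β γ δ ε e : ℤ → ℤ} {p q r i j : ℕ}
variable {g h : Equiv.Perm ℤ}

/-- the residue class `r mod m` as a function -/
def cl (r m : ℕ) : ℤ → ℤ := fun x => r + m * x

/-- `m` has all its prime factors in `Pr` -/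
def Sm (Pr : Finset ℕ) (m : ℕ) : Prop := ∀ p ∈ m.primeFactors, p ∈ Pr

lemma ch_id_comp_cl : (ch id p j) ∘ (cl r q) = cl (j + p * r) (p * q) := by
  funext x
  simp only [comp_apply, ch, cl, id]
  push_cast; ring

lemma Sm.of_mul (hm : p * q ≠ 0) (h : Sm Pr (p * q)) : Sm Pr q := by
  intro a ha
  apply h a
  rw [Nat.mem_primeFactors] at ha ⊢
  exact ⟨ha.1, Dvd.dvd.mul_left ha.2.1 p, hm⟩

/-- a smooth residue class lies in a natural expansion of `id` -/
lemma exists_ne_one : ∀ (m r : ℕ), 0 < m → r < m → Sm Pr m →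
    ∃ E, NE Pr id E ∧ cl r m ∈ E := by
  intro m
  induction m using Nat.strong_induction_on with
  | _ m ih =>
    intro r hm hr hs
    rcases Nat.eq_or_lt_of_le (Nat.succ_le_of_lt hm) with h1 | h1
    · have hm1 : m = 1 := by omega
      subst hm1
      have : r = 0 := by omega
      subst this
      refine ⟨{id}, NE.leaf id, ?_⟩
      rw [mem_singleton]
      funext x; simp [cl]
    · obtain ⟨p, hp, m', rfl⟩ := Nat.exists_prime_and_dvd (n := m) (by omega)
      have hpPr : p ∈ Pr := hs p (by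
        rw [Nat.mem_primeFactors]; exact ⟨hp, Dvd.intro _ rfl, by omega⟩)
      have hm' : 0 < m' := Nat.pos_of_ne_zero (by rintro rfl; simp at hm)
      have hlt : m' < p * m' := by
        have := hp.one_lt
        nlinarith
      have hr' : r / p < m' := by rw [Nat.div_lt_iff_lt_mul hp.pos, mul_comm]; exact hr
      obtain ⟨E', hE', hmem⟩ := ih m' hlt (r / p) hm' hr' (Sm.of_mul (by omega) hs)
      refine ⟨_, NE.node id p hpPr (fun j => if j = r % p then
        E'.image (fun e => (ch id p (r % p)) ∘ e) else {ch id p j}) ?_, ?_⟩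
      · intro j hj
        by_cases h2 : j = r % p
        · subst h2
          simp only [if_true]
          exact hE'.image (ch id p (r % p))
        · simp only [if_neg h2]; exact NE.leaf _
      · simp only [mem_biUnion, mem_range]
        refine ⟨r % p, Nat.mod_lt _ hp.pos, ?_⟩
        simp only [if_true, mem_image]
        refine ⟨cl (r / p) m', hmem, ?_⟩
        rw [ch_id_comp_cl, Nat.mod_add_div]

/-- two disjoint smooth residue classes lie in a common natural expansion of `id` -/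
lemma exists_ne_two : ∀ (m₁ r₁ m₂ r₂ : ℕ), 0 < m₁ → 0 < m₂ → r₁ < m₁ → r₂ < m₂ → Sm Pr m₁ →
    Sm Pr m₂ → (∀ k : ℕ, ¬ (k % m₁ = r₁ ∧ k % m₂ = r₂)) →
    ∃ E, NE Pr id E ∧ cl r₁ m₁ ∈ E ∧ cl r₂ m₂ ∈ E := by
  intro m₁
  induction m₁ using Nat.strong_induction_on with
  | _ m₁ ih =>
    intro r₁ m₂ r₂ hm₁ hm₂ hr₁ hr₂ hs₁ hs₂ hd
    have hg : ¬ Nat.Coprime m₁ m₂ := by
      intro hco
      obtain ⟨k, hk1, hk2⟩ := Nat.chineseRemainder hco r₁ r₂
      refine hd k ⟨?_, ?_⟩
      · have := hk1; unfold Nat.ModEq at this; rw [this, Nat.mod_eq_of_lt hr₁]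
      · have := hk2; unfold Nat.ModEq at this; rw [this, Nat.mod_eq_of_lt hr₂]
    obtain ⟨p, hp, ⟨a, rfl⟩, ⟨b, rfl⟩⟩ := Nat.Prime.not_coprime_iff_dvd.1 hg
    have hpPr : p ∈ Pr := hs₁ p (by
      rw [Nat.mem_primeFactors]; exact ⟨hp, Dvd.intro _ rfl, by omega⟩)
    have ha : 0 < a := Nat.pos_of_ne_zero (by rintro rfl; simp at hm₁)
    have hb : 0 < b := Nat.pos_of_ne_zero (by rintro rfl; simp at hm₂)
    have hlt : a < p * a := by
      have := hp.one_lt
      nlinarith
    have hr₁' : r₁ / p < a := by rw [Nat.div_lt_iff_lt_mul hp.pos, mul_comm]; exact hr₁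
    have hr₂' : r₂ / p < b := by rw [Nat.div_lt_iff_lt_mul hp.pos, mul_comm]; exact hr₂
    have hs₁' := Sm.of_mul (by omega) hs₁
    have hs₂' := Sm.of_mul (by omega) hs₂
    by_cases hj : r₁ % p = r₂ % p
    · obtain ⟨E', hE', hm1, hm2⟩ := ih a hlt (r₁ / p) b (r₂ / p) ha hb hr₁' hr₂' hs₁' hs₂' (by
        rintro k ⟨h1, h2⟩
        apply hd (r₁ % p + p * k)
        constructor
        · rw [Nat.mod_mul, Nat.add_mul_mod_self_left, Nat.mod_mod, Nat.add_mul_div_left _ _ hp.pos,
            Nat.div_eq_of_lt (Nat.mod_lt _ hp.pos), zero_add, h1, Nat.mod_add_div]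
        · rw [Nat.mod_mul, Nat.add_mul_mod_self_left, Nat.mod_mod, Nat.add_mul_div_left _ _ hp.pos,
            Nat.div_eq_of_lt (Nat.mod_lt _ hp.pos), zero_add, h2, hj, Nat.mod_add_div])
      refine ⟨_, NE.node id p hpPr (fun j => if j = r₁ % p then
        E'.image (fun e => (ch id p (r₁ % p)) ∘ e) else {ch id p j}) ?_, ?_, ?_⟩
      · intro j hj
        by_cases h2 : j = r₁ % p
        · subst h2
          simp only [if_true]
          exact hE'.image (ch id p (r₁ % p))
        · simp only [if_neg h2]; exact NE.leaf _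
      · simp only [mem_biUnion, mem_range]
        refine ⟨r₁ % p, Nat.mod_lt _ hp.pos, ?_⟩
        simp only [if_true, mem_image]
        refine ⟨cl (r₁ / p) a, hm1, ?_⟩
        rw [ch_id_comp_cl, Nat.mod_add_div]
      · simp only [mem_biUnion, mem_range]
        refine ⟨r₁ % p, Nat.mod_lt _ hp.pos, ?_⟩
        simp only [if_true, mem_image]
        refine ⟨cl (r₂ / p) b, hm2, ?_⟩
        rw [ch_id_comp_cl, hj, Nat.mod_add_div]
    · obtain ⟨E₁, hE₁, hm1⟩ := exists_ne_one (Pr := Pr) a (r₁ / p) ha hr₁' hs₁'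
      obtain ⟨E₂, hE₂, hm2⟩ := exists_ne_one (Pr := Pr) b (r₂ / p) hb hr₂' hs₂'
      refine ⟨_, NE.node id p hpPr (fun j => if j = r₁ % p then
        E₁.image (fun e => (ch id p (r₁ % p)) ∘ e) else if j = r₂ % p then
        E₂.image (fun e => (ch id p (r₂ % p)) ∘ e) else {ch id p j}) ?_, ?_, ?_⟩
      · intro j _
        by_cases h2 : j = r₁ % p
        · subst h2
          simp only [if_true]
          exact hE₁.image (ch id p (r₁ % p))
        · by_cases h3 : j = r₂ % p
          · subst h3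
            simp only [if_neg h2, if_true]
            exact hE₂.image (ch id p (r₂ % p))
          · simp only [if_neg h2, if_neg h3]; exact NE.leaf _
      · simp only [mem_biUnion, mem_range]
        refine ⟨r₁ % p, Nat.mod_lt _ hp.pos, ?_⟩
        simp only [if_true, mem_image]
        refine ⟨cl (r₁ / p) a, hm1, ?_⟩
        rw [ch_id_comp_cl, Nat.mod_add_div]
      · simp only [mem_biUnion, mem_range]
        refine ⟨r₂ % p, Nat.mod_lt _ hp.pos, ?_⟩
        rw [if_neg (fun h => hj h.symm)]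
        simp only [if_true, mem_image]
        refine ⟨cl (r₂ / p) b, hm2, ?_⟩
        rw [ch_id_comp_cl, Nat.mod_add_div]

/-- elements of natural expansions of `β` are smooth classes relative to `β` -/
lemma NE.smooth (hPr : ∀ p ∈ Pr, p.Prime) (h : NE Pr β E) : ∀ e ∈ E, ∃ r m : ℕ, r < m ∧ Sm Pr m ∧
    e = β ∘ cl r m := by
  induction h with
  | leaf β =>
    intro e he
    rw [mem_singleton] at he
    subst he
    refine ⟨0, 1, by omega, by simp [Sm], ?_⟩
    funext x; simp [cl]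
  | node β p hp T h ih =>
    intro e he
    simp only [mem_biUnion, mem_range] at he
    obtain ⟨j, hj, he⟩ := he
    obtain ⟨r, m, h1, h2, rfl⟩ := ih j hj e he
    refine ⟨j + p * r, p * m, ?_, ?_, ?_⟩
    · calc j + p * r < p + p * r := by omega
        _ = p * (r + 1) := by ring
        _ ≤ p * m := Nat.mul_le_mul_left _ h1
    · intro a ha
      have hm0 : m ≠ 0 := by omega
      rw [Nat.primeFactors_mul (hPr p hp).ne_zero hm0, mem_union,
        (hPr p hp).primeFactors, mem_singleton] at ha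
      rcases ha with rfl | ha
      · exact hp
      · exact h2 a ha
    · funext x
      simp only [comp_apply, ch, cl]
      congr 1; push_cast; ring

/-- the class transposition formula -/
def ctf (r₁ m₁ r₂ m₂ : ℤ) (k : ℤ) : ℤ :=
  if k % m₁ = r₁ then (m₂ * k + m₁ * r₂ - m₂ * r₁) / m₁
  else if k % m₂ = r₂ then (m₁ * k + m₂ * r₁ - m₁ * r₂) / m₂
  else k

lemma cl_emod {r m : ℤ} (h0 : 0 ≤ r) (h1 : r < m) (x : ℤ) : (r + m * x) % m = r := by
  rw [Int.add_mul_emod_self_left]; exact Int.emod_eq_of_lt h0 h1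

lemma ctf_left {r₁ m₁ r₂ m₂ : ℤ} (h0 : 0 ≤ r₁) (h1 : r₁ < m₁) (x : ℤ) :
    ctf r₁ m₁ r₂ m₂ (r₁ + m₁ * x) = r₂ + m₂ * x := by
  rw [ctf, if_pos (cl_emod h0 h1 x)]
  have : m₂ * (r₁ + m₁ * x) + m₁ * r₂ - m₂ * r₁ = m₁ * (r₂ + m₂ * x) := by ring
  rw [this, Int.mul_ediv_cancel_left _ (by omega)]

lemma ctf_right {r₁ m₁ r₂ m₂ : ℤ} (h0 : 0 ≤ r₂) (h1 : r₂ < m₂)
    (hd : ∀ k : ℤ, ¬ (k % m₁ = r₁ ∧ k % m₂ = r₂)) (x : ℤ) :
    ctf r₁ m₁ r₂ m₂ (r₂ + m₂ * x) = r₁ + m₁ * x := by
  rw [ctf, if_neg (fun h => hd _ ⟨h, cl_emod h0 h1 x⟩), if_pos (cl_emod h0 h1 x)]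
  have : m₁ * (r₂ + m₂ * x) + m₂ * r₁ - m₁ * r₂ = m₂ * (r₁ + m₁ * x) := by ring
  rw [this, Int.mul_ediv_cancel_left _ (by omega)]

lemma ctf_other {r₁ m₁ r₂ m₂ : ℤ} {k : ℤ} (h1 : k % m₁ ≠ r₁) (h2 : k % m₂ ≠ r₂) :
    ctf r₁ m₁ r₂ m₂ k = k := by
  rw [ctf, if_neg h1, if_neg h2]

lemma ctf_invol {r₁ m₁ r₂ m₂ : ℤ} (h0 : 0 ≤ r₁) (h1 : r₁ < m₁) (h2 : 0 ≤ r₂) (h3 : r₂ < m₂)
    (hd : ∀ k : ℤ, ¬ (k % m₁ = r₁ ∧ k % m₂ = r₂)) : Involutive (ctf r₁ m₁ r₂ m₂) := by
  intro k
  by_cases c1 : k % m₁ = r₁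
  · have hk : k = r₁ + m₁ * (k / m₁) := by rw [← c1, Int.emod_add_mul_ediv]
    rw [hk, ctf_left h0 h1, ctf_right h2 h3 hd]
  · by_cases c2 : k % m₂ = r₂
    · have hk : k = r₂ + m₂ * (k / m₂) := by rw [← c2, Int.emod_add_mul_ediv]
      rw [hk, ctf_right h2 h3 hd, ctf_left h0 h1]
    · rw [ctf_other c1 c2, ctf_other c1 c2]

/-- swapping two smooth classes with disjoint ranges is in `gens P` -/
lemma exists_swap {r₁ m₁ r₂ m₂ : ℕ} (h1 : r₁ < m₁) (h3 : r₂ < m₂)
    (hs1 : Sm (insert 2 P) m₁) (hs2 : Sm (insert 2 P) m₂)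
    (hd : ∀ x y : ℤ, cl r₁ m₁ x ≠ cl r₂ m₂ y) :
    ∃ τ ∈ gens P, τ ∘ (cl r₁ m₁) = cl r₂ m₂ ∧ τ ∘ (cl r₂ m₂) = cl r₁ m₁ ∧
      ∀ k, (∀ x, cl r₁ m₁ x ≠ k) → (∀ x, cl r₂ m₂ x ≠ k) → τ k = k := by
  have hd' : ∀ k : ℤ, ¬ (k % m₁ = r₁ ∧ k % m₂ = r₂) := by
    rintro k ⟨a, b⟩
    apply hd (k / m₁) (k / m₂)
    simp only [cl]
    rw [← a, ← b, Int.emod_add_mul_ediv, Int.emod_add_mul_ediv]
  have i1 : (r₁ : ℤ) < m₁ := by exact_mod_cast h1
  have i2 : (r₂ : ℤ) < m₂ := by exact_mod_cast h3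
  have n1 : (0 : ℤ) ≤ r₁ := by positivity
  have n2 : (0 : ℤ) ≤ r₂ := by positivity
  refine ⟨(ctf_invol n1 i1 n2 i2 hd').toPerm, ?_, ?_, ?_, ?_⟩
  · refine ⟨r₁, m₁, r₂, m₂, by omega, by omega, n1, i1, n2, i2, hd', ?_, ?_, fun k => rfl⟩
    · intro p hp
      have := hs1 p (by simpa using hp)
      simpa using this
    · intro p hp
      have := hs2 p (by simpa using hp)
      simpa using this
  · funext x
    exact ctf_left n1 i1 x
  · funext x
    exact ctf_right n2 i2 hd' x
  · intro k hk1 hk2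
    apply ctf_other
    · intro h
      apply hk1 (k / m₁)
      simp only [cl]
      rw [← h, Int.emod_add_mul_ediv]
    · intro h
      apply hk2 (k / m₂)
      simp only [cl]
      rw [← h, Int.emod_add_mul_ediv]

lemma NE.good (hPr : ∀ p ∈ Pr, p.Prime) (h : NE Pr id E) : Good E :=
  (exp_singleton.2 h).good (fun p hp => (hPr p hp).one_lt) good_id

theorem gens_nat (hP : ∀ p ∈ P, p.Prime) {τ : Equiv.Perm ℤ} (h : τ ∈ gens P) :
    ∃ E, NE (insert 2 P) id E ∧ act τ E = E := by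
  have hPr : ∀ p ∈ insert 2 P, p.Prime := by
    intro p hp
    rcases mem_insert.1 hp with rfl | h
    · exact Nat.prime_two
    · exact hP p h
  obtain ⟨r₁, m₁, r₂, m₂, a1, a2, a3, a4, a5, a6, hd, s1, s2, hτ⟩ := h
  lift r₁ to ℕ using a3
  lift r₂ to ℕ using a5
  lift m₁ to ℕ using a1.le
  lift m₂ to ℕ using a2.le
  simp only [Int.natAbs_natCast] at s1 s2
  obtain ⟨E, hE, e1, e2⟩ := exists_ne_two (Pr := insert 2 P) m₁ r₁ m₂ r₂
    (by exact_mod_cast a1) (by exact_mod_cast a2) (by exact_mod_cast a4) (by exact_mod_cast a6)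
    (by intro p hp; simpa using s1 p hp) (by intro p hp; simpa using s2 p hp)
    (by
      rintro k ⟨h1, h2⟩
      exact hd k ⟨by exact_mod_cast h1, by exact_mod_cast h2⟩)
  have hG := hE.good hPr
  have t : ∀ k, τ k = ctf r₁ m₁ r₂ m₂ k := hτ
  have t1 : τ ∘ cl r₁ m₁ = cl r₂ m₂ := by
    funext x
    simp only [comp_apply, t, cl]
    exact ctf_left (by positivity) a4 x
  have t2 : τ ∘ cl r₂ m₂ = cl r₁ m₁ := by
    funext x
    simp only [comp_apply, t, cl]
    exact ctf_right (by positivity) a6 hd x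
  refine ⟨E, hE, ?_⟩
  apply eq_of_subset_of_card_le
  · intro e he
    obtain ⟨f, hf, rfl⟩ := mem_act.1 he
    by_cases c1 : f = cl r₁ m₁
    · rw [c1, t1]; exact e2
    · by_cases c2 : f = cl r₂ m₂
      · rw [c2, t2]; exact e1
      · have : τ ∘ f = f := by
          funext x
          simp only [comp_apply, t]
          apply ctf_other
          · intro hh
            apply c1
            refine (hG.eq (x := x) (y := f x / m₁) hf e1 ?_).1
            simp only [cl]
            rw [← hh, Int.emod_add_mul_ediv]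
          · intro hh
            apply c2
            refine (hG.eq (x := x) (y := f x / m₂) hf e2 ?_).1
            simp only [cl]
            rw [← hh, Int.emod_add_mul_ediv]
        rw [this]; exact hf
  · rw [card_act]

/-- permutations of the cells of a natural expansion are products of class transpositions -/
lemma mem_closure_of_perm (hPr : ∀ p ∈ insert 2 P, p.Prime) (hE : NE (insert 2 P) id E) :
    ∀ (n : ℕ) (g : Equiv.Perm ℤ), (∀ e ∈ E, g ∘ e ∈ E) →
      (E.filter (fun e => g ∘ e ≠ e)).card ≤ n → g ∈ Subgroup.closure (gens P) := by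
  have hG := hE.good hPr
  intro n
  induction n with
  | zero =>
    intro g hg hc
    have h1 : ∀ e ∈ E, g ∘ e = e := by
      intro e he
      by_contra hcon
      have : 0 < (E.filter (fun e => g ∘ e ≠ e)).card := card_pos.2 ⟨e, mem_filter.2 ⟨he, hcon⟩⟩
      omega
    have : g = 1 := by
      ext z
      obtain ⟨e, he, x, rfl⟩ := hG.ex z
      exact congrFun (h1 e he) x
    rw [this]; exact one_mem _
  | succ n ih =>
    intro g hg hc
    by_cases hall : ∀ e ∈ E, g ∘ e = e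
    · have : g = 1 := by
        ext z
        obtain ⟨e, he, x, rfl⟩ := hG.ex z
        exact congrFun (hall e he) x
      rw [this]; exact one_mem _
    push Not at hall
    obtain ⟨e, he, hne⟩ := hall
    have hge := hg e he
    obtain ⟨r₁, m₁, l1, s1, rfl⟩ := hE.smooth hPr e he
    obtain ⟨r₂, m₂, l2, s2, h2⟩ := hE.smooth hPr _ hge
    simp only [id_comp] at he hne hge h2 
    obtain ⟨τ, hτ, t1, t2, t3⟩ := exists_swap (P := P) l1 l2 s1 s2 (by
      intro x y hxy
      rw [h2] at hge hne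
      exact hne (hG.eq he hge hxy).1.symm)
    have hfix : ∀ f ∈ E, f ≠ cl r₁ m₁ → f ≠ cl r₂ m₂ → τ ∘ f = f := by
      intro f hf n1 n2
      funext x
      apply t3
      · intro y hy
        exact n1 (hG.eq he hf hy).1.symm
      · intro y hy
        rw [h2] at hge
        exact n2 (hG.eq hge hf hy).1.symm
    have hstab : ∀ f ∈ E, τ ∘ f ∈ E := by
      intro f hf
      by_cases c1 : f = cl r₁ m₁
      · rw [c1, t1, ← h2]; exact hge
      · by_cases c2 : f = cl r₂ m₂
        · rw [c2, t2]; exact he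
        · rw [hfix f hf c1 c2]; exact hf
    have key := ih (τ * g) (fun f hf => hstab _ (hg f hf)) (by
      have hss : E.filter (fun e => (τ * g) ∘ e ≠ e) ⊂ E.filter (fun e => g ∘ e ≠ e) := by
        rw [Finset.ssubset_iff_of_subset]
        · refine ⟨cl r₁ m₁, mem_filter.2 ⟨he, hne⟩, ?_⟩
          rw [mem_filter]
          rintro ⟨-, h5⟩
          apply h5
          change τ ∘ (g ∘ cl r₁ m₁) = _
          rw [h2, t2]
        · intro f hf
          rw [mem_filter] at hf ⊢
          refine ⟨hf.1, fun h5 => hf.2 ?_⟩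
          change τ ∘ (g ∘ f) = f
          rw [h5]
          apply hfix f hf.1
          · rintro rfl; exact hne h5
          · rintro rfl
            have : cl r₁ m₁ = cl r₂ m₂ := comp_inj g (by simp only [h2, h5])
            rw [this] at hne
            exact hne h5
      have := card_lt_card hss
      have e3 : ((⇑(τ * g)) : ℤ → ℤ) = τ ∘ g := rfl
      omega)
    have hg' : g = τ⁻¹ * (τ * g) := by group
    rw [hg']
    exact mul_mem (inv_mem (Subgroup.subset_closure hτ)) key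

lemma mem_closure_of_act (hPr : ∀ p ∈ insert 2 P, p.Prime) (hE : NE (insert 2 P) id E)
    (hg : act g E = E) : g ∈ Subgroup.closure (gens P) :=
  mem_closure_of_perm hPr hE E.card g (fun e he => by rw [← hg]; exact comp_mem_act.2 he)
    (card_filter_le _ _)

/-! ### class calculus -/

lemma abstract_calc {Q : Type} (a b : Q → Q) (ha : Injective a) (hb : Injective b) (S : Q → Prop)
    (hSa : ∀ x, S (a x)) (hSb : ∀ x, S (b x)) (hcomm : ∀ x, S x → a (b x) = b (a x))
    {p : ℕ} (hp : 1 < p) (hgrid : ∀ x, a^[p] (b x) = b (b (a x))) (x : Q) :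
    b x = a^[p - 1] x := by
  have hit : ∀ n x, S x → a^[n] (b x) = b (a^[n] x) := by
    intro n
    induction n with
    | zero => intro x _; rfl
    | succ n ih =>
      intro x hx
      rw [iterate_succ_apply', ih x hx, iterate_succ_apply']
      apply hcomm
      cases n with
      | zero => exact hx
      | succ n => rw [iterate_succ_apply']; exact hSa _
  obtain ⟨k, rfl⟩ : ∃ k, p = k + 2 := ⟨p - 2, by omega⟩
  have hk : k + 2 - 1 = k + 1 := by omega
  rw [hk]
  have hS : ∀ x, S x → b x = a^[k + 1] x := by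
    intro x hx
    have h1 := hgrid x
    rw [← hcomm x hx, ← hcomm (b x) (hSb x)] at h1
    have h2 : a^[k + 1] (b x) = b (b x) := by
      apply ha
      rw [← h1, ← iterate_succ_apply' a (k + 1)]
    rw [hit _ x hx] at h2
    exact (hb h2).symm
  have h1 := hgrid x
  rw [hS (a x) (hSa x)] at h1
  have h2 : b (a^[k + 1] (a x)) = a^[k + 1] (a^[k + 1] (a x)) := by
    apply hS
    rw [← iterate_succ_apply, iterate_succ_apply' a]; exact hSa _
  rw [h2] at h1
  apply ha.iterate (k + 2)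
  rw [h1, ← iterate_succ_apply, ← iterate_add_apply, ← iterate_add_apply,
    show k + 1 + (k + 1).succ = k + 2 + (k + 1) by omega]

/-- natural expansions of `id` -/
abbrev NN (P : Finset ℕ) : Type := {E : Finset (ℤ → ℤ) // NE (insert 2 P) id E}

/-- equivalence under the group -/
def NNs (P : Finset ℕ) : Setoid (NN P) where
  r E E' := ∃ g ∈ Subgroup.closure (gens P), act g E.1 = E'.1
  iseqv := {
    refl := fun E => ⟨1, one_mem _, act_one⟩
    symm := by
      rintro E E' ⟨g, hg, h⟩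
      exact ⟨g⁻¹, inv_mem hg, by rw [← h, act_inv_act]⟩
    trans := by
      rintro E E' E'' ⟨g, hg, h⟩ ⟨g', hg', h'⟩
      exact ⟨g' * g, mul_mem hg' hg, by rw [act_mul, h, h']⟩ }

lemma NE.split (hPr : ∀ p ∈ Pr, p.Prime) (h : NE Pr id E) (hβ : β ∈ E) (hp : p ∈ Pr) :
    NE Pr id (split E β p) := by
  have hG := h.good hPr
  exact exp_singleton.1 ((exp_singleton.2 h).trans good_id (Exp.split hG hβ hp))

theorem transitive_nat (hP : ∀ p ∈ P, p.Prime) : ∀ E E' : Finset (ℤ → ℤ),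
    NE (insert 2 P) id E → NE (insert 2 P) id E' → E.card = E'.card →
    ∃ g ∈ Subgroup.closure (gens P), act g E = E' := by
  have hPr : ∀ p ∈ insert 2 P, p.Prime := by
    intro p hp
    rcases mem_insert.1 hp with rfl | h
    · exact Nat.prime_two
    · exact hP p h
  have hPr' : ∀ p ∈ insert 2 P, 1 < p := fun p hp => (hPr p hp).one_lt
  have h2 : 2 ∈ insert 2 P := mem_insert_self _ _
  -- well-definedness
  have wd : ∀ (E : Finset (ℤ → ℤ)) (β γ : ℤ → ℤ) (p : ℕ), NE (insert 2 P) id E → β ∈ E → γ ∈ E →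
      ∃ g ∈ Subgroup.closure (gens P), act g (split E β p) = split E γ p := by
    intro E β γ p hE hβ hγ
    obtain ⟨g, h1, h3⟩ := exists_real' (hE.good hPr) (hE.good hPr) rfl hβ hγ
    exact ⟨g, mem_closure_of_act hPr hE h1, by rw [split_act, h1, h3]⟩
  have wd' : ∀ (E E' : Finset (ℤ → ℤ)) (β γ : ℤ → ℤ) (p : ℕ), NE (insert 2 P) id E →
      NE (insert 2 P) id E' → β ∈ E → γ ∈ E' →
      (∃ g ∈ Subgroup.closure (gens P), act g E = E') →
      ∃ g ∈ Subgroup.closure (gens P), act g (split E β p) = split E' γ p := by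
    rintro E E' β γ p hE hE' hβ hγ ⟨g, hg, h1⟩
    obtain ⟨k, hk, h3⟩ := wd E' (g ∘ β) γ p hE' (by rw [← h1]; exact comp_mem_act.2 hβ) hγ
    exact ⟨k * g, mul_mem hk hg, by rw [act_mul, split_act, h1, h3]⟩
  have cancel : ∀ (E E' : Finset (ℤ → ℤ)) (β γ : ℤ → ℤ) (p : ℕ), p ∈ insert 2 P →
      NE (insert 2 P) id E → NE (insert 2 P) id E' → β ∈ E → γ ∈ E' →
      (∃ g ∈ Subgroup.closure (gens P), act g (split E β p) = split E' γ p) →
      ∃ g ∈ Subgroup.closure (gens P), act g E = E' := by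
    rintro E E' β γ p hp hE hE' hβ hγ ⟨g, hg, h1⟩
    have c1 := card_split (hE.good hPr) hβ (hPr' p hp)
    have c2 := card_split (hE'.good hPr) hγ (hPr' p hp)
    have c3 : (split E β p).card = (split E' γ p).card := by rw [← h1, card_act]
    obtain ⟨k, h3, h4⟩ := exists_real' (hE.good hPr) (hE'.good hPr) (by omega) hβ hγ
    refine ⟨k, ?_, h3⟩
    have h5 : act (k * g⁻¹) (split E' γ p) = split E' γ p := by
      rw [act_mul, ← h1, act_inv_act, split_act, h3, h4, h1]
    have h6 := mem_closure_of_act hPr (hE'.split hPr hγ hp) h5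
    have h7 := mul_mem h6 hg
    simpa using h7
  have hne : ∀ E : NN P, ∃ β, β ∈ E.1 := fun E => E.2.nonempty hPr'
  choose c hc using hne
  let add : ∀ p : ℕ, p ∈ insert 2 P → Quotient (NNs P) → Quotient (NNs P) := fun p hp =>
    Quotient.map' (fun E : NN P => (⟨split E.1 (c E) p, E.2.split hPr (hc E) hp⟩ : NN P))
      (fun E E' h => wd' E.1 E'.1 (c E) (c E') p E.2 E'.2 (hc E) (hc E') h)
  have add_mk : ∀ (p : ℕ) (hp : p ∈ insert 2 P) (E : NN P) (β : ℤ → ℤ) (hβ : β ∈ E.1),
      add p hp (Quotient.mk (NNs P) E) =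
        Quotient.mk (NNs P) ⟨split E.1 β p, E.2.split hPr hβ hp⟩ := by
    intro p hp E β hβ
    apply Quotient.sound
    exact wd E.1 (c E) β p E.2 (hc E) hβ
  have add_inj : ∀ (p : ℕ) (hp : p ∈ insert 2 P), Injective (add p hp) := by
    intro p hp x y
    refine Quotient.inductionOn₂ x y (fun E E' h => ?_)
    have h1 := Quotient.exact h
    exact Quotient.sound (cancel E.1 E'.1 (c E) (c E') p hp E.2 E'.2 (hc E) (hc E') h1)
  let S : Quotient (NNs P) → Prop := fun x => ∃ E : NN P, Quotient.mk (NNs P) E = x ∧ 1 < E.1.card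
  have hS : ∀ (p : ℕ) (hp : p ∈ insert 2 P) x, S (add p hp x) := by
    intro p hp x
    refine Quotient.inductionOn x (fun E => ?_)
    refine ⟨_, (add_mk p hp E (c E) (hc E)).symm, ?_⟩
    have := card_split (E.2.good hPr) (hc E) (hPr' p hp)
    have := hPr' p hp
    have : 0 < E.1.card := card_pos.2 ⟨_, hc E⟩
    simp only
    omega
  have hcomm : ∀ (p : ℕ) (hp : p ∈ insert 2 P) (q : ℕ) (hq : q ∈ insert 2 P) x, S x →
      add p hp (add q hq x) = add q hq (add p hp x) := by
    rintro p hp q hq x ⟨E, rfl, hE⟩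
    obtain ⟨β, hβ, γ, hγ, hne⟩ := one_lt_card.1 hE
    rw [add_mk q hq E β hβ, add_mk p hp E γ hγ,
      add_mk p hp _ γ (mem_split.2 (Or.inl ⟨hne.symm, hγ⟩)),
      add_mk q hq _ β (mem_split.2 (Or.inl ⟨hne, hβ⟩))]
    congr 1
    apply Subtype.ext
    exact split_comm (E.2.good hPr) hβ hγ hne (hPr' q hq) (hPr' p hp)
  have hgs : ∀ (p : ℕ) (hp : p ∈ insert 2 P) (q : ℕ) (hq : q ∈ insert 2 P) (E : NN P)
      (β : ℤ → ℤ) (hβ : β ∈ E.1) (i : ℕ), i ≤ p → ∃ h : NE (insert 2 P) id (gs E.1 β p q i),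
      (add q hq)^[i] (add p hp (Quotient.mk (NNs P) E)) = Quotient.mk (NNs P) ⟨_, h⟩ := by
    intro p hp q hq E β hβ i
    induction i with
    | zero =>
      intro _
      exact ⟨E.2.split hPr hβ hp, add_mk p hp E β hβ⟩
    | succ i ih =>
      intro hi
      obtain ⟨h1, h3⟩ := ih (by omega)
      have hm := ch_mem_gs (q := q) (E.2.good hPr) hβ (hPr' p hp) (i := i) (by omega)
      refine ⟨h1.split hPr hm hq, ?_⟩
      rw [iterate_succ_apply', h3]
      exact add_mk q hq ⟨_, h1⟩ _ hm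
  have hcalc : ∀ (p : ℕ) (hp : p ∈ insert 2 P) x, add p hp x = (add 2 h2)^[p - 1] x := by
    intro p hp
    by_cases hp2 : p = 2
    · subst hp2; intro x; rfl
    apply abstract_calc (add 2 h2) (add p hp) (add_inj 2 h2) (add_inj p hp) S (hS 2 h2) (hS p hp)
      (hcomm 2 h2 p hp) (hPr' p hp)
    intro x
    refine Quotient.inductionOn x (fun E => ?_)
    obtain ⟨h3, h4⟩ := hgs p hp 2 h2 E (c E) (hc E) p le_rfl
    obtain ⟨h5, h6⟩ := hgs 2 h2 p hp E (c E) (hc E) 2 le_rfl
    have h7 : (add p hp)^[2] (add 2 h2 (Quotient.mk (NNs P) E)) =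
      add p hp (add p hp (add 2 h2 (Quotient.mk (NNs P) E))) := rfl
    rw [← h7, h4, h6]
    congr 1
    apply Subtype.ext
    change gs E.1 (c E) p 2 p = gs E.1 (c E) 2 p 2
    rw [gs_end (E.2.good hPr) (hc E) (hPr' p hp), gs_end (E.2.good hPr) (hc E) (hPr' 2 h2),
      mul_comm]
  -- every natural expansion is equivalent to the standard one
  have hstd : ∀ (n : ℕ) (E : NN P) (E' : NN P), Exp (insert 2 P) E.1 E'.1 →
      E'.1.card ≤ E.1.card + n →
      Quotient.mk (NNs P) E' = (add 2 h2)^[E'.1.card - E.1.card] (Quotient.mk (NNs P) E) := by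
    intro n
    induction n with
    | zero =>
      intro E E' hEE hc
      by_cases he : E.1 = E'.1
      · have : E = E' := Subtype.ext he
        subst this
        simp
      · obtain ⟨β, hβ, p, hp, h3⟩ := hEE.first_step (E.2.good hPr) he
        have l1 := hPr' p hp
        have := card_split (E.2.good hPr) hβ l1
        have := h3.card_le hPr' (good_split (E.2.good hPr) hβ (by omega))
        omega
    | succ n ih =>
      intro E E' hEE hcc
      by_cases he : E.1 = E'.1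
      · have : E = E' := Subtype.ext he
        subst this
        simp
      · obtain ⟨β, hβ, p, hp, h3⟩ := hEE.first_step (E.2.good hPr) he
        have l1 := hPr' p hp
        have c1 := card_split (E.2.good hPr) hβ l1
        have c2 := h3.card_le hPr' (good_split (E.2.good hPr) hβ (by omega))
        have h4 := ih ⟨split E.1 β p, E.2.split hPr hβ hp⟩ E' h3 (by simp only; omega)
        rw [← add_mk p hp E β hβ, hcalc p hp, ← iterate_add_apply] at h4
        rw [h4]
        congr 2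
        simp only
        omega
  intro E E' hE hE' hcard
  have a1 := hstd E.card ⟨{id}, NE.leaf id⟩ ⟨E, hE⟩ (exp_singleton.2 hE) (by simp)
  have a2 := hstd E'.card ⟨{id}, NE.leaf id⟩ ⟨E', hE'⟩ (exp_singleton.2 hE') (by simp)
  simp only at a1 a2
  rw [hcard, ← a2] at a1
  exact Quotient.exact a1

theorem mem_closure_of_nat (hP : ∀ p ∈ P, p.Prime) (g : Equiv.Perm ℤ)
    (h1 : NE (insert 2 P) id E) (h2 : NE (insert 2 P) id (act g E)) :
    g ∈ Subgroup.closure (gens P) := by
  have hPr : ∀ p ∈ insert 2 P, p.Prime := by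
    intro p hp
    rcases mem_insert.1 hp with rfl | h
    · exact Nat.prime_two
    · exact hP p h
  obtain ⟨k, hk, hk2⟩ := transitive_nat hP (act g E) E h2 h1 card_act
  have h3 : act (k * g) E = E := by rw [act_mul, hk2]
  have h4 := mem_closure_of_act hPr h1 h3
  have h5 := mul_mem (inv_mem hk) h4
  simpa using h5

end Pool.Agent.CT
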