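import Pool.Agent.CT.Exp

set_option autoImplicit false

namespace Pool.Agent.CT

open Finset Function
open scoped Classical

variable {Pr : Finset ℕ} {B D E E' : Finset (ℤ → ℤ)} {β γ δ ε e : ℤ → ℤ} {p q r i j : ℕ}

/-! ### bases -/

lemma Bas.split (hPr : ∀ p ∈ Pr, p.Prime) (h : Bas Pr B) (hβ : β ∈ B) (hp : p ∈ Pr) :
    Bas Pr (split B β p) := by
  obtain ⟨hB, E, h1, h2⟩ := h
  have hPr' : ∀ p ∈ Pr, 1 < p := fun p hp => (hPr p hp).one_lt
  refine ⟨good_split hB hβ (hPr p hp).pos, unif E p, exp_split_unif hPr hB h1 hβ hp, ?_⟩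
  exact h2.trans good_id (exp_unif (h1.good hPr' hB) hp)

lemma Bas.of_split (h : Bas Pr (Pool.Agent.CT.split B β p)) (hB : Good B) (hβ : β ∈ B)
    (hp : p ∈ Pr) : Bas Pr B := by
  obtain ⟨-, E, h1, h2⟩ := h
  exact ⟨hB, E, (Exp.split hB hβ hp).trans hB h1, h2⟩

lemma bas_id : Bas Pr {id} := ⟨good_id, {id}, Exp.refl good_id, Exp.refl good_id⟩

/-- splits at different cells commute -/
lemma split_comm (hB : Good B) (hβ : β ∈ B) (hγ : γ ∈ B) (hne : β ≠ γ) (hp : 1 < p)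
    (hq : 1 < q) : split (split B β p) γ q = split (split B γ q) β p := by
  have h1 : ∀ e, e ∈ kids β p → e ≠ γ := by
    rintro e he rfl
    exact Finset.disjoint_left.1 (kids_disj hB hβ hp) hγ he
  have h2 : ∀ e, e ∈ kids γ q → e ≠ β := by
    rintro e he rfl
    exact Finset.disjoint_left.1 (kids_disj hB hγ hq) hβ he
  ext e
  simp only [mem_split]
  have := h1 e
  have := h2 e
  tauto

/-! ### merges -/

/-- merge the `p` children of `β` into `β` -/
noncomputable def mrg (D : Finset (ℤ → ℤ)) (β : ℤ → ℤ) (p : ℕ) : Finset (ℤ → ℤ) :=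
  insert β (D \ kids β p)

structure IsM (Pr : Finset ℕ) (D : Finset (ℤ → ℤ)) (β : ℤ → ℤ) (p : ℕ) : Prop where
  hp : p ∈ Pr
  inj : Injective β
  sub : kids β p ⊆ D

lemma mem_mrg : e ∈ mrg D β p ↔ e = β ∨ (e ∈ D ∧ e ∉ kids β p) := by
  simp [mrg]

lemma IsM.not_mem (hD : Good D) (hPr : ∀ p ∈ Pr, 1 < p) (h : IsM Pr D β p) : β ∉ D := by
  intro hβ
  have hp := hPr p h.hp
  exact Finset.disjoint_left.1 (kids_disj hD hβ hp) (h.sub (ch_mem_kids (j := 0) (by omega)))
    (ch_mem_kids (j := 0) (by omega))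

lemma IsM.good (hD : Good D) (hPr : ∀ p ∈ Pr, 1 < p) (h : IsM Pr D β p) : Good (mrg D β p) := by
  have hp := hPr p h.hp
  apply Good.mk'
  · intro z
    obtain ⟨γ, hγ, x, hx⟩ := hD.ex z
    by_cases hc : γ ∈ kids β p
    · obtain ⟨j, hj, rfl⟩ := mem_kids.1 hc
      exact ⟨β, mem_mrg.2 (Or.inl rfl), j + p * x, hx⟩
    · exact ⟨γ, mem_mrg.2 (Or.inr ⟨hγ, hc⟩), x, hx⟩
  · have key : ∀ f ∈ D, f ∉ kids β p → ∀ x y, β x ≠ f y := by
      intro f hf hfk x y hxy
      obtain ⟨j, hj, w, hw⟩ := exists_ch (β := β) (p := p) (by omega) x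
      have := (hD.eq (h.sub (ch_mem_kids hj)) hf (hw.trans hxy)).1
      exact hfk (this ▸ ch_mem_kids hj)
    intro e he f hf x y hxy
    rcases mem_mrg.1 he with rfl | ⟨h1, h2⟩
    · rcases mem_mrg.1 hf with rfl | ⟨h3, h4⟩
      · exact ⟨rfl, h.inj hxy⟩
      · exact absurd hxy (key f h3 h4 x y)
    · rcases mem_mrg.1 hf with rfl | ⟨h3, h4⟩
      · exact absurd hxy.symm (key e h1 h2 y x)
      · exact hD.eq h1 h3 hxy

lemma IsM.split_mrg (hD : Good D) (hPr : ∀ p ∈ Pr, 1 < p) (h : IsM Pr D β p) :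
    split (mrg D β p) β p = D := by
  have hn := h.not_mem hD hPr
  ext e
  simp only [mem_split, mem_mrg]
  constructor
  · rintro (⟨h1, h2 | h2⟩ | h1)
    · exact absurd h2 h1
    · exact h2.1
    · exact h.sub h1
  · intro he
    by_cases hc : e ∈ kids β p
    · exact Or.inr hc
    · refine Or.inl ⟨?_, Or.inr ⟨he, hc⟩⟩
      rintro rfl; exact hn he

lemma IsM.mem (D : Finset (ℤ → ℤ)) (β : ℤ → ℤ) (p : ℕ) : β ∈ mrg D β p := mem_mrg.2 (Or.inl rfl)

lemma IsM.card (hD : Good D) (hPr : ∀ p ∈ Pr, 1 < p) (h : IsM Pr D β p) :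
    (mrg D β p).card + p = D.card + 1 := by
  have := card_split (h.good hD hPr) (IsM.mem D β p) (hPr p h.hp)
  rw [h.split_mrg hD hPr] at this
  omega

lemma IsM.bas (hD : Bas Pr D) (hPr : ∀ p ∈ Pr, 1 < p) (h : IsM Pr D β p) :
    Bas Pr (mrg D β p) := by
  apply Bas.of_split (β := β) (p := p) _ (h.good hD.1 hPr) (IsM.mem D β p) h.hp
  rw [h.split_mrg hD.1 hPr]; exact hD

lemma IsM.of_split (hB : Good B) (hβ : β ∈ B) (hp : p ∈ Pr) : IsM Pr (split B β p) β p :=
  ⟨hp, hB.inj hβ, fun _ he => mem_split.2 (Or.inr he)⟩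

lemma mrg_split (hB : Good B) (hβ : β ∈ B) (hp : 1 < p) : mrg (split B β p) β p = B := by
  have h1 := kids_disj hB hβ hp
  ext e
  simp only [mem_mrg, mem_split]
  constructor
  · rintro (rfl | ⟨h2 | h2, h3⟩)
    · exact hβ
    · exact h2.2
    · exact absurd h2 h3
  · intro he
    by_cases hc : e = β
    · exact Or.inl hc
    · exact Or.inr ⟨Or.inl ⟨hc, he⟩, Finset.disjoint_left.1 h1 he⟩

/-- disjoint merges -/
lemma IsM.mrg_of_disj (h1 : IsM Pr D γ q)
    (hd : Disjoint (kids β p) (kids γ q)) : IsM Pr (mrg D β p) γ q :=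
  ⟨h1.hp, h1.inj, fun _ he => mem_mrg.2 (Or.inr ⟨h1.sub he, Finset.disjoint_right.1 hd he⟩)⟩

lemma mrg_comm (hD : Good D) (hPr : ∀ p ∈ Pr, 1 < p) (h1 : IsM Pr D β p) (h2 : IsM Pr D γ q) :
    mrg (mrg D β p) γ q = mrg (mrg D γ q) β p := by
  have n1 := h1.not_mem hD hPr
  have n2 := h2.not_mem hD hPr
  have k1 : β ∉ kids γ q := fun h => n1 (h2.sub h)
  have k2 : γ ∉ kids β p := fun h => n2 (h1.sub h)
  ext e
  simp only [mem_mrg]
  constructor
  · rintro (rfl | ⟨rfl | h3, h4⟩)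
    · exact Or.inr ⟨Or.inl rfl, k2⟩
    · exact Or.inl rfl
    · exact Or.inr ⟨Or.inr ⟨h3.1, h4⟩, h3.2⟩
  · rintro (rfl | ⟨rfl | h3, h4⟩)
    · exact Or.inr ⟨Or.inl rfl, k1⟩
    · exact Or.inl rfl
    · exact Or.inr ⟨Or.inr ⟨h3.1, h4⟩, h3.2⟩

/-- splitting and merging at disjoint places commute -/
lemma split_mrg_comm (hE : Good E) (hPr : ∀ p ∈ Pr, 1 < p) (h1 : IsM Pr E δ q) (hε : ε ∈ E)
    (hn : ε ∉ kids δ q) (hr : 1 < r) :
    split (mrg E δ q) ε r = mrg (split E ε r) δ q := by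
  have n1 := h1.not_mem hE hPr
  have k1 := kids_disj hE hε hr
  ext e
  simp only [mem_split, mem_mrg]
  constructor
  · rintro (⟨h2, rfl | h3⟩ | h2)
    · exact Or.inl rfl
    · exact Or.inr ⟨Or.inl ⟨h2, h3.1⟩, h3.2⟩
    · exact Or.inr ⟨Or.inr h2, fun h => Finset.disjoint_left.1 k1 (h1.sub h) h2⟩
  · rintro (rfl | ⟨h2 | h2, h3⟩)
    · refine Or.inl ⟨?_, Or.inl rfl⟩
      rintro rfl; exact n1 hε
    · exact Or.inl ⟨h2.1, Or.inr ⟨h2.2, h3⟩⟩
    · exact Or.inr h2

lemma IsM.split_of (h1 : IsM Pr E δ q) (hn : ε ∉ kids δ q) : IsM Pr (split E ε r) δ q :=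
  ⟨h1.hp, h1.inj, fun e he => mem_split.2 (Or.inl ⟨by rintro rfl; exact hn he, h1.sub he⟩)⟩

lemma IsM.unique (hD : Good D) (hPr : ∀ p ∈ Pr, 1 < p) (h1 : IsM Pr D β p) (h2 : IsM Pr D γ q)
    (h : mrg D β p = mrg D γ q) : β = γ ∧ p = q := by
  have n1 := h1.not_mem hD hPr
  have e1 : β ∈ mrg D γ q := h ▸ IsM.mem D β p
  have c1 := h1.card hD hPr
  have c2 := h2.card hD hPr
  rw [h] at c1
  refine ⟨?_, by omega⟩
  rcases mem_mrg.1 e1 with h3 | h3
  · exact h3
  · exact absurd h3.1 n1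

/-- two distinct elements of a good set can be merged -/
lemma exists_merge (hD : Good D) (h2 : 2 ∈ Pr) {a b : ℤ → ℤ} (ha : a ∈ D) (hb : b ∈ D)
    (hab : a ≠ b) : ∃ β, IsM Pr D β 2 ∧ kids β 2 = {a, b} := by
  refine ⟨fun z => if z % 2 = 0 then a (z / 2) else b (z / 2), ?_, ?_⟩
  · have hk : kids (fun z : ℤ => if z % 2 = 0 then a (z / 2) else b (z / 2)) 2 = {a, b} := ?_
    · refine ⟨h2, ?_, ?_⟩
      · intro x y hxy
        simp only at hxy
        split_ifs at hxy with h3 h4 h4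
        · have := hD.inj ha hxy; omega
        · exact absurd (hD.eq ha hb hxy).1 hab
        · exact absurd (hD.eq hb ha hxy).1 hab.symm
        · have := hD.inj hb hxy; omega
      · rw [hk]
        intro e he
        simp only [mem_insert, mem_singleton] at he
        rcases he with rfl | rfl
        · exact ha
        · exact hb
    · have c0 : ch (fun z : ℤ => if z % 2 = 0 then a (z / 2) else b (z / 2)) 2 0 = a := by
        funext x
        simp only [ch]
        have : ((0 : ℕ) : ℤ) + (2 : ℕ) * x = 2 * x := by push_cast; ring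
        rw [this]
        simp
      have c1 : ch (fun z : ℤ => if z % 2 = 0 then a (z / 2) else b (z / 2)) 2 1 = b := by
        funext x
        simp only [ch]
        have : ((1 : ℕ) : ℤ) + (2 : ℕ) * x = 2 * x + 1 := by push_cast; ring
        rw [this]
        have h3 : (2 * x + 1) % 2 = 1 := by omega
        have h4 : (2 * x + 1) / 2 = x := by omega
        rw [h3, h4]
        simp
      rw [kids, show range 2 = {0, 1} from rfl, image_insert, image_singleton, c0, c1]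
  · have c0 : ch (fun z : ℤ => if z % 2 = 0 then a (z / 2) else b (z / 2)) 2 0 = a := by
      funext x
      simp only [ch]
      have : ((0 : ℕ) : ℤ) + (2 : ℕ) * x = 2 * x := by push_cast; ring
      rw [this]
      simp
    have c1 : ch (fun z : ℤ => if z % 2 = 0 then a (z / 2) else b (z / 2)) 2 1 = b := by
      funext x
      simp only [ch]
      have : ((1 : ℕ) : ℤ) + (2 : ℕ) * x = 2 * x + 1 := by push_cast; ring
      rw [this]
      have h3 : (2 * x + 1) % 2 = 1 := by omega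
      have h4 : (2 * x + 1) / 2 = x := by omega
      rw [h3, h4]
      simp
    rw [kids, show range 2 = {0, 1} from rfl, image_insert, image_singleton, c0, c1]

lemma exists_merge_disj (hD : Good D) (h2 : 2 ∈ Pr) (F : Finset (ℤ → ℤ))
    (hF : F.card + 2 ≤ D.card) : ∃ β, IsM Pr D β 2 ∧ Disjoint F (kids β 2) := by
  have h3 : 1 < (D \ F).card := by
    have := le_card_sdiff F D
    omega
  obtain ⟨a, ha, b, hb, hab⟩ := one_lt_card.1 h3
  rw [mem_sdiff] at ha hb
  obtain ⟨β, h4, h5⟩ := exists_merge hD h2 ha.1 hb.1 hab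
  refine ⟨β, h4, ?_⟩
  rw [h5, Finset.disjoint_right]
  intro e he
  simp only [mem_insert, mem_singleton] at he
  rcases he with rfl | rfl
  · exact ha.2
  · exact hb.2

end Pool.Agent.CT
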