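import Pool.Agent.CT.Extend

set_option autoImplicit false

namespace Pool.Agent.CT

open Finset Function
open scoped Classical

variable {Pr : Finset ℕ} {B D E E' : Finset (ℤ → ℤ)} {β γ δ ε e : ℤ → ℤ} {p q r i j : ℕ}
variable {H : Type} [Group H]

lemma gp_congr {N : ℕ} {f f' : Finset (ℤ → ℤ) → Finset (ℤ → ℤ) → H}
    (h : ∀ B D, D.card ≤ N → f' B D = f B D) (hB : Good B) (hβ : β ∈ B) (hp : 1 < p) (hq : 1 < q)
    (hc : (gs B β p q p).card ≤ N) : ∀ i, i ≤ p → gp f' B β p q i = gp f B β p q i := by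
  intro i
  induction i with
  | zero =>
    intro _
    have := card_gs_le (q := q) hB hβ hp hq (Nat.zero_le p)
    exact h _ _ (le_trans this hc)
  | succ i ih =>
    intro hi
    have := card_gs_le (q := q) hB hβ hp hq hi
    simp only [gp]
    rw [ih (by omega), h _ _ (le_trans this hc)]

lemma CC.congr (hPr : ∀ p ∈ Pr, 1 < p) {N : ℕ} {f f' : Finset (ℤ → ℤ) → Finset (ℤ → ℤ) → H}
    (h : ∀ B D, D.card ≤ N → f' B D = f B D) (hf : CC Pr N f) : CC Pr N f' := by
  constructor
  · intro B β γ p q hB hβ hγ hne hp hq hc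
    have l1 := hPr p hp
    have l2 := hPr q hq
    have hγ' : γ ∈ split B β p := mem_split.2 (Or.inl ⟨hne.symm, hγ⟩)
    have hβ' : β ∈ split B γ q := mem_split.2 (Or.inl ⟨hne, hβ⟩)
    have hcomm := split_comm hB.1 hβ hγ hne l1 l2
    have c1 := card_split (good_split hB.1 hβ (by omega)) hγ' l2
    have c2 := card_split (good_split hB.1 hγ (by omega)) hβ' l1
    rw [← hcomm] at c2
    rw [h _ _ hc, h _ _ hc, h _ _ (by omega), h _ _ (by omega)]
    exact hf.sq B β γ p q hB hβ hγ hne hp hq hc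
  · intro B β p q hB hβ hp hq hne hc
    have l1 := hPr p hp
    have l2 := hPr q hq
    have end1 := gs_end (q := q) hB.1 hβ l1
    have end2 := gs_end (q := p) hB.1 hβ l2
    rw [mul_comm q p] at end2
    rw [gp_congr h hB.1 hβ l1 l2 (by rw [end1]; exact hc) p le_rfl,
      gp_congr h hB.1 hβ l2 l1 (by rw [end2]; exact hc) q le_rfl]
    exact hf.grid B β p q hB hβ hp hq hne hc

lemma CC.mono {N K : ℕ} (hK : K ≤ N) {f : Finset (ℤ → ℤ) → Finset (ℤ → ℤ) → H}
    (hf : CC Pr N f) : CC Pr K f :=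
  ⟨fun B β γ p q hB hβ hγ hne hp hq hc => hf.sq B β γ p q hB hβ hγ hne hp hq (le_trans hc hK),
    fun B β p q hB hβ hp hq hne hc => hf.grid B β p q hB hβ hp hq hne (le_trans hc hK)⟩

theorem extend_all (hPr : ∀ p ∈ Pr, p.Prime) (h2 : 2 ∈ Pr) {M N : ℕ} (hM : ∀ p ∈ Pr, p ≤ M)
    (hN : M * M + 4 * M + 2 ≤ N) {f : Finset (ℤ → ℤ) → Finset (ℤ → ℤ) → H} (hf : CC Pr N f) :
    ∃ F : Finset (ℤ → ℤ) → Finset (ℤ → ℤ) → H, (∀ K, CC Pr K F) ∧
      ∀ B D, D.card ≤ N → F B D = f B D := by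
  have hPr' : ∀ p ∈ Pr, 1 < p := fun p hp => (hPr p hp).one_lt
  have hstep : ∀ (k : ℕ) (g : Finset (ℤ → ℤ) → Finset (ℤ → ℤ) → H), ∃
      g' : Finset (ℤ → ℤ) → Finset (ℤ → ℤ) → H, CC Pr (N + k) g →
      (CC Pr (N + (k + 1)) g' ∧ ∀ B D, D.card ≤ N + k → g' B D = g B D) := by
    intro k g
    by_cases hg : CC Pr (N + k) g
    · obtain ⟨g', h1, h3⟩ := extend hPr h2 hM (N := N + k) (by omega) hg
      exact ⟨g', fun _ => ⟨h1, h3⟩⟩
    · exact ⟨g, fun h => absurd h hg⟩
  choose nxt hnxt using hstep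
  let s : ℕ → (Finset (ℤ → ℤ) → Finset (ℤ → ℤ) → H) := fun n => Nat.rec f (fun k g => nxt k g) n
  have hs0 : s 0 = f := rfl
  have hs1 : ∀ k, s (k + 1) = nxt k (s k) := fun k => rfl
  have hCC : ∀ k, CC Pr (N + k) (s k) := by
    intro k
    induction k with
    | zero => exact hf
    | succ k ih => rw [hs1]; exact (hnxt k (s k) ih).1
  have hco : ∀ k B D, D.card ≤ N + k → s (k + 1) B D = s k B D := by
    intro k B D h
    rw [hs1]; exact (hnxt k (s k) (hCC k)).2 B D h
  have hmono : ∀ k l B D, k ≤ l → D.card ≤ N + k → s l B D = s k B D := by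
    intro k l B D hkl h
    induction l, hkl using Nat.le_induction with
    | base => rfl
    | succ l hl ih => rw [hco l B D (by omega), ih]
  have hF : ∀ K B D, D.card ≤ N + K → s (D.card - N) B D = s K B D := by
    intro K B D h
    exact (hmono (D.card - N) K B D (by omega) (by omega)).symm
  refine ⟨fun B D => s (D.card - N) B D, fun K => ?_, fun B D h => ?_⟩
  · exact ((hCC K).congr hPr' (f' := fun B D => s (D.card - N) B D)
      (fun B D h => hF K B D h)).mono (by omega)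
  · exact hF 0 B D (by omega)

/-- `h` is the product of `f` along some path of splits from `B` to `E` -/
inductive Val (Pr : Finset ℕ) (f : Finset (ℤ → ℤ) → Finset (ℤ → ℤ) → H) (E : Finset (ℤ → ℤ)) :
    Finset (ℤ → ℤ) → H → Prop
  | refl : Val Pr f E E 1
  | step (B : Finset (ℤ → ℤ)) (β : ℤ → ℤ) (p : ℕ) (h : H) (hβ : β ∈ B) (hp : p ∈ Pr)
      (hv : Val Pr f E (split B β p) h) : Val Pr f E B (f B (split B β p) * h)

variable {f : Finset (ℤ → ℤ) → Finset (ℤ → ℤ) → H}

lemma Val.exp (hPr : ∀ p ∈ Pr, p.Prime) {h : H} (hv : Val Pr f E B h) :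
    Good B → Exp Pr B E := by
  induction hv with
  | refl => exact fun hB => Exp.refl hB
  | step B β p h hβ hp hv ih =>
    intro hB
    exact (Exp.split hB hβ hp).trans hB (ih (good_split hB hβ (hPr p hp).pos))

lemma Val.exists (hPr : ∀ p ∈ Pr, p.Prime) : ∀ (n : ℕ) {B : Finset (ℤ → ℤ)}, Good B →
    Exp Pr B E → E.card ≤ B.card + n → ∃ h, Val Pr f E B h := by
  have hPr' : ∀ p ∈ Pr, 1 < p := fun p hp => (hPr p hp).one_lt
  intro n
  induction n with
  | zero =>
    intro B hB h hc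
    by_cases he : B = E
    · subst he; exact ⟨1, Val.refl⟩
    · obtain ⟨β, hβ, p, hp, h1⟩ := h.first_step hB he
      have l1 := hPr' p hp
      have := card_split hB hβ l1
      have := h1.card_le hPr' (good_split hB hβ (by omega))
      omega
  | succ n ih =>
    intro B hB h hc
    by_cases he : B = E
    · subst he; exact ⟨1, Val.refl⟩
    · obtain ⟨β, hβ, p, hp, h1⟩ := h.first_step hB he
      have l1 := hPr' p hp
      have := card_split hB hβ l1
      obtain ⟨k, hk⟩ := ih (good_split hB hβ (by omega)) h1 (by omega)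
      exact ⟨_, Val.step B β p k hβ hp hk⟩

lemma Val.exists' (hPr : ∀ p ∈ Pr, p.Prime) (hB : Good B) (h : Exp Pr B E) :
    ∃ h, Val Pr f E B h := Val.exists hPr E.card hB h (by omega)

lemma Val.trans {h k : H} (hv : Val Pr f E B h) (hw : Val Pr f E' E k) : Val Pr f E' B (h * k) := by
  induction hv with
  | refl => simpa using hw
  | step B β p h hβ hp hv ih =>
    rw [mul_assoc]
    exact Val.step B β p _ hβ hp ih

/-- walking along the grid -/
lemma Val.grid (hPr : ∀ p ∈ Pr, p.Prime) (hB : Good B) (hβ : β ∈ B) (hp : p ∈ Pr) (hq : q ∈ Pr)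
    {E : Finset (ℤ → ℤ)} : ∀ i, i ≤ p → ∀ h, Val Pr f E (gs B β p q i) h →
    Val Pr f E (split B β p) ((f B (split B β p))⁻¹ * gp f B β p q i * h) := by
  have hPr' : ∀ p ∈ Pr, 1 < p := fun p hp => (hPr p hp).one_lt
  intro i
  induction i with
  | zero =>
    intro _ h hv
    simp only [gp, gs] at hv ⊢
    simpa using hv
  | succ i ih =>
    intro hi h hv
    have h1 := Val.step (Pr := Pr) (f := f) (E := E) (gs B β p q i) (ch β p i) q h
      (ch_mem_gs hB hβ (hPr' p hp) (by omega)) hq hv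
    have h2 := ih (by omega) _ h1
    have h3 : (f B (split B β p))⁻¹ * gp f B β p q (i + 1) * h =
        (f B (split B β p))⁻¹ * gp f B β p q i *
          (f (gs B β p q i) (split (gs B β p q i) (ch β p i) q) * h) := by
      simp only [gp, gs]; group
    rw [h3]; exact h2

lemma Val.unique (hPr : ∀ p ∈ Pr, p.Prime) (hf : ∀ K, CC Pr K f) : ∀ (n : ℕ)
    {B : Finset (ℤ → ℤ)} {h h' : H}, Bas Pr B → E.card ≤ B.card + n →
    Val Pr f E B h → Val Pr f E B h' → h = h' := by
  have hPr' : ∀ p ∈ Pr, 1 < p := fun p hp => (hPr p hp).one_lt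
  have aux : ∀ {B : Finset (ℤ → ℤ)} {β : ℤ → ℤ} {p : ℕ} {h : H}, Good B → β ∈ B → p ∈ Pr →
      Val Pr f E (split B β p) h → B.card + 1 ≤ E.card := by
    intro B β p h hB hβ hp hv
    have l1 := hPr' p hp
    have c1 := card_split hB hβ l1
    have hg := good_split hB hβ (p := p) (by omega)
    have c2 := (hv.exp hPr hg).card_le hPr' hg
    omega
  intro n
  induction n with
  | zero =>
    intro B h h' hB hc hv hw
    cases hv with
    | refl =>
      cases hw with
      | refl => rfl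
      | step _ β p k hβ hp hw =>
        have := aux hB.1 hβ hp hw
        omega
    | step _ β p k hβ hp hv =>
      have := aux hB.1 hβ hp hv
      omega
  | succ n ih =>
    intro B h h' hB hc hv hw
    cases hv with
    | refl =>
      cases hw with
      | refl => rfl
      | step _ γ q k hγ hq hw =>
        have := aux hB.1 hγ hq hw
        omega
    | step _ β p k hβ hp hv =>
      have l1 := hPr' p hp
      have c1 := card_split hB.1 hβ l1
      have g1 := good_split hB.1 hβ (p := p) (by omega)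
      cases hw with
      | refl =>
        have := aux hB.1 hβ hp hv
        omega
      | step _ γ q k' hγ hq hw =>
        have l2 := hPr' q hq
        have c2 := card_split hB.1 hγ l2
        have g2 := good_split hB.1 hγ (p := q) (by omega)
        have e1 := hv.exp hPr g1
        have e2 := hw.exp hPr g2
        have B1 := hB.split hPr hβ hp
        have B2 := hB.split hPr hγ hq
        by_cases hβγ : β = γ
        · subst hβγ
          by_cases hpq : p = q
          · subst hpq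
            rw [ih B1 (by omega) hv hw]
          · have e3 := join_grid hPr hp hq hB.1 hβ hpq e1 e2
            have end1 := gs_end (q := q) hB.1 hβ l1
            have end2 := gs_end (q := p) hB.1 hβ l2
            rw [mul_comm q p] at end2
            have g3 : Good (split B β (p * q)) := by
              rw [← end1]; exact good_gs hB.1 hβ l1 l2 p le_rfl
            obtain ⟨d, hd⟩ := Val.exists' (f := f) hPr g3 e3
            have v1 := Val.grid (q := q) hPr hB.1 hβ hp hq p le_rfl d (by rw [end1]; exact hd)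
            have v2 := Val.grid (q := p) hPr hB.1 hβ hq hp q le_rfl d (by rw [end2]; exact hd)
            rw [ih B1 (by omega) hv v1, ih B2 (by omega) hw v2,
              (hf (split B β (p * q)).card).grid B β p q hB hβ hp hq hpq le_rfl]
            group
        · have e3 := join_ne hB.1 hβ hγ hβγ e1 e2
          have hγ' : γ ∈ split B β p := mem_split.2 (Or.inl ⟨fun h => hβγ h.symm, hγ⟩)
          have hβ' : β ∈ split B γ q := mem_split.2 (Or.inl ⟨hβγ, hβ⟩)
          have g3 : Good (split (split B β p) γ q) := good_split g1 hγ' (by omega)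
          obtain ⟨d, hd⟩ := Val.exists' (f := f) hPr g3 e3
          have v1 := Val.step (Pr := Pr) (f := f) (E := E) (split B β p) γ q d hγ' hq hd
          have hcomm := split_comm hB.1 hβ hγ hβγ l1 l2
          have v2 := Val.step (Pr := Pr) (f := f) (E := E) (split B γ q) β p d hβ' hp
            (by rw [← hcomm]; exact hd)
          rw [ih B1 (by omega) hv v1, ih B2 (by omega) hw v2, ← hcomm, ← mul_assoc, ← mul_assoc,
            (hf _).sq B β γ p q hB hβ hγ hβγ hp hq le_rfl]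

lemma Val.unique' (hPr : ∀ p ∈ Pr, p.Prime) (hf : ∀ K, CC Pr K f) {h h' : H} (hB : Bas Pr B)
    (hv : Val Pr f E B h) (hw : Val Pr f E B h') : h = h' :=
  Val.unique hPr hf E.card hB (by omega) hv hw

theorem trivialise_all (hPr : ∀ p ∈ Pr, p.Prime) (hf : ∀ K, CC Pr K f) :
    ∃ F : Finset (ℤ → ℤ) → H, ∀ B β p, Bas Pr B → β ∈ B → p ∈ Pr →
      f B (split B β p) = (F B)⁻¹ * F (split B β p) := by
  have hex : ∀ B : Finset (ℤ → ℤ), Bas Pr B → ∃ (E : Finset (ℤ → ℤ)) (a b : H),
      Exp Pr B E ∧ Exp Pr {id} E ∧ Val Pr f E {id} a ∧ Val Pr f E B b := by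
    intro B hB
    obtain ⟨hg, E, h1, h2⟩ := hB
    obtain ⟨a, ha⟩ := Val.exists' (f := f) hPr good_id h2
    obtain ⟨b, hb⟩ := Val.exists' (f := f) hPr hg h1
    exact ⟨E, a, b, h1, h2, ha, hb⟩
  choose! E a b hE1 hE2 ha hb using hex
  have key : ∀ (B E' : Finset (ℤ → ℤ)) (a' b' : H), Bas Pr B → Exp Pr B E' → Exp Pr {id} E' →
      Val Pr f E' {id} a' → Val Pr f E' B b' → a B * (b B)⁻¹ = a' * b'⁻¹ := by
    intro B E' a' b' hB h1 h2 h3 h4
    have hPr' : ∀ p ∈ Pr, 1 < p := fun p hp => (hPr p hp).one_lt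
    obtain ⟨E'', h5, h6⟩ := (hE2 B hB).confluence hPr good_id h2
    obtain ⟨c, hc⟩ := Val.exists' (f := f) hPr ((hE2 B hB).good hPr' good_id) h5
    obtain ⟨c', hc'⟩ := Val.exists' (f := f) hPr (h2.good hPr' good_id) h6
    have u1 := Val.unique' hPr hf bas_id ((ha B hB).trans hc) (h3.trans hc')
    have u2 := Val.unique' hPr hf hB ((hb B hB).trans hc) (h4.trans hc')
    have : a B * (b B)⁻¹ = (a B * c) * (b B * c)⁻¹ := by group
    rw [this, u1, u2]; group
  refine ⟨fun B => a B * (b B)⁻¹, ?_⟩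
  intro B β p hB hβ hp
  have hB' := hB.split hPr hβ hp
  have h1 := key B (E (split B β p)) (a (split B β p)) (f B (split B β p) * b (split B β p)) hB
    ((Exp.split hB.1 hβ hp).trans hB.1 (hE1 _ hB')) (hE2 _ hB') (ha _ hB')
    (Val.step B β p _ hβ hp (hb _ hB'))
  simp only
  rw [h1]; group

theorem trivialise (hPr : ∀ p ∈ Pr, p.Prime) (h2 : 2 ∈ Pr) {M N : ℕ} (hM : ∀ p ∈ Pr, p ≤ M)
    (hN : M * M + 4 * M + 2 ≤ N) (hf : CC Pr N f) :
    ∃ F : Finset (ℤ → ℤ) → H, ∀ B β p, Bas Pr B → β ∈ B → p ∈ Pr →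
      (split B β p).card ≤ N → f B (split B β p) = (F B)⁻¹ * F (split B β p) := by
  obtain ⟨f', h1, h3⟩ := extend_all hPr h2 hM hN hf
  obtain ⟨F, hF⟩ := trivialise_all hPr h1
  exact ⟨F, fun B β p hB hβ hp hc => by rw [← h3 _ _ hc]; exact hF B β p hB hβ hp⟩

/-! ### connectedness -/

/-- `φ` is constant along splits of size at most `N` -/
def LC (Pr : Finset ℕ) (N : ℕ) (φ : Finset (ℤ → ℤ) → Prop) : Prop :=
  ∀ B β p, Bas Pr B → β ∈ B → p ∈ Pr → (split B β p).card ≤ N → (φ B ↔ φ (split B β p))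

lemma LC.mrg (hPr : ∀ p ∈ Pr, 1 < p) {N : ℕ} {φ : Finset (ℤ → ℤ) → Prop} (h : LC Pr N φ)
    (hE : Bas Pr E) (hc : E.card ≤ N) (m : IsM Pr E β p) : φ (mrg E β p) ↔ φ E := by
  have := h (Pool.Agent.CT.mrg E β p) β p (m.bas hE hPr) (IsM.mem _ _ _) m.hp
    (by rw [m.split_mrg hE.1 hPr]; exact hc)
  rwa [m.split_mrg hE.1 hPr] at this

lemma LC.extend (hPr : ∀ p ∈ Pr, p.Prime) (h2 : 2 ∈ Pr) {M N : ℕ} (hM : ∀ p ∈ Pr, p ≤ M)
    (hN : 4 * M + 2 ≤ N) {φ : Finset (ℤ → ℤ) → Prop} (h : LC Pr N φ) :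
    ∃ φ' : Finset (ℤ → ℤ) → Prop, LC Pr (N + 1) φ' ∧ ∀ D, D.card ≤ N → (φ' D ↔ φ D) := by
  have hPr' : ∀ p ∈ Pr, 1 < p := fun p hp => (hPr p hp).one_lt
  have key : ∀ D : Finset (ℤ → ℤ), Bas Pr D → D.card = N + 1 → ∀ β p γ q, IsM Pr D β p →
      IsM Pr D γ q → (φ (Pool.Agent.CT.mrg D β p) ↔ φ (Pool.Agent.CT.mrg D γ q)) := by
    intro D hD hc β p γ q m1 m2
    obtain ⟨c, hm, d1, d2, -, -⟩ := far4 hD.1 h2 hM (by omega) m1 m2 m1 m2
    have dis : ∀ β p, IsM Pr D β p → Disjoint (kids β p) (kids c 2) →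
        (φ (Pool.Agent.CT.mrg D β p) ↔ φ (Pool.Agent.CT.mrg D c 2)) := by
      intro β p m1 d1
      have c1 := m1.card hD.1 hPr'
      have c2 := hm.card hD.1 hPr'
      have l1 := hPr' _ m1.hp
      have a1 := h.mrg hPr' (m1.bas hD hPr') (by omega) (hm.mrg_of_disj d1)
      have a2 := h.mrg hPr' (hm.bas hD hPr') (by omega) (m1.mrg_of_disj d1.symm)
      rw [mrg_comm hD.1 hPr' hm m1] at a2
      exact a1.symm.trans a2
    exact (dis β p m1 d1).trans (dis γ q m2 d2).symm
  refine ⟨fun D => if D.card = N + 1 then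
    ∃ β p, IsM Pr D β p ∧ φ (Pool.Agent.CT.mrg D β p) else φ D, ?_, ?_⟩
  · intro B β p hB hβ hp hc
    have l1 := hPr' p hp
    have c1 := card_split hB.1 hβ l1
    have hB' := hB.split hPr hβ hp
    have hs := mrg_split hB.1 hβ l1
    have hm := IsM.of_split hB.1 hβ hp
    simp only
    rw [if_neg (show ¬ B.card = N + 1 by omega)]
    by_cases hcc : (split B β p).card = N + 1
    · rw [if_pos hcc]
      constructor
      · intro hφ
        exact ⟨β, p, hm, by rw [hs]; exact hφ⟩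
      · rintro ⟨γ, q, h3, h4⟩
        have := (key _ hB' hcc _ _ _ _ hm h3).2 h4
        rwa [hs] at this
    · rw [if_neg hcc]
      exact h B β p hB hβ hp (by omega)
  · intro D hD
    simp only
    rw [if_neg (by omega)]

lemma LC.exp (hPr : ∀ p ∈ Pr, p.Prime) {N : ℕ} {φ : Finset (ℤ → ℤ) → Prop} (h : LC Pr N φ)
    (hE : E.card ≤ N) : ∀ (n : ℕ) {B : Finset (ℤ → ℤ)}, Bas Pr B → Exp Pr B E →
    E.card ≤ B.card + n → (φ B ↔ φ E) := by
  have hPr' : ∀ p ∈ Pr, 1 < p := fun p hp => (hPr p hp).one_lt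
  intro n
  induction n with
  | zero =>
    intro B hB h1 hc
    by_cases he : B = E
    · subst he; rfl
    · obtain ⟨β, hβ, p, hp, h3⟩ := h1.first_step hB.1 he
      have l1 := hPr' p hp
      have := card_split hB.1 hβ l1
      have := h3.card_le hPr' (good_split hB.1 hβ (by omega))
      omega
  | succ n ih =>
    intro B hB h1 hc
    by_cases he : B = E
    · subst he; rfl
    · obtain ⟨β, hβ, p, hp, h3⟩ := h1.first_step hB.1 he
      have l1 := hPr' p hp
      have c1 := card_split hB.1 hβ l1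
      have c2 := h3.card_le hPr' (good_split hB.1 hβ (by omega))
      exact (h B β p hB hβ hp (by omega)).trans (ih (hB.split hPr hβ hp) h3 (by omega))

theorem LC.const (hPr : ∀ p ∈ Pr, p.Prime) (h2 : 2 ∈ Pr) {M N : ℕ} (hM : ∀ p ∈ Pr, p ≤ M)
    (hN : 4 * M + 2 ≤ N) {φ : Finset (ℤ → ℤ) → Prop} (h : LC Pr N φ) (hB : Bas Pr B)
    (hc : B.card ≤ N) : φ B ↔ φ {id} := by
  have hK : ∀ K, ∃ φ' : Finset (ℤ → ℤ) → Prop, LC Pr (N + K) φ' ∧
      ∀ D, D.card ≤ N → (φ' D ↔ φ D) := by
    intro K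
    induction K with
    | zero => exact ⟨φ, h, fun _ _ => Iff.rfl⟩
    | succ K ih =>
      obtain ⟨φ', h1, h3⟩ := ih
      obtain ⟨φ'', h4, h5⟩ := h1.extend hPr h2 hM (by omega)
      exact ⟨φ'', h4, fun D hD => (h5 D (by omega)).trans (h3 D hD)⟩
  obtain ⟨hg, E, h1, h3⟩ := hB
  obtain ⟨φ', h4, h5⟩ := hK E.card
  have a1 := h4.exp hPr (E := E) (by omega) E.card (B := B) ⟨hg, E, h1, h3⟩ h1 (by omega)
  have a2 := h4.exp hPr (E := E) (by omega) E.card (B := {id}) bas_id h3 (by omega)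
  rw [← h5 B hc, ← h5 {id} (by simp; omega)]
  exact a1.trans a2.symm

end Pool.Agent.CT
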